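import Mathlib

/-!
# Subsets of finite cyclic groups which are closed under reflections
-/

set_option autoImplicit false

namespace Pool.Agent.H838P

variable {Q : Type*} [CommGroup Q] [DecidableEq Q] [Fintype Q]

theorem closed_of_swap (C : Subgroup Q) (L : Finset Q) (h1 : ∀ c ∈ C, c ∈ L)
    (hC : ∀ c ∈ C, ∀ x ∈ L, c * x ∈ L)
    (hs : ∀ b ∈ L, ∀ d ∈ L, b⁻¹ * d ∉ C → ∀ x ∈ L, b * d * x⁻¹ ∈ L)
    (hcard : 2 * Nat.card C < L.card) : ∀ c ∈ L, ∀ x ∈ L, c * x ∈ L := by
  classical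
  intro c hc x hx
  by_cases hcC : c ∈ C
  · exact hC c hcC x hx
  -- a third coset
  obtain ⟨d, hdL, hd1, hd2⟩ : ∃ d ∈ L, d ∉ C ∧ c⁻¹ * d ∉ C := by
    by_contra hcon
    push Not at hcon
    have hsub : L ⊆ (Finset.univ.filter (fun x => x ∈ C)) ∪
        (Finset.univ.filter (fun x => x ∈ C)).image (fun x => c * x) := by
      intro y hy
      rw [Finset.mem_union, Finset.mem_filter, Finset.mem_image]
      by_cases hyC : y ∈ C
      · exact Or.inl ⟨Finset.mem_univ _, hyC⟩
      · refine Or.inr ⟨c⁻¹ * y, ?_, by group⟩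
        rw [Finset.mem_filter]
        exact ⟨Finset.mem_univ _, hcon y hy hyC⟩
    have h2 := Finset.card_le_card hsub
    have h3 := Finset.card_union_le (Finset.univ.filter (fun x => x ∈ C))
      ((Finset.univ.filter (fun x => x ∈ C)).image (fun x => c * x))
    have h4 : ((Finset.univ.filter (fun x => x ∈ C)).image (fun x => c * x)).card ≤
      (Finset.univ.filter (fun x => x ∈ C)).card := Finset.card_image_le
    have h5 : (Finset.univ.filter (fun x => x ∈ C)).card = Nat.card C := by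
      rw [Nat.card_eq_fintype_card, Fintype.card_subtype]
    omega
  have h1L : (1 : Q) ∈ L := h1 1 C.one_mem
  have hy : 1 * d * x⁻¹ ∈ L := hs 1 h1L d hdL (by simpa using hd1) x hx
  have hz := hs c hc d hdL hd2 _ hy
  have e : c * d * (1 * d * x⁻¹)⁻¹ = c * x := by
    rw [one_mul, mul_inv, inv_inv]
    calc c * d * (d⁻¹ * x) = c * (d * d⁻¹) * x := by
          rw [mul_assoc, mul_assoc, mul_assoc]
      _ = c * x := by rw [mul_inv_cancel, mul_one]
  rwa [e] at hz

omit [Fintype Q] in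
theorem pow_card_of_closed (L : Finset Q) (h : ∀ c ∈ L, ∀ x ∈ L, c * x ∈ L) (c : Q) (hc : c ∈ L) :
    c ^ L.card = 1 := by
  have himg : L.image (fun x => c * x) = L := by
    apply Finset.eq_of_subset_of_card_le
    · intro y hy
      obtain ⟨x, hx, rfl⟩ := Finset.mem_image.mp hy
      exact h c hc x hx
    · rw [Finset.card_image_of_injective _ (mul_right_injective c)]
  have h1 : ∏ y ∈ L, y = ∏ y ∈ L, (c * y) := by
    conv_lhs => rw [← himg]
    rw [Finset.prod_image (fun x _ y _ hxy => mul_right_injective c hxy)]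
  rw [Finset.prod_mul_distrib, Finset.prod_const] at h1
  exact (mul_eq_right.mp h1.symm)

/-- If for all `a ∉ C` there is a set `L a ⊇ C ∪ aC` with the reflection property, and all these sets have
the same size `h > 2|C|`, then `|Q| ≤ h`. -/
theorem card_le_of_swap [IsCyclic Q] (C : Subgroup Q) (h : ℕ) (L : Q → Finset Q)
    (hL1 : ∀ a, a ∉ C → ∀ c ∈ C, c ∈ L a) (hL2 : ∀ a, a ∉ C → a ∈ L a)
    (hL3 : ∀ a, a ∉ C → ∀ c ∈ C, ∀ x ∈ L a, c * x ∈ L a)
    (hL4 : ∀ a, a ∉ C → ∀ b ∈ L a, ∀ d ∈ L a, b⁻¹ * d ∉ C → ∀ x ∈ L a, b * d * x⁻¹ ∈ L a)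
    (hL5 : ∀ a, a ∉ C → (L a).card = h) (hh : 2 * Nat.card C < h) (hne : ∃ a, a ∉ C) :
    Fintype.card Q ≤ h := by
  have hpos : 0 < h := by omega
  have key : ∀ a, a ∉ C → ∀ x ∈ L a, x ^ h = 1 := by
    intro a ha x hx
    have h2 := closed_of_swap C (L a) (hL1 a ha) (hL3 a ha) (hL4 a ha) (by rw [hL5 a ha]; exact hh)
    have h3 := pow_card_of_closed (L a) h2 x hx
    rwa [hL5 a ha] at h3
  have hall : ∀ x : Q, x ^ h = 1 := by
    intro x
    by_cases hx : x ∈ C
    · obtain ⟨a, ha⟩ := hne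
      exact key a ha x (hL1 a ha x hx)
    · exact key x hx x (hL2 x hx)
  have h4 := IsCyclic.card_pow_eq_one_le (α := Q) hpos
  have h5 : (Finset.univ.filter (fun a : Q => a ^ h = 1)) = Finset.univ := by
    ext x
    simp [hall x]
  rw [h5, Finset.card_univ] at h4
  exact h4

end Pool.Agent.H838P
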