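import Pool.Agent.H838P.Split

/-!
# Strength six and block size eight
-/

set_option autoImplicit false

open scoped LinearAlgebra.Projectivization

namespace Pool.Agent.H838P

section

variable {X : Type*} [DecidableEq X]

theorem fix_of_two (D : Finset X) (hD : D.card = 2) (f : X → X)
    (hf : Function.Injective f) (hfD : ∀ x ∈ D, f x ∈ D) (h3 : ∀ x, f (f (f x)) = x) :
    ∀ x ∈ D, f x = x := by
  obtain ⟨p, q, hpq, rfl⟩ := Finset.card_eq_two.mp hD
  have key : ∀ p q : X, p ≠ q → (f p = p ∨ f p = q) → (f q = p ∨ f q = q) → f p = p := by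
    intro p q hpq h1 h2
    rcases h1 with h1 | h1
    · exact h1
    · exfalso
      rcases h2 with h2 | h2
      · have := h3 p
        rw [h1, h2, h1] at this
        exact hpq this.symm
      · exact hpq (hf (h1.trans h2.symm))
  have hp : f p = p ∨ f p = q := by simpa using hfD p (by simp)
  have hq : f q = p ∨ f q = q := by simpa using hfD q (by simp)
  intro x hx
  rw [Finset.mem_insert, Finset.mem_singleton] at hx
  rcases hx with rfl | rfl
  · exact key _ _ hpq hp hq
  · exact key _ _ hpq.symm hq.symm hp.symm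

theorem block_eight {B : Finset (Finset X)} (hB : IsSteiner 8 6 B) (f : X → X)
    (hf : Function.Injective f) (hP : ∀ b ∈ B, b.image f ∈ B) (h3 : ∀ x, f (f (f x)) = x)
    (x y : X) (hfix : ∀ z, f z = z → z = x ∨ z = y) (T b : Finset X) (hT : T.card = 6)
    (hb : b ∈ B) (hTb : T ⊆ b) (h : ∀ x ∈ T, f x ∈ T) : b \ T = {x, y} := by
  have hinv := block_inv hB f hf hP T b hT hb hTb h
  have hc : (b \ T).card = 2 := by
    rw [Finset.card_sdiff_of_subset hTb, hB.1 b hb, hT]
  have hD : ∀ z ∈ b \ T, f z ∈ b \ T := by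
    intro z hz
    rw [Finset.mem_sdiff] at hz ⊢
    refine ⟨hinv z hz.1, ?_⟩
    intro hfz
    apply hz.2
    rw [← h3 z]
    exact h _ (h _ hfz)
  have h1 := fix_of_two _ hc f hf hD h3
  have h2 : b \ T ⊆ {x, y} := by
    intro z hz
    rw [Finset.mem_insert, Finset.mem_singleton]
    exact hfix z (h1 z hz)
  exact Finset.eq_of_subset_of_card_le h2 (by rw [hc]; exact Finset.card_le_two)

end

section

variable {F V : Type} [Field F] [AddCommGroup V] [Module F V]

/-- the map `x ↦ 1/(1-x)` -/
def g3 (F : Type) [Field F] : (F × F) ≃ₗ[F] (F × F) where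
  toFun w := (w.2, w.2 - w.1)
  invFun w := (w.1 - w.2, w.1)
  left_inv w := by ext <;> simp
  right_inv w := by ext <;> simp
  map_add' v w := by
    ext
    · simp
    · simp only [Prod.snd_add, Prod.fst_add]; ring
  map_smul' a w := by
    ext
    · simp
    · simp only [Prod.smul_snd, Prod.smul_fst, smul_eq_mul, RingHom.id_apply]; ring

theorem g3_apply (x y : F) : g3 F (x, y) = (y, y - x) := rfl

theorem det_g3 : IsSquare (LinearMap.det (g3 F : (F × F) →ₗ[F] (F × F))) := by
  set d := LinearMap.det (g3 F : (F × F) →ₗ[F] (F × F)) with hd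
  have h : (g3 F : (F × F) →ₗ[F] (F × F)) ∘ₗ ((g3 F : (F × F) →ₗ[F] (F × F)) ∘ₗ
      (g3 F : (F × F) →ₗ[F] (F × F))) = (-1 : F) • LinearMap.id := by
    ext <;> simp [g3_apply]
  have h1 := congrArg LinearMap.det h
  rw [LinearMap.det_comp, LinearMap.det_comp, LinearMap.det_smul, LinearMap.det_id, ← hd] at h1
  have h2 : d * (d * d) = 1 := by
    rw [h1]; simp
  exact ⟨d * d, by linear_combination -d * h2⟩

theorem g3_P (e : (F × F) ≃ₗ[F] V) (x : F) (hx : 1 - x ≠ 0) :
    lft e (g3 F) • P e x = P e (1 - x)⁻¹ := by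
  unfold P
  rw [lft_pt, pt_eq_iff]
  refine ⟨1 - x, ?_⟩
  rw [g3_apply, Prod.smul_mk, smul_eq_mul, smul_eq_mul, mul_one, mul_inv_cancel₀ hx]

theorem g3_one (e : (F × F) ≃ₗ[F] V) : lft e (g3 F) • P e 1 = Pinf e := by
  unfold P Pinf
  rw [lft_pt, pt_eq_iff]
  refine ⟨1, ?_⟩
  rw [g3_apply]
  simp

theorem g3_Pinf (e : (F × F) ≃ₗ[F] V) : lft e (g3 F) • Pinf e = P e 0 := by
  unfold P Pinf
  rw [lft_pt, pt_eq_iff]
  refine ⟨-1, ?_⟩
  rw [g3_apply]
  simp

theorem g3_cube (e : (F × F) ≃ₗ[F] V) (x : ℙ F V) :
    lft e (g3 F) • lft e (g3 F) • lft e (g3 F) • x = x := by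
  rcases cases_P e x with rfl | ⟨y, rfl⟩
  · rw [g3_Pinf, g3_P e 0 (by simp), sub_zero, inv_one, g3_one]
  · by_cases h1 : 1 - y = 0
    · have : y = 1 := (sub_eq_zero.mp h1).symm
      rw [this, g3_one, g3_Pinf, g3_P e 0 (by simp), sub_zero, inv_one]
    · by_cases h0 : y = 0
      · rw [h0, g3_P e 0 (by simp), sub_zero, inv_one, g3_one, g3_Pinf]
      · have h2 : 1 - (1 - y)⁻¹ ≠ 0 := by
          intro h
          apply h0
          field_simp at h
          linear_combination -h
        have h3 : 1 - (1 - (1 - y)⁻¹)⁻¹ ≠ 0 := by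
          intro h
          have e1 : (1 - (1 - y)⁻¹)⁻¹ = 1 := (sub_eq_zero.mp h).symm
          replace e1 : 1 - (1 - y)⁻¹ = 1 := by rw [← inv_inv (1 - (1 - y)⁻¹), e1, inv_one]
          have e2 : (1 - y)⁻¹ = 0 := by linear_combination -e1
          exact h1 (inv_eq_zero.mp e2)
        rw [g3_P e y h1, g3_P e _ h2, g3_P e _ h3]
        congr 1
        have e3 : (1 - (1 - y)⁻¹)⁻¹ = (1 - y) / (-y) := by
          have : 1 - (1 - y)⁻¹ = (-y) / (1 - y) := by
            field_simp
            ring
          rw [this, inv_div]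
        have e4 : 1 - (1 - (1 - y)⁻¹)⁻¹ = y⁻¹ := by
          rw [e3]
          field_simp
          ring
        rw [e4, inv_inv]

theorem g3_fix (e : (F × F) ≃ₗ[F] V) (ω : F) (hω : 1 + ω + ω ^ 2 = 0) (x : ℙ F V)
    (hx : lft e (g3 F) • x = x) : x = P e (-ω) ∨ x = P e (-ω ^ 2) := by
  rcases cases_P e x with rfl | ⟨y, rfl⟩
  · rw [g3_Pinf] at hx
    exact absurd hx (P_ne_Pinf e 0)
  · by_cases h1 : 1 - y = 0
    · have : y = 1 := (sub_eq_zero.mp h1).symm
      rw [this, g3_one] at hx
      exact absurd hx.symm (P_ne_Pinf e 1)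
    · rw [g3_P e y h1, P_inj] at hx
      have h2 : y * (1 - y) = 1 := by
        rw [← hx]
        rw [hx]
        nth_rewrite 1 [← hx]
        exact inv_mul_cancel₀ h1
      have hω3 : ω ^ 3 = 1 := by linear_combination (ω - 1) * hω
      have h3 : (y + ω) * (y + ω ^ 2) = 0 := by
        linear_combination -h2 + y * hω + hω3
      rcases mul_eq_zero.mp h3 with h | h
      · left; rw [P_inj]; linear_combination h
      · right; rw [P_inj]; linear_combination h

/-- characteristic seven is the only one in which blocks of size eight are possible -/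
theorem seven [Fintype F] [DecidableEq (ℙ F V)] (hV : Module.finrank F V = 2)
    (hq12 : Fintype.card F % 12 = 7) (B : Finset (Finset (ℙ F V)))
    (hB : IsSteiner 8 6 B) (hI : InvSL B) : (7 : F) = 0 := by
  classical
  have : Module.Finite F V := Module.finite_of_finrank_pos (by rw [hV]; norm_num)
  let e : (F × F) ≃ₗ[F] V := LinearEquiv.ofFinrankEq (F × F) V (by rw [hV]; simp)
  have hcharF : ringChar F ≠ 2 := by
    intro h
    have := FiniteField.even_card_of_char_two h
    omega
  have h20 : (2 : F) ≠ 0 := Ring.two_ne_zero hcharF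
  -- a primitive cube root of unity
  obtain ⟨u, hu3, hu1⟩ : ∃ u : Fˣ, u ^ 3 = 1 ∧ u ≠ 1 := by
    let C : Subgroup Fˣ := (powMonoidHom 3 : Fˣ →* Fˣ).ker
    have hC : Nat.card C = 3 := by
      rw [IsCyclic.card_powMonoidHom_ker, Nat.card_eq_fintype_card, Fintype.card_units]
      exact Nat.gcd_eq_right (by omega)
    have : C ≠ ⊥ := by
      intro h
      rw [h, Subgroup.card_bot] at hC
      omega
    obtain ⟨⟨u, hu⟩, hu1⟩ := Subgroup.ne_bot_iff_exists_ne_one.mp this
    refine ⟨u, MonoidHom.mem_ker.mp hu, fun h => hu1 (Subtype.ext h)⟩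
  set ω : F := (u : F) with hωu
  have hω3 : ω ^ 3 = 1 := by
    rw [hωu, ← Units.val_pow_eq_pow_val, hu3, Units.val_one]
  have hω1 : ω ≠ 1 := fun h => hu1 (Units.ext h)
  have hω0 : ω ≠ 0 := u.ne_zero
  have hω : 1 + ω + ω ^ 2 = 0 := by
    have : (ω - 1) * (1 + ω + ω ^ 2) = 0 := by linear_combination hω3
    exact (mul_eq_zero.mp this).resolve_left (sub_ne_zero.mpr hω1)
  have husq : IsSquare u := ⟨u ^ 2, by
    have : u ^ 2 * u ^ 2 = u ^ 3 * u := by group
    rw [this, hu3, one_mul]⟩
  -- first block
  let T1 : Finset (ℙ F V) := ({1, ω, ω ^ 2, -1, -ω, -ω ^ 2} : Finset F).image (P e)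
  let T2 : Finset (ℙ F V) := insert (Pinf e)
    (({0, 1, ω, (1 - ω)⁻¹, 1 - ω ^ 2} : Finset F).image (P e))
  have hPi : Function.Injective (P e) := fun x y h => (P_inj e x y).mp h
  -- inequalities
  have n1 : ω ≠ -1 := by
    intro h
    apply h20
    have := hω3
    rw [h] at this
    linear_combination -this
  have n2 : ω ^ 2 ≠ 1 := by
    intro h
    apply hω1
    linear_combination hω3 - ω * h
  have n3 : ω ^ 2 ≠ -1 := by
    intro h
    apply hω0
    linear_combination hω - h
  have n4 : ω ^ 2 ≠ ω := by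
    intro h
    have : ω * (ω - 1) = 0 := by linear_combination h
    exact hω1 (sub_eq_zero.mp ((mul_eq_zero.mp this).resolve_left hω0))
  have n5 : ω ^ 2 ≠ -ω := by
    intro h
    exact one_ne_zero (α := F) (by linear_combination hω - h)
  have n6 : (1 : F) ≠ -1 := by
    intro h
    apply h20
    linear_combination h
  have n7 : ω ≠ -ω := by
    intro h
    have : 2 * ω = 0 := by linear_combination h
    exact (mul_ne_zero h20 hω0) this
  have n8 : ω ^ 2 ≠ -ω ^ 2 := by
    intro h
    have : 2 * ω ^ 2 = 0 := by linear_combination h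
    exact (mul_ne_zero h20 (pow_ne_zero 2 hω0)) this
  have n9 : (1 - ω) ≠ 0 := sub_ne_zero.mpr (Ne.symm hω1)
  have hT1 : T1.card = 6 := by
    rw [Finset.card_image_of_injective _ hPi]
    rw [Finset.card_insert_of_notMem, Finset.card_insert_of_notMem, Finset.card_insert_of_notMem,
      Finset.card_insert_of_notMem, Finset.card_insert_of_notMem, Finset.card_singleton]
    · simp only [Finset.mem_singleton]
      intro h
      exact n4 (neg_injective h).symm
    · simp only [Finset.mem_insert, Finset.mem_singleton, neg_inj]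
      rintro (h | h)
      · exact hω1 h.symm
      · exact n2 h.symm
    · simp only [Finset.mem_insert, Finset.mem_singleton]
      rintro (h | h | h)
      · exact n3 h
      · exact n5 h
      · exact n8 h
    · simp only [Finset.mem_insert, Finset.mem_singleton]
      rintro (h | h | h | h)
      · exact n4 h.symm
      · exact n1 h
      · exact n7 h
      · exact n5 (by linear_combination h)
    · simp only [Finset.mem_insert, Finset.mem_singleton]
      rintro (h | h | h | h | h)
      · exact hω1 h.symm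
      · exact n2 h.symm
      · exact n6 h
      · exact n1 (by linear_combination h)
      · exact n3 (by linear_combination h)
  have r1 : (1 - ω)⁻¹ ≠ 0 := inv_ne_zero n9
  have r2 : (1 - ω)⁻¹ * (1 - ω) = 1 := inv_mul_cancel₀ n9
  have hS5 : ∀ x ∈ ({1, ω, (1 - ω)⁻¹, 1 - ω ^ 2} : Finset F), x ≠ 0 := by
    intro x hx
    simp only [Finset.mem_insert, Finset.mem_singleton] at hx
    rcases hx with rfl | rfl | rfl | rfl
    · exact one_ne_zero
    · exact hω0
    · exact r1
    · exact sub_ne_zero.mpr n2.symm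
  have hT2 : T2.card = 6 := by
    have hn : Pinf e ∉ (({0, 1, ω, (1 - ω)⁻¹, 1 - ω ^ 2} : Finset F).image (P e)) := by
      intro h
      obtain ⟨x, -, hx⟩ := Finset.mem_image.mp h
      exact P_ne_Pinf e x hx
    rw [Finset.card_insert_of_notMem hn, Finset.card_image_of_injective _ hPi]
    rw [Finset.card_insert_of_notMem (fun h => hS5 0 h rfl), Finset.card_insert_of_notMem,
      Finset.card_insert_of_notMem, Finset.card_insert_of_notMem, Finset.card_singleton]
    · simp only [Finset.mem_singleton]
      intro h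
      apply h20
      have : (1 - ω ^ 2) * (1 - ω) = 1 := by rw [← h]; exact r2
      linear_combination this + hω - hω3
    · simp only [Finset.mem_insert, Finset.mem_singleton]
      rintro (h | h)
      · apply n7
        have : ω * (1 - ω) = 1 := by
          nth_rewrite 1 [h]
          exact r2
        linear_combination this + hω
      · apply n6
        linear_combination hω - h
    · simp only [Finset.mem_insert, Finset.mem_singleton]
      rintro (h | h | h)
      · exact hω1 h.symm
      · apply hω0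
        have : 1 * (1 - ω) = 1 := by
          nth_rewrite 1 [h]
          exact r2
        linear_combination -this
      · exact pow_ne_zero 2 hω0 (by linear_combination h)
  obtain ⟨b1, ⟨hb1, hTb1⟩, -⟩ := hB.2 T1 hT1
  obtain ⟨b2, ⟨hb2, hTb2⟩, -⟩ := hB.2 T2 hT2
  have m1 : ∀ x : F, x ∈ ({1, ω, ω ^ 2, -1, -ω, -ω ^ 2} : Finset F) → P e x ∈ b1 := fun x hx =>
    hTb1 (Finset.mem_image_of_mem _ hx)
  have m2 : ∀ x : F, x ∈ ({0, 1, ω, (1 - ω)⁻¹, 1 - ω ^ 2} : Finset F) → P e x ∈ b2 := fun x hx =>
    hTb2 (Finset.mem_insert_of_mem (Finset.mem_image_of_mem _ hx))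
  have e1 : b1 \ T1 = {P e 0, Pinf e} := by
    refine block_eight hB (fun x => lft e (gm u) • x) (MulAction.injective _)
      (inv_of_sq hV B hI _ (by rw [det_lft, det_gm]; exact isSquare_val husq)) ?_ _ _ ?_ T1 b1 hT1
      hb1 hTb1 ?_
    · intro x
      rcases cases_P e x with rfl | ⟨y, rfl⟩
      · rw [gm_Pinf, gm_Pinf, gm_Pinf]
      · rw [gm_P, gm_P, gm_P, P_inj]
        linear_combination y * hω3
    · intro z hz
      change lft e (gm u) • z = z at hz
      rcases cases_P e z with rfl | ⟨y, rfl⟩
      · exact Or.inr rfl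
      · left
        rw [gm_P, P_inj] at hz
        have : (ω - 1) * y = 0 := by linear_combination hz
        rw [(mul_eq_zero.mp this).resolve_left (sub_ne_zero.mpr hω1)]
    · intro x hx
      obtain ⟨y, hy, rfl⟩ := Finset.mem_image.mp hx
      rw [gm_P]
      apply Finset.mem_image_of_mem
      change ω * y ∈ _
      simp only [Finset.mem_insert, Finset.mem_singleton] at hy ⊢
      rcases hy with rfl | rfl | rfl | rfl | rfl | rfl
      · right; left; ring
      · right; right; left; ring
      · left; linear_combination hω3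
      · right; right; right; right; left; ring
      · right; right; right; right; right; ring
      · right; right; right; left; linear_combination -hω3
  have e2 : b2 \ T2 = {P e (-ω), P e (-ω ^ 2)} := by
    refine block_eight hB (fun x => lft e (g3 F) • x) (MulAction.injective _)
      (inv_of_sq hV B hI _ (by rw [det_lft]; exact det_g3)) (g3_cube e) _ _ (g3_fix e ω hω) T2 b2
      hT2 hb2 hTb2 ?_
    intro x hx
    have m3 : ∀ x : F, x ∈ ({0, 1, ω, (1 - ω)⁻¹, 1 - ω ^ 2} : Finset F) → P e x ∈ T2 := fun x hx =>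
      (Finset.mem_insert_of_mem (Finset.mem_image_of_mem _ hx))
    rw [Finset.mem_insert] at hx
    rcases hx with rfl | hx
    · rw [g3_Pinf]
      exact m3 0 (by simp)
    · obtain ⟨y, hy, rfl⟩ := Finset.mem_image.mp hx
      simp only [Finset.mem_insert, Finset.mem_singleton] at hy
      rcases hy with rfl | rfl | rfl | rfl | rfl
      · rw [g3_P e 0 (by simp), sub_zero, inv_one]
        exact m3 1 (by simp)
      · rw [g3_one]
        exact Finset.mem_insert_self _ _
      · rw [g3_P e _ n9]
        exact m3 _ (by simp)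
      · have h1 : (1 - ω ^ 2) * (1 - (1 - ω)⁻¹) = 1 := by
          apply mul_right_cancel₀ n9
          linear_combination -(1 - ω ^ 2) * r2 + hω3
        have h2 : (1 - (1 - ω)⁻¹) ≠ 0 := right_ne_zero_of_mul_eq_one h1
        rw [g3_P e _ h2]
        have h3 : (1 - (1 - ω)⁻¹)⁻¹ = 1 - ω ^ 2 := inv_eq_of_mul_eq_one_left h1
        rw [h3]
        exact m3 _ (by simp)
      · have h1 : ω * (1 - (1 - ω ^ 2)) = 1 := by linear_combination hω3
        have h2 : (1 - (1 - ω ^ 2)) ≠ 0 := right_ne_zero_of_mul_eq_one h1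
        rw [g3_P e _ h2, inv_eq_of_mul_eq_one_left h1]
        exact m3 _ (by simp)
  -- the six common points
  let S : Finset (ℙ F V) := insert (Pinf e) (({0, 1, ω, -ω, -ω ^ 2} : Finset F).image (P e))
  have hS : S.card = 6 := by
    have hn : Pinf e ∉ (({0, 1, ω, -ω, -ω ^ 2} : Finset F).image (P e)) := by
      intro h
      obtain ⟨x, -, hx⟩ := Finset.mem_image.mp h
      exact P_ne_Pinf e x hx
    rw [Finset.card_insert_of_notMem hn, Finset.card_image_of_injective _ hPi]
    rw [Finset.card_insert_of_notMem, Finset.card_insert_of_notMem,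
      Finset.card_insert_of_notMem, Finset.card_insert_of_notMem, Finset.card_singleton]
    · simp only [Finset.mem_singleton]
      intro h
      exact n4 (neg_injective h).symm
    · simp only [Finset.mem_insert, Finset.mem_singleton]
      rintro (h | h)
      · exact n7 h
      · exact n5 (by linear_combination h)
    · simp only [Finset.mem_insert, Finset.mem_singleton]
      rintro (h | h | h)
      · exact hω1 h.symm
      · exact n1 (by linear_combination h)
      · exact n3 (by linear_combination h)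
    · simp only [Finset.mem_insert, Finset.mem_singleton]
      rintro (h | h | h | h)
      · exact zero_ne_one h
      · exact hω0 h.symm
      · exact hω0 (by linear_combination h)
      · exact pow_ne_zero 2 hω0 (by linear_combination h)
  have p0 : P e 0 ∈ b1 := (Finset.mem_sdiff.mp (show P e 0 ∈ b1 \ T1 by rw [e1]; simp)).1
  have pinf : Pinf e ∈ b1 := (Finset.mem_sdiff.mp (show Pinf e ∈ b1 \ T1 by rw [e1]; simp)).1
  have q1 : P e (-ω) ∈ b2 := (Finset.mem_sdiff.mp (show P e (-ω) ∈ b2 \ T2 by rw [e2]; simp)).1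
  have q2 : P e (-ω ^ 2) ∈ b2 :=
    (Finset.mem_sdiff.mp (show P e (-ω ^ 2) ∈ b2 \ T2 by rw [e2]; simp)).1
  have hS1 : S ⊆ b1 := by
    intro x hx
    rw [Finset.mem_insert] at hx
    rcases hx with rfl | hx
    · exact pinf
    · obtain ⟨y, hy, rfl⟩ := Finset.mem_image.mp hx
      simp only [Finset.mem_insert, Finset.mem_singleton] at hy
      rcases hy with rfl | rfl | rfl | rfl | rfl
      · exact p0
      · exact m1 _ (by simp)
      · exact m1 _ (by simp)
      · exact m1 _ (by simp)
      · exact m1 _ (by simp)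
  have hS2 : S ⊆ b2 := by
    intro x hx
    rw [Finset.mem_insert] at hx
    rcases hx with rfl | hx
    · exact hTb2 (Finset.mem_insert_self _ _)
    · obtain ⟨y, hy, rfl⟩ := Finset.mem_image.mp hx
      simp only [Finset.mem_insert, Finset.mem_singleton] at hy
      rcases hy with rfl | rfl | rfl | rfl | rfl
      · exact m2 _ (by simp)
      · exact m2 _ (by simp)
      · exact m2 _ (by simp)
      · exact q1
      · exact q2
  obtain ⟨b0, -, hu0⟩ := hB.2 S hS
  have hbb : b2 = b1 := by rw [hu0 b2 ⟨hb2, hS2⟩, hu0 b1 ⟨hb1, hS1⟩]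
  have hlast : P e (1 - ω ^ 2) ∈ b1 := by
    rw [← hbb]
    exact m2 _ (by simp)
  by_cases hin : P e (1 - ω ^ 2) ∈ T1
  · obtain ⟨y, hy, hyx⟩ := Finset.mem_image.mp hin
    rw [P_inj] at hyx
    simp only [Finset.mem_insert, Finset.mem_singleton] at hy
    rcases hy with rfl | rfl | rfl | rfl | rfl | rfl
    · exact absurd (by linear_combination hyx : ω ^ 2 = 0) (pow_ne_zero 2 hω0)
    · exact absurd (by linear_combination hω - hyx : (1 : F) = -1) n6
    · have h2 : ω = 2 := by linear_combination -ω * hyx + 2 * hω3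
      rw [h2] at hω3
      linear_combination hω3
    · linear_combination hω - (3 + ω ^ 2) * hyx + ω * hω3
    · exact absurd (by linear_combination hω + hyx : ω ^ 2 = -ω ^ 2) n8
    · exact absurd (by linear_combination -hyx : (1 : F) = 0) one_ne_zero
  · have : P e (1 - ω ^ 2) ∈ b1 \ T1 := Finset.mem_sdiff.mpr ⟨hlast, hin⟩
    rw [e1, Finset.mem_insert, Finset.mem_singleton] at this
    rcases this with h | h
    · rw [P_inj] at h
      exact absurd (by linear_combination -h : ω ^ 2 = 1) n2
    · exact absurd h (P_ne_Pinf e _)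

theorem dvd_of_seven [Fintype F] (h : (7 : F) = 0) : 7 ∣ Fintype.card F := by
  obtain ⟨p, hp⟩ := CharP.exists F
  have hp' : p.Prime := CharP.char_is_prime F p
  obtain ⟨n, -, hn⟩ := FiniteField.card F p
  have h7 : p ∣ 7 := by
    rw [← CharP.cast_eq_zero_iff F p]
    exact_mod_cast h
  have h7' : p = 7 := (Nat.prime_dvd_prime_iff_eq hp' (by norm_num)).mp h7
  rw [hn, h7']
  exact dvd_pow_self 7 n.ne_zero

end

end Pool.Agent.H838P
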