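import Pool.Agent.H838P.Torus

/-!
# Partitions of a cyclic group closed under half of the reflections
-/

set_option autoImplicit false

namespace Pool.Agent.H838P

variable {Q : Type*} [CommGroup Q] [DecidableEq Q] [Fintype Q]

theorem third (C : Subgroup Q) (A : Finset Q) (hA : 2 * Nat.card C < A.card) (u : Q) :
    ∃ w ∈ A, w ∉ C ∧ w * u ∉ C := by
  classical
  by_contra hcon
  push Not at hcon
  have hsub : A ⊆ (Finset.univ.filter (fun x => x ∈ C)) ∪
      (Finset.univ.filter (fun x => x ∈ C)).image (fun x => x * u⁻¹) := by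
    intro y hy
    rw [Finset.mem_union, Finset.mem_filter, Finset.mem_image]
    by_cases hyC : y ∈ C
    · exact Or.inl ⟨Finset.mem_univ _, hyC⟩
    · refine Or.inr ⟨y * u, ?_, by group⟩
      rw [Finset.mem_filter]
      exact ⟨Finset.mem_univ _, hcon y hy hyC⟩
  have h2 := Finset.card_le_card hsub
  have h3 := Finset.card_union_le (Finset.univ.filter (fun x => x ∈ C))
    ((Finset.univ.filter (fun x => x ∈ C)).image (fun x => x * u⁻¹))
  have h4 : ((Finset.univ.filter (fun x => x ∈ C)).image (fun x => x * u⁻¹)).card ≤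
    (Finset.univ.filter (fun x => x ∈ C)).card := Finset.card_image_le
  have h5 : (Finset.univ.filter (fun x => x ∈ C)).card = Nat.card C := by
    rw [Nat.card_eq_fintype_card, Fintype.card_subtype]
  omega

theorem dvd_card_of_inv (C : Subgroup Q) (A : Finset Q) (h : ∀ c ∈ C, ∀ x ∈ A, c * x ∈ A) :
    Nat.card C ∣ A.card := by
  classical
  have := card_fibre (X := Q ⧸ C) (QuotientGroup.mk : Q → Q ⧸ C) C
    (fun u v => QuotientGroup.eq) A (fun x hx n hn => by rw [mul_comm]; exact h n hn x hx)
  exact ⟨_, this⟩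

theorem core [IsCyclic Q] (C S : Subgroup Q) (hCS : C ≤ S)
    (hS : ∀ x, x ∉ S → ∀ y, y ∉ S → x * y ∈ S) (hne : ∃ a, a ∉ S)
    (L : Q → Finset Q) (κ : ℕ)
    (P1 : ∀ d, d ∉ C → ∀ c ∈ C, c ∈ L d) (P2 : ∀ d, d ∉ C → d ∈ L d)
    (P3 : ∀ d, d ∉ C → ∀ c ∈ C, ∀ x ∈ L d, c * x ∈ L d)
    (P4 : ∀ d, d ∉ C → ∀ e ∈ L d, e ∉ C → L e = L d)
    (P5 : ∀ d, d ∉ C → ∀ b ∈ L d, ∀ e ∈ L d, b⁻¹ * e ∉ C → b * e ∈ S → ∀ x ∈ L d,
      b * e * x⁻¹ ∈ L d)
    (P6 : ∀ d, d ∉ C → (L d).card = κ)
    (hκ : 2 * Nat.card C < κ) (h16 : Fintype.card Q ≠ 16 * Nat.card C) :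
    Fintype.card Q ≤ κ := by
  classical
  have hc0 : 0 < Nat.card C := Nat.card_pos
  set c := Nat.card C with hc
  have hSC : ∀ a, a ∉ S → a ∉ C := fun a ha h => ha (hCS h)
  have hSmul : ∀ s ∈ S, ∀ v, v ∉ S → s * v ∉ S := fun s hs v hv h => hv (by
    have := S.mul_mem (S.inv_mem hs) h
    rwa [inv_mul_cancel_left] at this)
  let U : Q → Finset Q := fun d => (L d).filter (fun x => x ∈ S)
  let V : Q → Finset Q := fun d => (L d).filter (fun x => ¬ x ∈ S)
  have memU : ∀ d x, x ∈ U d ↔ x ∈ L d ∧ x ∈ S := fun d x => Finset.mem_filter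
  have memV : ∀ d x, x ∈ V d ↔ x ∈ L d ∧ x ∉ S := fun d x => Finset.mem_filter
  have hUV : ∀ d, d ∉ C → (U d).card + (V d).card = κ := by
    intro d hd
    rw [← P6 d hd]
    exact Finset.card_filter_add_card_filter_not _
  have h1L : ∀ d, d ∉ C → (1 : Q) ∈ L d := fun d hd => P1 d hd 1 C.one_mem
  have hUC : ∀ d, d ∉ C → ∀ c' ∈ C, c' ∈ U d := fun d hd c' hc' =>
    (memU _ _).mpr ⟨P1 d hd c' hc', hCS hc'⟩
  have hUinv : ∀ d, d ∉ C → ∀ c' ∈ C, ∀ x ∈ U d, c' * x ∈ U d := fun d hd c' hc' x hx => by
    rw [memU] at hx ⊢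
    exact ⟨P3 d hd c' hc' x hx.1, S.mul_mem (hCS hc') hx.2⟩
  have hVinv : ∀ d, d ∉ C → ∀ c' ∈ C, ∀ x ∈ V d, c' * x ∈ V d := fun d hd c' hc' x hx => by
    rw [memV] at hx ⊢
    exact ⟨P3 d hd c' hc' x hx.1, hSmul c' (hCS hc') x hx.2⟩
  have hUdvd : ∀ d, d ∉ C → c ∣ (U d).card := fun d hd => dvd_card_of_inv C _ (hUinv d hd)
  have hVdvd : ∀ d, d ∉ C → c ∣ (V d).card := fun d hd => dvd_card_of_inv C _ (hVinv d hd)
  -- closedness of `U`
  have FU : ∀ d, d ∉ C → 2 * c < (U d).card → ∀ u ∈ U d, ∀ x ∈ U d, u * x ∈ U d := by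
    intro d hd hcd
    refine closed_of_swap C (U d) (hUC d hd) (hUinv d hd) ?_ hcd
    intro b hb e he hbe x hx
    rw [memU] at hb he hx ⊢
    exact ⟨P5 d hd b hb.1 e he.1 hbe (S.mul_mem hb.2 he.2) x hx.1,
      S.mul_mem (S.mul_mem hb.2 he.2) (S.inv_mem hx.2)⟩
  have FUL : ∀ d, d ∉ C → 2 * c < (U d).card → ∀ u ∈ U d, ∀ x ∈ L d, u * x ∈ L d := by
    intro d hd hcd u hu x hx
    obtain ⟨w, hw, hwC, hwu⟩ := third C (U d) hcd u
    have hwu' := FU d hd hcd w hw u hu
    have h1 := P5 d hd 1 (h1L d hd) w ((memU _ _).mp hw).1 (by simpa using hwC)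
      (by simpa using ((memU _ _).mp hw).2) x hx
    have h2 := P5 d hd 1 (h1L d hd) (w * u) ((memU _ _).mp hwu').1 (by simpa using hwu)
      (by simpa using ((memU _ _).mp hwu').2) _ h1
    have e : 1 * (w * u) * (1 * w * x⁻¹)⁻¹ = u * x := by
      rw [one_mul, one_mul, mul_inv, inv_inv, mul_comm w u, mul_assoc, ← mul_assoc w,
        mul_inv_cancel, one_mul]
    rwa [e] at h2
  have FU2 : ∀ d, d ∉ C → 2 * c < (U d).card → (V d).Nonempty → (U d).card ≤ (V d).card := by
    rintro d hd hcd ⟨v, hv⟩
    apply Finset.card_le_card_of_injOn (fun u => u * v)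
    · intro u hu
      have hu' : u ∈ U d := hu
      change u * v ∈ V d
      rw [memV] at hv ⊢
      exact ⟨FUL d hd hcd u hu' v hv.1, hSmul u ((memU _ _).mp hu').2 v hv.2⟩
    · intro x _ y _ hxy
      exact mul_right_cancel hxy
  have FV : ∀ d, d ∉ C → 2 * c < (V d).card → (V d).card ≤ (U d).card := by
    intro d hd hcd
    obtain ⟨v, hv⟩ : (V d).Nonempty := Finset.card_pos.mp (by omega)
    have hv' := (memV _ _).mp hv
    let V' : Finset Q := Finset.univ.filter (fun x => v * x ∈ V d)
    have memV' : ∀ x, x ∈ V' ↔ v * x ∈ V d := fun x => by simp [V']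
    have hV'S : ∀ x ∈ V', x ∈ S := by
      intro x hx
      rw [memV', memV] at hx
      by_contra hxS
      exact hx.2 (hS v hv'.2 x hxS)
    have hcard : V'.card = (V d).card := by
      apply Finset.card_bij (fun x _ => v * x)
      · intro x hx; exact (memV' x).mp hx
      · intro x _ y _ hxy; exact mul_left_cancel hxy
      · intro y hy
        refine ⟨v⁻¹ * y, ?_, by group⟩
        rw [memV']
        rwa [mul_inv_cancel_left]
    have hcl := closed_of_swap C V' (by
      intro c' hc'
      rw [memV', mul_comm]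
      exact hVinv d hd c' hc' v hv) (by
      intro c' hc' x hx
      rw [memV'] at hx ⊢
      rw [mul_left_comm]
      exact hVinv d hd c' hc' _ hx) (by
      intro b hb e he hbe x hx
      have hbS := hV'S b hb
      have heS := hV'S e he
      have hxS := hV'S x hx
      rw [memV'] at hb he hx ⊢
      rw [memV] at hb he hx ⊢
      have h1 := P5 d hd _ hb.1 _ he.1 (by
        have : (v * b)⁻¹ * (v * e) = b⁻¹ * e := by
          rw [mul_inv, mul_comm v⁻¹, mul_assoc, inv_mul_cancel_left]
        rwa [this]) (hS _ hb.2 _ he.2) _ hx.1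
      have e1 : v * b * (v * e) * (v * x)⁻¹ = v * (b * e * x⁻¹) := by
        rw [mul_inv]
        calc v * b * (v * e) * (v⁻¹ * x⁻¹) = (v * v⁻¹) * (v * (b * e * x⁻¹)) := by ac_rfl
          _ = v * (b * e * x⁻¹) := by rw [mul_inv_cancel, one_mul]
      rw [e1] at h1
      refine ⟨h1, ?_⟩
      rw [mul_comm]
      exact hSmul _ (S.mul_mem (S.mul_mem hbS heS) (S.inv_mem hxS)) v hv'.2) (by
      rw [hcard]; exact hcd)
    rw [← hcard]
    apply Finset.card_le_card
    intro u hu
    obtain ⟨w, hw, hwC, hwu⟩ := third C V' (by rw [hcard]; exact hcd) u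
    have hwu' := hcl w hw u hu
    have h3 := (memV _ _).mp ((memV' _).mp hw)
    have h4 := (memV _ _).mp ((memV' _).mp hwu')
    have h1 := P5 d hd v hv'.1 (v * w) h3.1 (by rwa [inv_mul_cancel_left])
      (hS v hv'.2 _ h3.2) 1 (h1L d hd)
    have h2 := P5 d hd v hv'.1 (v * (w * u)) h4.1 (by rwa [inv_mul_cancel_left])
      (hS v hv'.2 _ h4.2) _ h1
    have e : v * (v * (w * u)) * (v * (v * w) * 1⁻¹)⁻¹ = u := by
      rw [inv_one, mul_one]
      have e2 : v * (v * (w * u)) = u * (v * (v * w)) := by ac_rfl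
      rw [e2, mul_inv_cancel_right]
    rw [e] at h2
    exact (memU _ _).mpr ⟨h2, hV'S u hu⟩
  -- classes
  have hfilter : ∀ (A : Finset Q), (∀ x ∈ A, x ∉ C) → ∀ d ∈ A,
      (A.filter fun x => L x = L d) = A.filter fun x => x ∈ L d := by
    intro A hA d hd
    apply Finset.filter_congr
    intro x hx
    constructor
    · intro h; rw [← h]; exact P2 x (hA x hx)
    · intro h; exact P4 d (hA d hd) x h (hA x hx)
  have hcount : ∀ (A : Finset Q) (m : ℕ), (∀ x ∈ A, x ∉ C) →
      (∀ d ∈ A, (A.filter fun x => x ∈ L d).card = m) → A.card = (A.image L).card * m := by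
    intro A m hA hm
    rw [Finset.card_eq_sum_card_image L A]
    rw [Finset.sum_const_nat (m := m)]
    intro β hβ
    obtain ⟨d, hd, rfl⟩ := Finset.mem_image.mp hβ
    rw [hfilter A hA d hd]
    exact hm d hd
  let CF : Finset Q := Finset.univ.filter (fun x => x ∈ C)
  let SF : Finset Q := Finset.univ.filter (fun x => x ∈ S)
  let NF : Finset Q := Finset.univ.filter (fun x => ¬ x ∈ S)
  have hCF : CF.card = c := by
    rw [hc, Nat.card_eq_fintype_card, Fintype.card_subtype]
  have hQ : SF.card + NF.card = Fintype.card Q := by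
    rw [← Finset.card_univ]
    exact Finset.card_filter_add_card_filter_not _
  have hNS : NF.card = SF.card := by
    obtain ⟨a, ha⟩ := hne
    symm
    apply Finset.card_bij (fun x _ => x * a)
    · intro x hx
      have hx' : x ∈ S := (Finset.mem_filter.mp hx).2
      exact Finset.mem_filter.mpr ⟨Finset.mem_univ _, hSmul x hx' a ha⟩
    · intro x _ y _ hxy
      exact mul_right_cancel hxy
    · intro y hy
      have hy' : y ∉ S := (Finset.mem_filter.mp hy).2
      refine ⟨y * a⁻¹, Finset.mem_filter.mpr ⟨Finset.mem_univ _, hS y hy' _ ?_⟩, by group⟩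
      exact fun h => ha (by simpa using S.inv_mem h)
  obtain ⟨j, hj⟩ : c ∣ SF.card := dvd_card_of_inv C SF (by
    intro c' hc' x hx
    have hx' : x ∈ S := (Finset.mem_filter.mp hx).2
    exact Finset.mem_filter.mpr ⟨Finset.mem_univ _, S.mul_mem (hCS hc') hx'⟩)
  have hdiffC : ∀ A : Finset Q, (∀ x ∈ C, x ∈ A) → (A.filter (fun x => ¬ x ∈ C)).card + c = A.card := by
    intro A hA
    have h1 := Finset.card_filter_add_card_filter_not (s := A) (fun x => x ∈ C)
    have h2 : A.filter (fun x => x ∈ C) = CF := by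
      ext x
      simp only [CF, Finset.mem_filter, Finset.mem_univ, true_and]
      exact ⟨fun h => h.2, fun h => ⟨hA x h, h⟩⟩
    rw [h2, hCF] at h1
    omega
  have h3c : κ ≠ 3 * c := by
    intro h3
    let A : Finset Q := Finset.univ.filter (fun x => ¬ x ∈ C)
    have hA : ∀ x ∈ A, x ∉ C := fun x hx => (Finset.mem_filter.mp hx).2
    have h1 := hcount A (2 * c) hA (by
      intro d hd
      have h2 := hdiffC (L d) (P1 d (hA d hd))
      rw [P6 d (hA d hd)] at h2
      have h4 : (A.filter fun x => x ∈ L d) = (L d).filter (fun x => ¬ x ∈ C) := by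
        ext x
        simp only [A, Finset.mem_filter, Finset.mem_univ, true_and]
        exact and_comm
      rw [h4]
      omega)
    have h2 := hdiffC Finset.univ (fun x _ => Finset.mem_univ _)
    rw [Finset.card_univ, ← hQ, hNS, hj] at h2
    have h5 : A.card = (Finset.univ.filter (fun x : Q => ¬ x ∈ C)).card := rfl
    rw [← h5, h1] at h2
    have h6 : c * (2 * (A.image L).card + 1) = c * (2 * j) := by
      calc c * (2 * (A.image L).card + 1) = (A.image L).card * (2 * c) + c := by ring
        _ = c * j + c * j := h2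
        _ = c * (2 * j) := by ring
    have h7 := Nat.eq_of_mul_eq_mul_left hc0 h6
    omega
  by_contra hlt
  push Not at hlt
  -- a generator of `S`
  obtain ⟨⟨s, hs⟩, hgen⟩ := IsCyclic.exists_generator (α := S)
  have hpow : ∀ x ∈ S, ∃ i : ℕ, s ^ i = x := by
    intro x hx
    obtain ⟨i, hi⟩ := (mem_powers_iff_mem_zpowers (x := (⟨s, hs⟩ : S)) (y := ⟨x, hx⟩)).mpr
      (hgen ⟨x, hx⟩)
    exact ⟨i, congrArg Subtype.val hi⟩
  have hsC : s ∉ C := by
    intro hsC
    have h1 : SF ⊆ CF := by
      intro x hx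
      have hx' : x ∈ S := (Finset.mem_filter.mp hx).2
      obtain ⟨i, rfl⟩ := hpow x hx'
      exact Finset.mem_filter.mpr ⟨Finset.mem_univ _, C.pow_mem hsC i⟩
    have h2 := Finset.card_le_card h1
    omega
  have hUVs := hUV s hsC
  by_cases hA : 2 * c < (U s).card
  · -- `S` is contained in the class of `s`
    have hcl := FU s hsC hA
    have hsU : s ∈ U s := (memU _ _).mpr ⟨P2 s hsC, hs⟩
    have hSU : SF ⊆ U s := by
      intro x hx
      have hx' : x ∈ S := (Finset.mem_filter.mp hx).2
      obtain ⟨i, rfl⟩ := hpow x hx'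
      have : ∀ i : ℕ, s ^ i ∈ U s := by
        intro i
        induction i with
        | zero => rw [pow_zero]; exact hUC s hsC 1 C.one_mem
        | succ i ih => rw [pow_succ']; exact hcl s hsU _ ih
      exact this i
    have h1 := Finset.card_le_card hSU
    have hV0 : ¬ (V s).Nonempty := by
      intro hV
      have h2 := FU2 s hsC hA hV
      omega
    rw [Finset.not_nonempty_iff_eq_empty] at hV0
    have hV0' : (V s).card = 0 := by rw [hV0, Finset.card_empty]
    have hUS : (U s).card ≤ SF.card := by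
      apply Finset.card_le_card
      intro x hx
      exact Finset.mem_filter.mpr ⟨Finset.mem_univ _, ((memU _ _).mp hx).2⟩
    -- the class of a nonsquare
    obtain ⟨v, hv⟩ := hne
    have hvC := hSC v hv
    have hUVv := hUV v hvC
    have hUv : (U v).card ≤ c := by
      have h2 : U v ⊆ CF := by
        intro x hx
        by_contra hxC
        have hxC' : x ∉ C := fun h => hxC (Finset.mem_filter.mpr ⟨Finset.mem_univ _, h⟩)
        have hx' := (memU _ _).mp hx
        have h3 := P4 v hvC x hx'.1 hxC'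
        have h4 := P4 s hsC x ((memU _ _).mp (hSU
          (Finset.mem_filter.mpr ⟨Finset.mem_univ _, hx'.2⟩))).1 hxC'
        have h5 : v ∈ V s := (memV _ _).mpr ⟨by rw [← h4, h3]; exact P2 v hvC, hv⟩
        rw [hV0] at h5
        exact absurd h5 (Finset.notMem_empty _)
      have := Finset.card_le_card h2
      omega
    have hVv : (V v).card ≤ 2 * c := by
      by_contra hcon
      have := FV v hvC (by omega)
      omega
    obtain ⟨i, hi⟩ := hUdvd s hsC
    have h6 : κ = c * i := by omega
    have h7 : c * i ≤ c * 3 := by omega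
    have h8 : i ≤ 3 := Nat.le_of_mul_le_mul_left h7 hc0
    have h9 : c * 2 < c * i := by omega
    have h10 : 2 < i := Nat.lt_of_mul_lt_mul_left h9
    have h11 : i = 3 := by omega
    rw [h11] at h6
    omega
  · have hVs : (V s).card ≤ 2 * c := by
      by_contra hcon
      have := FV s hsC (by omega)
      omega
    -- the size is four cosets
    have h4c : κ = 4 * c := by
      obtain ⟨i, hi⟩ := hUdvd s hsC
      obtain ⟨i', hi'⟩ := hVdvd s hsC
      have h6 : κ = c * (i + i') := by rw [mul_add]; omega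
      have h7 : c * (i + i') ≤ c * 4 := by omega
      have h8 : i + i' ≤ 4 := Nat.le_of_mul_le_mul_left h7 hc0
      have h9 : c * 2 < c * (i + i') := by omega
      have h10 : 2 < i + i' := Nat.lt_of_mul_lt_mul_left h9
      have h11 : i + i' ≠ 3 := by
        intro h
        rw [h] at h6
        omega
      have h12 : i + i' = 4 := by omega
      rw [h12] at h6
      omega
    -- types of classes
    have htype : ∀ d, d ∉ C → (V d).Nonempty → (U d).card = 2 * c ∧ (V d).card = 2 * c := by
      intro d hd hV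
      have h1 := hUV d hd
      have h2 : ¬ 2 * c < (U d).card := by
        intro h
        have := FU2 d hd h hV
        omega
      have h3 : ¬ 2 * c < (V d).card := by
        intro h
        have := FV d hd h
        omega
      omega
    let A2 : Finset Q := Finset.univ.filter (fun x => x ∈ S ∧ x ∉ C ∧ (V x).Nonempty)
    let A3 : Finset Q := Finset.univ.filter (fun x => x ∈ S ∧ x ∉ C ∧ ¬ (V x).Nonempty)
    have memNF : ∀ x, x ∈ NF ↔ x ∉ S := fun x => by simp [NF]
    have memA2 : ∀ x, x ∈ A2 ↔ x ∈ S ∧ x ∉ C ∧ (V x).Nonempty := fun x => by simp [A2]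
    have memA3 : ∀ x, x ∈ A3 ↔ x ∈ S ∧ x ∉ C ∧ ¬ (V x).Nonempty := fun x => by simp [A3]
    have hVL : ∀ x y, L x = L y → V x = V y := fun x y h => by
      change (L x).filter _ = (L y).filter _
      rw [h]
    have hc1 := hcount NF (2 * c) (fun x hx => hSC x ((memNF x).mp hx)) (by
      intro d hd
      have hd' := (memNF d).mp hd
      have h1 : (NF.filter fun x => x ∈ L d) = V d := by
        ext x
        rw [Finset.mem_filter, memNF, memV]
        exact and_comm
      rw [h1]
      exact (htype d (hSC d hd') ⟨d, (memV _ _).mpr ⟨P2 d (hSC d hd'), hd'⟩⟩).2)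
    have hc2 := hcount A2 c (fun x hx => ((memA2 x).mp hx).2.1) (by
      intro d hd
      have hd' := (memA2 d).mp hd
      have h1 : (A2.filter fun x => x ∈ L d) = (U d).filter (fun x => ¬ x ∈ C) := by
        ext x
        rw [Finset.mem_filter, memA2, Finset.mem_filter, memU]
        constructor
        · rintro ⟨⟨h1, h2, -⟩, h3⟩
          exact ⟨⟨h3, h1⟩, h2⟩
        · rintro ⟨⟨h3, h1⟩, h2⟩
          refine ⟨⟨h1, h2, ?_⟩, h3⟩
          rw [hVL x d (P4 d hd'.2.1 x h3 h2)]
          exact hd'.2.2
      have h2 := hdiffC (U d) (hUC d hd'.2.1)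
      rw [(htype d hd'.2.1 hd'.2.2).1] at h2
      rw [h1]
      omega)
    have himg : NF.image L = A2.image L := by
      ext β
      rw [Finset.mem_image, Finset.mem_image]
      constructor
      · rintro ⟨d, hd, rfl⟩
        have hd' := (memNF d).mp hd
        have hVd : (V d).Nonempty := ⟨d, (memV _ _).mpr ⟨P2 d (hSC d hd'), hd'⟩⟩
        have h2 := hdiffC (U d) (hUC d (hSC d hd'))
        rw [(htype d (hSC d hd') hVd).1] at h2
        obtain ⟨x, hx⟩ : ((U d).filter (fun x => ¬ x ∈ C)).Nonempty := by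
          apply Finset.card_pos.mp
          omega
        rw [Finset.mem_filter, memU] at hx
        have h3 := P4 d (hSC d hd') x hx.1.1 hx.2
        refine ⟨x, (memA2 x).mpr ⟨hx.1.2, hx.2, ?_⟩, h3⟩
        rw [hVL x d h3]
        exact hVd
      · rintro ⟨x, hx, rfl⟩
        obtain ⟨h1, h2, v, hv⟩ := (memA2 x).mp hx
        have hv' := (memV _ _).mp hv
        exact ⟨v, (memNF v).mpr hv'.2, P4 x h2 v hv'.1 (hSC v hv'.2)⟩
    rw [himg] at hc1
    have hA3 : A3.card = 0 ∨ A3.card = 3 * c := by
      by_cases h : A3.Nonempty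
      · right
        obtain ⟨d, hd⟩ := h
        have hd' := (memA3 d).mp hd
        have hfull : ∀ x, x ∈ A3 → ∀ y ∈ L x, y ^ (4 * c) = 1 ∧ y ∈ S := by
          intro x hx y hy
          have hx' := (memA3 x).mp hx
          have hLU : L x = U x := by
            ext w
            rw [memU]
            constructor
            · intro hw
              refine ⟨hw, ?_⟩
              by_contra hwS
              exact hx'.2.2 ⟨w, (memV _ _).mpr ⟨hw, hwS⟩⟩
            · exact fun h => h.1
          have hcardU : (U x).card = 4 * c := by rw [← hLU, P6 x hx'.2.1, h4c]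
          have h1 := pow_card_of_closed (U x) (FU x hx'.2.1 (by omega)) y (by rwa [← hLU])
          rw [hcardU] at h1
          refine ⟨h1, ?_⟩
          rw [hLU] at hy
          exact ((memU _ _).mp hy).2
        have hEq : ∀ x, x ∈ A3 → L x = Finset.univ.filter (fun y : Q => y ^ (4 * c) = 1) := by
          intro x hx
          apply Finset.eq_of_subset_of_card_le
          · intro y hy
            exact Finset.mem_filter.mpr ⟨Finset.mem_univ _, (hfull x hx y hy).1⟩
          · rw [P6 x ((memA3 x).mp hx).2.1, h4c]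
            exact IsCyclic.card_pow_eq_one_le (by omega)
        have h1 : A3 = (L d).filter (fun x => ¬ x ∈ C) := by
          ext x
          constructor
          · intro hx
            refine Finset.mem_filter.mpr ⟨?_, ((memA3 x).mp hx).2.1⟩
            rw [hEq d hd, ← hEq x hx]
            exact P2 x ((memA3 x).mp hx).2.1
          · intro h
            obtain ⟨h1, h2⟩ := Finset.mem_filter.mp h
            refine (memA3 x).mpr ⟨(hfull d hd x h1).2, h2, ?_⟩
            rw [hVL x d (P4 d hd'.2.1 x h1 h2)]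
            exact hd'.2.2
        have h2 := hdiffC (L d) (P1 d hd'.2.1)
        rw [P6 d hd'.2.1] at h2
        rw [h1]
        omega
      · left
        rw [Finset.not_nonempty_iff_eq_empty] at h
        rw [h, Finset.card_empty]
    have hSsum : SF.card = c + A2.card + A3.card := by
      have h1 := hdiffC SF (fun x hx => Finset.mem_filter.mpr ⟨Finset.mem_univ _, hCS hx⟩)
      have h2 := Finset.card_filter_add_card_filter_not (s := SF.filter (fun x => ¬ x ∈ C))
        (fun x => (V x).Nonempty)
      have h3 : (SF.filter (fun x => ¬ x ∈ C)).filter (fun x => (V x).Nonempty) = A2 := by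
        ext x
        rw [memA2]
        simp only [SF, Finset.mem_filter, Finset.mem_univ, true_and, and_assoc]
      have h4 : (SF.filter (fun x => ¬ x ∈ C)).filter (fun x => ¬ (V x).Nonempty) = A3 := by
        ext x
        rw [memA3]
        simp only [SF, Finset.mem_filter, Finset.mem_univ, true_and, and_assoc]
      rw [h3, h4] at h2
      omega
    set p := (A2.image L).card with hp
    have h1 : SF.card = p * (2 * c) := by rw [← hNS]; exact hc1
    have h2 : p * (2 * c) = 2 * (p * c) := by ring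
    rcases hA3 with h3 | h3
    · have h4 : p * c = c := by omega
      omega
    · have h4 : p * c = 4 * c := by omega
      apply h16
      omega

end Pool.Agent.H838P
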