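import Pool.Agent.H838P.Torus

/-!
# The two tori of `PGL(2,q)`
-/

set_option autoImplicit false

open scoped LinearAlgebra.Projectivization

namespace Pool.Agent.H838P

section

variable {F V W : Type} [Field F] [AddCommGroup V] [Module F V] [AddCommGroup W] [Module F W]

/-- a point -/
def pt (e : W ≃ₗ[F] V) (w : W) (hw : w ≠ 0) : ℙ F V :=
  Projectivization.mk F (e w) (e.map_ne_zero_iff.mpr hw)

/-- conjugation -/
def lft (e : W ≃ₗ[F] V) (g : W ≃ₗ[F] W) : V ≃ₗ[F] V := (e.symm.trans g).trans e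

theorem lft_pt (e : W ≃ₗ[F] V) (g : W ≃ₗ[F] W) (w : W) (hw : w ≠ 0) :
    lft e g • pt e w hw = pt e (g w) (g.map_ne_zero_iff.mpr hw) := by
  unfold pt
  rw [Projectivization.smul_mk]
  congr 1
  change (lft e g) (e w) = e (g w)
  unfold lft
  simp

theorem pt_eq_iff (e : W ≃ₗ[F] V) (w w' : W) (hw : w ≠ 0) (hw' : w' ≠ 0) :
    pt e w hw = pt e w' hw' ↔ ∃ a : F, a • w' = w := by
  unfold pt
  rw [Projectivization.mk_eq_mk_iff']
  constructor
  · rintro ⟨a, ha⟩
    refine ⟨a, e.injective ?_⟩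
    rw [map_smul, ha]
  · rintro ⟨a, ha⟩
    exact ⟨a, by rw [← map_smul, ha]⟩

theorem exists_pt (e : W ≃ₗ[F] V) (x : ℙ F V) : ∃ w, ∃ hw : w ≠ 0, pt e w hw = x := by
  induction x using Projectivization.ind with
  | h v hv =>
    refine ⟨e.symm v, e.symm.map_ne_zero_iff.mpr hv, ?_⟩
    unfold pt
    congr 1
    simp

end

section

variable {F V : Type} [Field F] [Fintype F] [AddCommGroup V] [Module F V]

/-- invariance under all linear automorphisms -/
def Inv [DecidableEq (ℙ F V)] (B : Finset (Finset (ℙ F V))) : Prop :=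
  ∀ g : V ≃ₗ[F] V, ∀ b ∈ B, b.image (fun x => g • x) ∈ B

theorem nonsplit [DecidableEq (ℙ F V)] (hV : Module.finrank F V = 2) (k c : ℕ)
    (hc : c ∣ Fintype.card F + 1) (hk : 2 * c < k) (B : Finset (Finset (ℙ F V)))
    (hB : IsSteiner k (2 * c) B) (hI : Inv B) : Fintype.card F + 1 ≤ k := by
  classical
  obtain ⟨p, hp⟩ := CharP.exists F
  have : Fact p.Prime := ⟨CharP.char_is_prime F p⟩
  let K := FiniteField.Extension F p 2
  have : Fintype K := Fintype.ofFinite K
  have hK : Module.finrank F K = 2 := FiniteField.finrank_extension F p 2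
  have : Module.Finite F V := Module.finite_of_finrank_pos (by rw [hV]; norm_num)
  let e : K ≃ₗ[F] V := LinearEquiv.ofFinrankEq K V (by rw [hK, hV])
  set q := Fintype.card F with hq
  have hq2 : 2 ≤ q := Fintype.one_lt_card
  have hKcard : Fintype.card K = q ^ 2 := by
    rw [Module.card_eq_pow_finrank (K := F) (V := K), hK]
  have hKu : Fintype.card Kˣ = (q + 1) * (q - 1) := by
    rw [Fintype.card_units, hKcard, ← Nat.sq_sub_sq]
  have hKuN : Nat.card Kˣ = (q + 1) * (q - 1) := by rw [Nat.card_eq_fintype_card, hKu]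
  have hc0 : 0 < c := Nat.pos_of_dvd_of_pos hc (by omega)
  by_contra hlt
  let N : Subgroup Kˣ := (powMonoidHom (q - 1) : Kˣ →* Kˣ).ker
  let C : Subgroup Kˣ := (powMonoidHom (c * (q - 1)) : Kˣ →* Kˣ).ker
  have hN : Nat.card N = q - 1 := by
    rw [IsCyclic.card_powMonoidHom_ker, hKuN]
    exact Nat.gcd_eq_right (Dvd.intro_left _ rfl)
  have hC : Nat.card C = c * (q - 1) := by
    rw [IsCyclic.card_powMonoidHom_ker, hKuN]
    exact Nat.gcd_eq_right (Nat.mul_dvd_mul_right hc _)
  have memN : ∀ x : Kˣ, x ∈ N ↔ x ^ (q - 1) = 1 := fun x => by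
    rw [MonoidHom.mem_ker]; rfl
  have memC : ∀ x : Kˣ, x ∈ C ↔ x ^ (c * (q - 1)) = 1 := fun x => by
    rw [MonoidHom.mem_ker]; rfl
  have hNC : N ≤ C := by
    intro x hx
    rw [memN] at hx
    rw [memC, mul_comm, pow_mul, hx, one_pow]
  -- the elements of `N` are the elements of `F`
  have hrange : (Units.map (algebraMap F K : F →* K)).range = N := by
    apply Subgroup.eq_of_le_of_card_ge
    · rintro _ ⟨a, rfl⟩
      rw [memN, ← map_pow]
      have : a ^ (q - 1) = 1 := by
        rw [← Fintype.card_units]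
        exact pow_card_eq_one
      rw [this, map_one]
    · rw [hN]
      have hinj : Function.Injective (Units.map (algebraMap F K : F →* K)) :=
        Units.map_injective (algebraMap F K).injective
      rw [← Nat.card_congr (MonoidHom.ofInjective hinj).toEquiv, Nat.card_eq_fintype_card,
        Fintype.card_units]
  have hne : ∀ u : Kˣ, (u : K) ≠ 0 := fun u => u.ne_zero
  let π : Kˣ → ℙ F V := fun u => pt e (u : K) (hne u)
  have hπ : ∀ u v : Kˣ, π u = π v ↔ u⁻¹ * v ∈ N := by
    intro u v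
    change pt e (u : K) (hne u) = pt e (v : K) (hne v) ↔ _
    rw [pt_eq_iff, ← hrange]
    constructor
    · rintro ⟨a, ha⟩
      have ha0 : a ≠ 0 := by
        rintro rfl
        rw [zero_smul] at ha
        exact hne u ha.symm
      refine ⟨(Units.mk0 a ha0)⁻¹, ?_⟩
      rw [map_inv, inv_eq_iff_eq_inv, mul_inv, inv_inv]
      ext
      rw [Units.coe_map, Units.val_mul, Units.val_inv_eq_inv_val, ← ha]
      simp only [MonoidHom.coe_coe, Units.val_mk0, Algebra.smul_def]
      rw [mul_assoc, mul_inv_cancel₀ (hne v), mul_one]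
    · rintro ⟨a, ha⟩
      refine ⟨((a⁻¹ : Fˣ) : F), ?_⟩
      have h1 : v = u * Units.map (algebraMap F K : F →* K) a := by rw [ha]; group
      rw [h1, Algebra.smul_def, Units.val_mul, Units.coe_map]
      simp only [MonoidHom.coe_coe, Units.val_inv_eq_inv_val, map_inv₀]
      have h2 : algebraMap F K (a : F) ≠ 0 := by
        rw [Ne, map_eq_zero]; exact a.ne_zero
      rw [mul_comm (u : K), ← mul_assoc, inv_mul_cancel₀ h2, one_mul]
  let gμ : Kˣ → (K ≃ₗ[F] K) := fun u => DistribMulAction.toLinearEquiv F K u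
  have hgμ : ∀ (u : Kˣ) (x : K), gμ u x = u * x := fun u x => rfl
  let gφ : Kˣ → (K ≃ₗ[F] K) := fun u => (FiniteField.Extension.frob F p 2).toLinearEquiv.trans (gμ u)
  have hgφ : ∀ (u : Kˣ) (x : K), gφ u x = u * x ^ q := by
    intro u x
    change gμ u ((FiniteField.Extension.frob F p 2) x) = _
    rw [hgμ, FiniteField.Extension.frob_apply, Nat.card_eq_fintype_card]
  have key := torus (X := ℙ F V) (Q := Kˣ) (k := k) (t := 2 * c) (c := c) (B := B) hB π N C hNC hπ
    ∅ ∅ (Finset.empty_subset _) (fun u => Finset.notMem_empty _) (by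
      intro x
      right
      obtain ⟨w, hw, rfl⟩ := exists_pt e x
      exact ⟨Units.mk0 w hw, rfl⟩) (by rw [hC, hN]) (by simp)
    (fun u x => lft e (gμ u) • x) (fun u x => lft e (gφ u) • x)
    (fun u => MulAction.injective _) (fun u => MulAction.injective _)
    (fun u => hI _) (fun u => hI _) (by
      intro u x
      change lft e (gμ u) • pt e (x : K) (hne x) = pt e ((u * x : Kˣ) : K) (hne _)
      rw [lft_pt]
      congr 1) (by
      intro u x
      change lft e (gφ u) • pt e (x : K) (hne x) = _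
      rw [lft_pt]
      have h1 : pt e (gφ u (x : K)) ((gφ u).map_ne_zero_iff.mpr (hne x)) = π (u * x ^ q) := by
        change _ = pt e ((u * x ^ q : Kˣ) : K) (hne _)
        congr 1
        rw [hgφ]
        simp
      rw [h1, hπ, memN]
      have h2 : (u * x ^ q)⁻¹ * (u * x⁻¹) = (x ^ (q + 1))⁻¹ := by
        rw [mul_inv, mul_comm u⁻¹, mul_assoc, ← mul_assoc u⁻¹, inv_mul_cancel, one_mul, pow_succ,
          mul_inv]
      rw [h2, inv_pow, ← pow_mul, ← hKu, pow_card_eq_one, inv_one])
    (by simp) (by simp) 0 (by simp) (by simpa using hk) (by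
      by_contra hcon
      push Not at hcon
      have h1 : C = ⊤ := by
        rw [eq_top_iff]; intro x _; exact hcon x
      have h2 : Nat.card C = (q + 1) * (q - 1) := by
        rw [h1, Subgroup.card_top, hKuN]
      rw [hC] at h2
      have h3 : c = q + 1 := Nat.eq_of_mul_eq_mul_right (by omega) h2
      omega)
  rw [hKu, hN, Nat.sub_zero] at key
  have h3 : (q - 1) * (q + 1) ≤ (q - 1) * k := by rw [mul_comm]; exact key
  exact hlt (Nat.le_of_mul_le_mul_left h3 (by omega))

/-- the linear map `(x, y) ↦ (u x, y)` -/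
def gm (u : Fˣ) : (F × F) ≃ₗ[F] (F × F) :=
  LinearEquiv.prodCongr (DistribMulAction.toLinearEquiv F F u) (LinearEquiv.refl F F)

omit [Fintype F] in
theorem gm_apply (u : Fˣ) (x y : F) : gm u (x, y) = (u * x, y) := rfl

/-- the linear map `(x, y) ↦ (u y, x)` -/
def gp (u : Fˣ) : (F × F) ≃ₗ[F] (F × F) := (LinearEquiv.prodComm F F F).trans (gm u)

omit [Fintype F] in
theorem gp_apply (u : Fˣ) (x y : F) : gp u (x, y) = (u * y, x) := rfl

/-- the point `x` of the projective line -/
def P (e : (F × F) ≃ₗ[F] V) (x : F) : ℙ F V := pt e (x, 1) (by simp)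

/-- the point at infinity -/
def Pinf (e : (F × F) ≃ₗ[F] V) : ℙ F V := pt e (1, 0) (by simp)

omit [Fintype F] in
theorem P_inj (e : (F × F) ≃ₗ[F] V) (x y : F) : P e x = P e y ↔ x = y := by
  unfold P
  rw [pt_eq_iff]
  constructor
  · rintro ⟨a, ha⟩
    rw [Prod.smul_mk, Prod.mk.injEq, smul_eq_mul, smul_eq_mul, mul_one] at ha
    rw [← ha.1, ha.2, one_mul]
  · rintro rfl
    exact ⟨1, one_smul _ _⟩

omit [Fintype F] in
theorem P_ne_Pinf (e : (F × F) ≃ₗ[F] V) (x : F) : P e x ≠ Pinf e := by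
  unfold P Pinf
  intro h
  rw [pt_eq_iff] at h
  obtain ⟨a, ha⟩ := h
  rw [Prod.smul_mk, Prod.mk.injEq, smul_eq_mul, smul_eq_mul, mul_zero] at ha
  exact zero_ne_one ha.2

omit [Fintype F] in
theorem cases_P (e : (F × F) ≃ₗ[F] V) (x : ℙ F V) : x = Pinf e ∨ ∃ y, x = P e y := by
  obtain ⟨⟨w1, w2⟩, hw, rfl⟩ := exists_pt e x
  by_cases h2 : w2 = 0
  · left
    subst h2
    unfold Pinf
    rw [pt_eq_iff]
    exact ⟨w1, by simp⟩
  · right
    refine ⟨w1 / w2, ?_⟩
    unfold P
    rw [pt_eq_iff]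
    refine ⟨w2, ?_⟩
    rw [Prod.smul_mk, smul_eq_mul, smul_eq_mul, mul_one, mul_div_cancel₀ _ h2]

omit [Fintype F] in
theorem gm_P (e : (F × F) ≃ₗ[F] V) (u : Fˣ) (x : F) : lft e (gm u) • P e x = P e (u * x) := by
  unfold P
  rw [lft_pt]
  rfl

omit [Fintype F] in
theorem gm_Pinf (e : (F × F) ≃ₗ[F] V) (u : Fˣ) : lft e (gm u) • Pinf e = Pinf e := by
  unfold Pinf
  rw [lft_pt, pt_eq_iff]
  exact ⟨u, by rw [gm_apply]; simp⟩

omit [Fintype F] in
theorem gp_P (e : (F × F) ≃ₗ[F] V) (u : Fˣ) (x : F) (hx : x ≠ 0) :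
    lft e (gp u) • P e x = P e (u * x⁻¹) := by
  unfold P
  rw [lft_pt, pt_eq_iff]
  refine ⟨x, ?_⟩
  rw [gp_apply, Prod.smul_mk, smul_eq_mul, smul_eq_mul, mul_one, mul_one]
  congr 1
  field_simp

omit [Fintype F] in
theorem gp_zero (e : (F × F) ≃ₗ[F] V) (u : Fˣ) : lft e (gp u) • P e 0 = Pinf e := by
  unfold P Pinf
  rw [lft_pt, pt_eq_iff]
  exact ⟨u, by rw [gp_apply]; simp⟩

omit [Fintype F] in
theorem gp_Pinf (e : (F × F) ≃ₗ[F] V) (u : Fˣ) : lft e (gp u) • Pinf e = P e 0 := by
  unfold P Pinf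
  rw [lft_pt, pt_eq_iff]
  exact ⟨1, by rw [gp_apply]; simp⟩

/-- the general split case: `Z0` is empty or consists of the two fixed points -/
theorem split_gen [DecidableEq F] [DecidableEq (ℙ F V)] (e : (F × F) ≃ₗ[F] V) (k t c z : ℕ)
    (C : Subgroup Fˣ) (hC : Nat.card C = c) (B : Finset (Finset (ℙ F V)))
    (hB : IsSteiner k t B) (hI : Inv B) (Z0 : Finset (ℙ F V)) (hZ0 : Z0 = ∅ ∨ Z0 = {P e 0, Pinf e})
    (ht : t = 2 * c + Z0.card)
    (hz : ∀ b ∈ B, ∀ a : Fˣ, a ∉ C → Z0 ∪ (two C 1 a).image (fun u : Fˣ => P e (u : F)) ⊆ b →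
      (b ∩ {P e 0, Pinf e}).card = z) (hk : 2 * c + z < k) (hne : ∃ a : Fˣ, a ∉ C) :
    Fintype.card F - 1 ≤ k - z := by
  classical
  have hP0 : ∀ u : Fˣ, P e (u : F) ∉ ({P e 0, Pinf e} : Finset (ℙ F V)) := by
    intro u h
    rw [Finset.mem_insert, Finset.mem_singleton] at h
    rcases h with h | h
    · rw [P_inj] at h; exact u.ne_zero h
    · exact P_ne_Pinf e _ h
  have key := torus (X := ℙ F V) (Q := Fˣ) (k := k) (t := t) (c := c) (B := B) hB
    (fun u : Fˣ => P e (u : F)) ⊥ C bot_le (by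
      intro u v
      rw [P_inj, Subgroup.mem_bot, inv_mul_eq_one]
      exact ⟨fun h => Units.ext h, fun h => by rw [h]⟩)
    {P e 0, Pinf e} Z0 (by
      rcases hZ0 with h | h
      · rw [h]; exact Finset.empty_subset _
      · rw [h]) hP0 (by
      intro x
      rcases cases_P e x with h | ⟨y, h⟩
      · left; rw [h]; simp
      · by_cases hy : y = 0
        · left; rw [h, hy]; simp
        · right; exact ⟨Units.mk0 y hy, h.symm⟩) (by rw [hC, Subgroup.card_bot, mul_one]) ht
    (fun u x => lft e (gm u) • x) (fun u x => lft e (gp u) • x)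
    (fun u => MulAction.injective _) (fun u => MulAction.injective _)
    (fun u => hI _) (fun u => hI _) (by
      intro u x
      change lft e (gm u) • P e (x : F) = P e ((u * x : Fˣ) : F)
      rw [gm_P, Units.val_mul]) (by
      intro u x
      change lft e (gp u) • P e (x : F) = P e ((u * x⁻¹ : Fˣ) : F)
      rw [gp_P e u x x.ne_zero, Units.val_mul, Units.val_inv_eq_inv_val])
    (by
      intro u x hx
      rcases hZ0 with h | h
      · rw [h] at hx; exact absurd hx (Finset.notMem_empty _)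
      · rw [h, Finset.mem_insert, Finset.mem_singleton] at hx
        rw [h]
        rcases hx with rfl | rfl
        · change lft e (gm u) • P e 0 ∈ _
          rw [gm_P, mul_zero]; simp
        · change lft e (gm u) • Pinf e ∈ _
          rw [gm_Pinf]; simp)
    (by
      intro u x hx
      rcases hZ0 with h | h
      · rw [h] at hx; exact absurd hx (Finset.notMem_empty _)
      · rw [h, Finset.mem_insert, Finset.mem_singleton] at hx
        rw [h]
        rcases hx with rfl | rfl
        · change lft e (gp u) • P e 0 ∈ _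
          rw [gp_zero]; simp
        · change lft e (gp u) • Pinf e ∈ _
          rw [gp_Pinf]; simp)
    z hz hk hne
  rw [Subgroup.card_bot, one_mul, Fintype.card_units] at key
  exact key

theorem split [DecidableEq (ℙ F V)] (hV : Module.finrank F V = 2) (k c : ℕ)
    (hc : c ∣ Fintype.card F - 1) (hk : 2 * c + 2 < k) (B : Finset (Finset (ℙ F V)))
    (hB : IsSteiner k (2 * c + 2) B) (hI : Inv B) : Fintype.card F + 1 ≤ k := by
  classical
  have : Module.Finite F V := Module.finite_of_finrank_pos (by rw [hV]; norm_num)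
  let e : (F × F) ≃ₗ[F] V := LinearEquiv.ofFinrankEq (F × F) V (by rw [hV]; simp)
  have hq2 : 2 ≤ Fintype.card F := Fintype.one_lt_card
  by_contra hlt
  have hcard : Nat.card Fˣ = Fintype.card F - 1 := by
    rw [Nat.card_eq_fintype_card, Fintype.card_units]
  let C : Subgroup Fˣ := (powMonoidHom c : Fˣ →* Fˣ).ker
  have hC : Nat.card C = c := by
    rw [IsCyclic.card_powMonoidHom_ker, hcard]
    exact Nat.gcd_eq_right hc
  have h2 : ({P e 0, Pinf e} : Finset (ℙ F V)).card = 2 := Finset.card_pair (P_ne_Pinf e 0)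
  have key := split_gen e k (2 * c + 2) c 2 C hC B hB hI {P e 0, Pinf e} (Or.inr rfl) (by rw [h2]) (by
      intro b hb a ha hsub
      rw [Finset.inter_eq_right.mpr (Finset.union_subset_left hsub), h2]) (by omega) (by
      by_contra hcon
      push Not at hcon
      have h1 : C = ⊤ := by
        rw [eq_top_iff]; intro x _; exact hcon x
      have h2 : Nat.card C = Fintype.card F - 1 := by
        rw [h1, Subgroup.card_top, hcard]
      rw [hC] at h2
      omega)
  omega

end

end Pool.Agent.H838P
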