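import Pool.Agent.H838P.Six

/-!
# Steiner systems on the projective line which are invariant under `PGL(2,q)`
-/

set_option autoImplicit false

open scoped LinearAlgebra.Projectivization

namespace Pool.Agent.H838P

variable {F V : Type} [Field F] [Fintype F] [AddCommGroup V] [Module F V]

theorem six [DecidableEq (ℙ F V)] (hV : Module.finrank F V = 2) (k : ℕ)
    (hk : 6 < k) (hkq : k < Fintype.card F + 1)
    (B : Finset (Finset (ℙ F V))) (hB : IsSteiner k 6 B) (hI : Inv B) : False := by
  have hq2 : 2 ≤ Fintype.card F := Fintype.one_lt_card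
  rcases Nat.even_or_odd (Fintype.card F) with he | ho
  · have h2 : ringChar F = 2 := FiniteField.even_card_iff_char_two.mpr (Nat.even_iff.mp he)
    have h2F : (2 : F) = 0 := by
      have := CharP.cast_eq_zero F (ringChar F)
      rw [h2] at this
      exact_mod_cast this
    have h3 : ¬ 3 ∣ Fintype.card F := by
      intro h3
      obtain ⟨n, hp, hn⟩ := FiniteField.card F (ringChar F)
      rw [hn, h2] at h3
      have h4 := Nat.Prime.dvd_of_dvd_pow Nat.prime_three h3
      omega
    by_cases h1 : 3 ∣ Fintype.card F - 1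
    · exact six_even hV k h2F h1 hk hkq B hB hI
    · have h5 : 3 ∣ Fintype.card F + 1 := by omega
      have := nonsplit hV k 3 h5 hk B hB hI
      omega
  · have h5 : 2 ∣ Fintype.card F - 1 := by
      obtain ⟨m, hm⟩ := ho
      omega
    have := split hV k 2 h5 hk B hB hI
    omega

theorem main [DecidableEq (ℙ F V)] (hV : Module.finrank F V = 2) (k t : ℕ) (htk : t < k)
    (hkq : k < Fintype.card F + 1)
    (ht : t = 4 ∨ t = 6 ∨ (∃ c, c ∣ Fintype.card F - 1 ∧ t = 2 * c + 2) ∨
      (∃ c, c ∣ Fintype.card F + 1 ∧ t = 2 * c))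
    (B : Finset (Finset (ℙ F V))) (hB : IsSteiner k t B) (hI : Inv B) : False := by
  rcases ht with rfl | rfl | ⟨c, hc, rfl⟩ | ⟨c, hc, rfl⟩
  · have := split hV k 1 (one_dvd _) htk B hB hI
    omega
  · exact six hV k htk hkq B hB hI
  · have := split hV k c hc htk B hB hI
    omega
  · have := nonsplit hV k c hc htk B hB hI
    omega

end Pool.Agent.H838P
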