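import Pool.Agent.H838P.Torus

/-!
# Steiner systems with a dihedral group acting naturally on all but a few points
-/

set_option autoImplicit false

namespace Pool.Agent.H838P

section

variable {X : Type*} [DecidableEq X] {Q : Type*} [CommGroup Q] [DecidableEq Q] [Fintype Q]


omit [DecidableEq Q] in
theorem univ_of_closed (L : Finset Q) (h : ∀ c ∈ L, ∀ x ∈ L, c * x ∈ L) (h1 : (1 : Q) ∈ L) (a : Q)
    (ha : ∀ x, x ∈ Subgroup.zpowers a) (haL : a ∈ L) : ∀ x, x ∈ L := by
  have hpow : ∀ i : ℕ, a ^ i ∈ L := by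
    intro i
    induction i with
    | zero => simpa using h1
    | succ i ih => rw [pow_succ']; exact h a haL _ ih
  intro x
  obtain ⟨i, hi⟩ := (mem_powers_iff_mem_zpowers (x := a) (y := x)).mpr (ha x)
  rw [← hi]
  exact hpow i

/-- **The argument with a generator.** -/
theorem torus_gen {k t c : ℕ} {B : Finset (Finset X)} (hB : IsSteiner k t B)
    (π : Q → X) (hπ : Function.Injective π) (C : Subgroup Q) (Z0 : Finset X)
    (hZ : ∀ u, π u ∉ Z0)
    (hc : Nat.card C = c) (ht : t = 2 * c + Z0.card)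
    (μ φ : Q → X → X) (hμi : ∀ u, Function.Injective (μ u)) (hφi : ∀ u, Function.Injective (φ u))
    (hμB : ∀ u, ∀ b ∈ B, b.image (μ u) ∈ B) (hφB : ∀ u, ∀ b ∈ B, b.image (φ u) ∈ B)
    (hμ : ∀ u x, μ u (π x) = π (u * x)) (hφ : ∀ u x, φ u (π x) = π (u * x⁻¹))
    (hμZ : ∀ u, ∀ z ∈ Z0, μ u z ∈ Z0) (hφZ : ∀ u, ∀ z ∈ Z0, φ u z ∈ Z0)
    (a : Q) (ha : ∀ x, x ∈ Subgroup.zpowers a) (haC : a ∉ C) :
    ∃ b ∈ B, Z0 ⊆ b ∧ ((pre π b).card ≤ 2 * c ∨ ∀ x, π x ∈ b) := by
  classical
  have hTcard : ∀ b d, b⁻¹ * d ∉ C → (Z0 ∪ (two C b d).image π).card = t := by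
    intro b d hbd
    rw [Finset.card_union_of_disjoint, ht, Finset.card_image_of_injective _ hπ, card_two C b d hbd,
      hc]
    · omega
    · rw [Finset.disjoint_left]
      intro x hx hx'
      obtain ⟨y, -, rfl⟩ := Finset.mem_image.mp hx'
      exact hZ y hx
  obtain ⟨b0, ⟨hb0, hT0⟩, -⟩ := hB.2 _ (hTcard 1 a (by simpa using haC))
  have hCinv : ∀ c' ∈ C, ∀ x ∈ pre π b0, c' * x ∈ pre π b0 := by
    intro c' hc' x hx
    rw [mem_pre] at hx ⊢
    rw [← hμ]
    refine block_inv hB (μ c') (hμi c') (hμB c') _ b0 (hTcard 1 a (by simpa using haC))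
      hb0 hT0 ?_ _ hx
    intro y hy
    rw [Finset.mem_union] at hy ⊢
    rcases hy with hy | hy
    · exact Or.inl (hμZ _ _ hy)
    · right
      obtain ⟨w, hw, rfl⟩ := Finset.mem_image.mp hy
      rw [hμ]
      apply Finset.mem_image_of_mem
      rw [mem_two] at hw ⊢
      rcases hw with hw | hw
      · left
        have e : (1 : Q)⁻¹ * (c' * w) = c' * (1⁻¹ * w) := by group
        rw [e]; exact C.mul_mem hc' hw
      · right
        have e : a⁻¹ * (c' * w) = c' * (a⁻¹ * w) := by
          rw [← mul_assoc, ← mul_assoc, mul_comm a⁻¹ c']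
        rw [e]; exact C.mul_mem hc' hw
  have h1mem : ∀ c' ∈ C, c' ∈ pre π b0 := by
    intro c' hc'
    rw [mem_pre]
    apply hT0
    rw [Finset.mem_union]
    right
    apply Finset.mem_image_of_mem
    rw [mem_two]
    left
    simpa using hc'
  have hamem : a ∈ pre π b0 := by
    rw [mem_pre]
    apply hT0
    rw [Finset.mem_union]
    right
    apply Finset.mem_image_of_mem
    rw [mem_two]
    right
    simp
  have hswap : ∀ b ∈ pre π b0, ∀ d ∈ pre π b0, b⁻¹ * d ∉ C →
      ∀ x ∈ pre π b0, b * d * x⁻¹ ∈ pre π b0 := by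
    intro b hb d hd hbd x hx
    rw [mem_pre] at hx ⊢
    rw [← hφ]
    have hsub : Z0 ∪ (two C b d).image π ⊆ b0 := by
      intro y hy
      rw [Finset.mem_union] at hy
      rcases hy with hy | hy
      · exact hT0 (Finset.mem_union_left _ hy)
      · obtain ⟨w, hw, rfl⟩ := Finset.mem_image.mp hy
        rw [mem_two] at hw
        rcases hw with hw | hw
        · have h3 := hCinv _ hw b hb
          rw [mem_pre] at h3
          have e : b⁻¹ * w * b = w := by rw [mul_comm, ← mul_assoc, mul_inv_cancel, one_mul]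
          rwa [e] at h3
        · have h3 := hCinv _ hw d hd
          rw [mem_pre] at h3
          have e : d⁻¹ * w * d = w := by rw [mul_comm, ← mul_assoc, mul_inv_cancel, one_mul]
          rwa [e] at h3
    refine block_inv hB (φ (b * d)) (hφi _) (hφB _) _ b0 (hTcard b d hbd)
      hb0 hsub ?_ _ hx
    intro y hy
    rw [Finset.mem_union] at hy ⊢
    rcases hy with hy | hy
    · exact Or.inl (hφZ _ _ hy)
    · right
      obtain ⟨w, hw, rfl⟩ := Finset.mem_image.mp hy
      rw [hφ]
      apply Finset.mem_image_of_mem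
      rw [mem_two] at hw ⊢
      rcases hw with hw | hw
      · right
        have e : d⁻¹ * (b * d * w⁻¹) = (b⁻¹ * w)⁻¹ := by
          rw [mul_inv, inv_inv, mul_comm b d, mul_assoc, ← mul_assoc d⁻¹ d, inv_mul_cancel, one_mul]
        rw [e]; exact C.inv_mem hw
      · left
        have e : b⁻¹ * (b * d * w⁻¹) = (d⁻¹ * w)⁻¹ := by
          rw [mul_inv, inv_inv, mul_assoc, ← mul_assoc b⁻¹ b, inv_mul_cancel, one_mul]
        rw [e]; exact C.inv_mem hw
  refine ⟨b0, hb0, fun x hx => hT0 (Finset.mem_union_left _ hx), ?_⟩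
  by_cases hcard : (pre π b0).card ≤ 2 * c
  · exact Or.inl hcard
  · right
    have hcl := closed_of_swap C (pre π b0) h1mem hCinv hswap (by rw [hc]; omega)
    intro x
    rw [← mem_pre]
    exact univ_of_closed _ hcl (h1mem 1 C.one_mem) a ha hamem x

end

/-- the natural action of a dihedral group on `n` points, with an arbitrary finite set `Z` of further
points -/
theorem natural {Z : Type*} [DecidableEq Z] [Fintype Z] {n c k t : ℕ} [NeZero n] (hcn : c ∣ n)
    (B : Finset (Finset (ZMod n ⊕ Z))) (hB : IsSteiner k t B)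
    (α β : ZMod n ⊕ Z → ZMod n ⊕ Z) (hαi : Function.Injective α) (hβi : Function.Injective β)
    (hαB : ∀ b ∈ B, b.image α ∈ B) (hβB : ∀ b ∈ B, b.image β ∈ B)
    (hα : ∀ x, α (Sum.inl x) = Sum.inl (x + 1)) (hβ : ∀ x, β (Sum.inl x) = Sum.inl (-x))
    (Z0 : Finset (ZMod n ⊕ Z)) (hZ0 : ∀ x, Sum.inl x ∉ Z0)
    (hαZ : ∀ z ∈ Z0, α z ∈ Z0) (hβZ : ∀ z ∈ Z0, β z ∈ Z0) (ht : t = 2 * c + Z0.card) :
    k ≤ 2 * c + Fintype.card Z ∨ n + Z0.card ≤ k := by
  classical
  have hn : 0 < n := Nat.pos_of_ne_zero (NeZero.ne n)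
  have hc0 : 0 < c := Nat.pos_of_dvd_of_pos hcn hn
  -- the number of points of `Z0`
  have hZ0c : Z0.card ≤ Fintype.card Z := by
    have h1 : Z0 ⊆ Finset.univ.image (Sum.inr : Z → ZMod n ⊕ Z) := by
      intro x hx
      rcases x with x | x
      · exact absurd hx (hZ0 x)
      · simp
    exact (Finset.card_le_card h1).trans (Finset.card_image_le.trans (by simp))
  by_cases hcn' : c = n
  · by_cases hk : k ≤ 2 * c + Fintype.card Z
    · exact Or.inl hk
    · right; omega
  have hclt : c < n := lt_of_le_of_ne (Nat.le_of_dvd hn hcn) hcn'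
  let Q := Multiplicative (ZMod n)
  let C : Subgroup Q := (powMonoidHom c : Q →* Q).ker
  have hQ : Nat.card Q = n := by
    change Nat.card (ZMod n) = n
    exact Nat.card_zmod n
  have hC : Nat.card C = c := by
    rw [IsCyclic.card_powMonoidHom_ker, hQ]
    exact Nat.gcd_eq_right hcn
  have hgen : ∀ x : Q, x ∈ Subgroup.zpowers (Multiplicative.ofAdd (1 : ZMod n)) := by
    intro x
    rw [Subgroup.mem_zpowers_iff]
    refine ⟨((Multiplicative.toAdd x).val : ℤ), ?_⟩
    rw [← ofAdd_zsmul]
    change Multiplicative.ofAdd _ = Multiplicative.ofAdd (Multiplicative.toAdd x)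
    congr 1
    simp
  have haC : Multiplicative.ofAdd (1 : ZMod n) ∉ C := by
    intro h
    have htop : C = ⊤ := by
      rw [eq_top_iff]
      intro x _
      exact (Subgroup.zpowers_le.mpr h) (hgen x)
    rw [htop, Subgroup.card_top, hQ] at hC
    omega
  let π : Q → ZMod n ⊕ Z := fun x => Sum.inl (Multiplicative.toAdd x)
  have hαit : ∀ i : ℕ, ∀ x : ZMod n, α^[i] (Sum.inl x) = Sum.inl (i + x) := by
    intro i
    induction i with
    | zero => intro x; simp
    | succ i ih =>
      intro x
      rw [Function.iterate_succ_apply', ih, hα]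
      congr 1
      push_cast
      ring
  have hαitB : ∀ i : ℕ, ∀ b ∈ B, b.image (α^[i]) ∈ B := by
    intro i
    induction i with
    | zero => intro b hb; simpa using hb
    | succ i ih =>
      intro b hb
      have h1 := hαB _ (ih b hb)
      rw [Finset.image_image] at h1
      rw [Function.iterate_succ']
      exact h1
  have hαitZ : ∀ i : ℕ, ∀ z ∈ Z0, α^[i] z ∈ Z0 := by
    intro i
    induction i with
    | zero => intro z hz; simpa using hz
    | succ i ih => intro z hz; rw [Function.iterate_succ_apply']; exact hαZ _ (ih z hz)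
  let μ : Q → ZMod n ⊕ Z → ZMod n ⊕ Z := fun u => α^[(Multiplicative.toAdd u).val]
  let φ : Q → ZMod n ⊕ Z → ZMod n ⊕ Z := fun u x => α^[(Multiplicative.toAdd u).val] (β x)
  obtain ⟨b, hb, hZb, hor⟩ := torus_gen hB π
    (fun x y h => Multiplicative.toAdd.injective (Sum.inl_injective h)) C Z0
    (fun u => hZ0 _) hC ht μ φ (fun u => hαi.iterate _) (fun u => (hαi.iterate _).comp hβi)
    (fun u => hαitB _) (fun u b hb => by
      have h1 := hαitB (Multiplicative.toAdd u).val _ (hβB b hb)
      rw [Finset.image_image] at h1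
      exact h1)
    (fun u x => by
      change α^[_] (Sum.inl _) = Sum.inl _
      rw [hαit]
      congr 1
      rw [ZMod.natCast_val, ZMod.cast_id]
      rfl)
    (fun u x => by
      change α^[_] (β (Sum.inl _)) = Sum.inl _
      rw [hβ, hαit]
      congr 1
      rw [ZMod.natCast_val, ZMod.cast_id]
      rfl)
    (fun u => hαitZ _) (fun u z hz => hαitZ _ _ (hβZ z hz))
    (Multiplicative.ofAdd 1) hgen haC
  have hbk := hB.1 b hb
  rcases hor with hor | hor
  · left
    -- the points of `b`
    have h1 : b ⊆ (pre π b).image π ∪ Finset.univ.image (Sum.inr : Z → ZMod n ⊕ Z) := by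
      intro x hx
      rw [Finset.mem_union]
      rcases x with x | x
      · left
        exact Finset.mem_image.mpr ⟨Multiplicative.ofAdd x, by rw [mem_pre]; exact hx, rfl⟩
      · right; simp
    have h2 := (Finset.card_le_card h1).trans (Finset.card_union_le _ _)
    have h3 : ((pre π b).image π).card ≤ (pre π b).card := Finset.card_image_le
    have h4 : (Finset.univ.image (Sum.inr : Z → ZMod n ⊕ Z)).card ≤ Fintype.card Z :=
      Finset.card_image_le.trans (by simp)
    omega
  · right
    have h1 : Finset.univ.image (Sum.inl : ZMod n → ZMod n ⊕ Z) ∪ Z0 ⊆ b := by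
      intro x hx
      rw [Finset.mem_union] at hx
      rcases hx with hx | hx
      · obtain ⟨y, -, rfl⟩ := Finset.mem_image.mp hx
        exact hor (Multiplicative.ofAdd y)
      · exact hZb hx
    have h2 := Finset.card_le_card h1
    rw [Finset.card_union_of_disjoint, Finset.card_image_of_injective _ Sum.inl_injective,
      Finset.card_univ, ZMod.card, hbk] at h2
    · exact h2
    · rw [Finset.disjoint_left]
      intro x hx hx'
      obtain ⟨y, -, rfl⟩ := Finset.mem_image.mp hx
      exact hZ0 y hx'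

end Pool.Agent.H838P
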