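import Pool.Agent.H838P.Reg
import Pool.Agent.H838P.Line

/-!
# The nonsplit torus of `PSL(2,q)`
-/

set_option autoImplicit false

open scoped LinearAlgebra.Projectivization

namespace Pool.Agent.H838P

section

variable {F V : Type} [Field F] [AddCommGroup V] [Module F V]

/-- invariance under the linear automorphisms of determinant one -/
def InvSL [DecidableEq (ℙ F V)] (B : Finset (Finset (ℙ F V))) : Prop :=
  ∀ g : V ≃ₗ[F] V, LinearEquiv.det g = 1 → ∀ b ∈ B, b.image (fun x => g • x) ∈ B

theorem inv_of_sq [DecidableEq (ℙ F V)] (hV : Module.finrank F V = 2)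
    (B : Finset (Finset (ℙ F V))) (hI : InvSL B) (g : V ≃ₗ[F] V)
    (hd : IsSquare (LinearMap.det (g : V →ₗ[F] V))) :
    ∀ b ∈ B, b.image (fun x => g • x) ∈ B := by
  obtain ⟨d, hd⟩ := hd
  have hd0 : d ≠ 0 := by
    rintro rfl
    rw [mul_zero, ← LinearEquiv.coe_det] at hd
    exact (LinearEquiv.det g).ne_zero hd
  let u : Fˣ := (Units.mk0 d hd0)⁻¹
  let s : V ≃ₗ[F] V := DistribMulAction.toLinearEquiv F V u
  have hs : (s : V →ₗ[F] V) = (u : F) • LinearMap.id := by
    ext x
    rfl
  have hdet : LinearEquiv.det (g.trans s) = 1 := by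
    ext
    rw [LinearEquiv.det_trans, Units.val_mul, LinearEquiv.coe_det, LinearEquiv.coe_det, hs,
      LinearMap.det_smul, LinearMap.det_id, hV, hd, mul_one]
    have : (u : F) = d⁻¹ := by simp [u]
    rw [this, Units.val_one]
    field_simp
  intro b hb
  have h1 := hI (g.trans s) hdet b hb
  have h2 : (fun x : ℙ F V => (g.trans s) • x) = fun x => g • x := by
    funext x
    induction x using Projectivization.ind with
    | h v hv =>
      rw [Projectivization.smul_mk, Projectivization.smul_mk, Projectivization.mk_eq_mk_iff']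
      exact ⟨(u : F), rfl⟩
  rwa [h2] at h1

theorem det_lft {W : Type} [AddCommGroup W] [Module F W] (e : W ≃ₗ[F] V) (g : W ≃ₗ[F] W) :
    LinearMap.det (lft e g : V →ₗ[F] V) = LinearMap.det (g : W →ₗ[F] W) := by
  rw [← LinearMap.det_conj (g : W →ₗ[F] W) e]
  rfl

/-- an involution which is not the identity, with a fixed vector, in dimension two -/
theorem det_involution [Invertible (2 : F)] (hV : Module.finrank F V = 2) (f : V →ₗ[F] V)
    (hf : ∀ x, f (f x) = x) (v : V) (hv : v ≠ 0) (hfv : f v = v) (w : V) (hw : f w ≠ w) :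
    LinearMap.det f = -1 := by
  classical
  let θ : V := w - f w
  have hθ0 : θ ≠ 0 := fun h => hw (sub_eq_zero.mp h).symm
  have hfθ : f θ = -θ := by
    change f (w - f w) = -(w - f w)
    rw [map_sub, hf, neg_sub]
  have h2 : (2 : F) ≠ 0 := Invertible.ne_zero 2
  have hli : LinearIndependent F ![v, θ] := by
    rw [LinearIndependent.pair_iff]
    intro a b hab
    have h1 : a • v - b • θ = 0 := by
      have := congrArg f hab
      rw [map_add, map_smul, map_smul, hfv, hfθ, map_zero, smul_neg] at this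
      rw [sub_eq_add_neg, this]
    have h3 : (2 : F) • (a • v) = 0 := by
      have : (2 : F) • (a • v) = (a • v + b • θ) + (a • v - b • θ) := by
        rw [two_smul]; abel
      rw [this, hab, h1, add_zero]
    have h4 : a = 0 := by
      have h5 := (smul_eq_zero.mp h3).resolve_left h2
      exact (smul_eq_zero.mp h5).resolve_right hv
    refine ⟨h4, ?_⟩
    rw [h4, zero_smul, zero_add] at hab
    exact (smul_eq_zero.mp hab).resolve_right hθ0
  have : Module.Finite F V := Module.finite_of_finrank_pos (by rw [hV]; norm_num)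
  let b := basisOfLinearIndependentOfCardEqFinrank hli (by simp [hV])
  have hb0 : b 0 = v := by simp [b]
  have hb1 : b 1 = θ := by simp [b]
  rw [← LinearMap.det_toMatrix b, Matrix.det_fin_two]
  simp only [LinearMap.toMatrix_apply]
  rw [hb0, hb1, hfv, hfθ, ← hb0, ← hb1]
  simp

end

section

variable {F V : Type} [Field F] [Fintype F] [AddCommGroup V] [Module F V]

theorem nonsplit_psl [DecidableEq (ℙ F V)] (hV : Module.finrank F V = 2) (k c : ℕ)
    (hq4 : Fintype.card F % 4 = 3)
    (hc : c ∣ (Fintype.card F + 1) / 2) (hk : 2 * c < k) (B : Finset (Finset (ℙ F V)))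
    (hB : IsSteiner k (2 * c) B) (hI : InvSL B) : Fintype.card F + 1 ≤ k := by
  classical
  obtain ⟨p, hp⟩ := CharP.exists F
  have : Fact p.Prime := ⟨CharP.char_is_prime F p⟩
  let K := FiniteField.Extension F p 2
  have : Fintype K := Fintype.ofFinite K
  have hK : Module.finrank F K = 2 := FiniteField.finrank_extension F p 2
  have : Module.Finite F V := Module.finite_of_finrank_pos (by rw [hV]; norm_num)
  let e : K ≃ₗ[F] V := LinearEquiv.ofFinrankEq K V (by rw [hK, hV])
  set q := Fintype.card F with hq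
  obtain ⟨m, hm⟩ : ∃ m, q = 2 * m + 1 := ⟨q / 2, by omega⟩
  have hm2 : m % 2 = 1 := by omega
  have hKcard : Fintype.card K = q ^ 2 := by
    rw [Module.card_eq_pow_finrank (K := F) (V := K), hK]
  have hKu : Fintype.card Kˣ = (q + 1) * (q - 1) := by
    rw [Fintype.card_units, hKcard, ← Nat.sq_sub_sq]
  have hKuN : Nat.card Kˣ = (q + 1) * (q - 1) := by rw [Nat.card_eq_fintype_card, hKu]
  have hKhalf : Fintype.card K / 2 = (q + 1) * m := by
    rw [hKcard, hm]
    have : (2 * m + 1) ^ 2 = 2 * ((2 * m + 1 + 1) * m) + 1 := by ring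
    omega
  have hc' : c ∣ m + 1 := by
    have : (q + 1) / 2 = m + 1 := by omega
    rwa [this] at hc
  have hc0 : 0 < c := Nat.pos_of_dvd_of_pos hc' (by omega)
  have hcq : c ∣ q + 1 := by
    have : q + 1 = 2 * (m + 1) := by omega
    rw [this]; exact Dvd.dvd.mul_left hc' 2
  have hcharF : ringChar F ≠ 2 := by
    intro h
    have := FiniteField.even_card_of_char_two h
    omega
  have hcharK : ringChar K ≠ 2 := by
    intro h
    have := FiniteField.even_card_of_char_two h
    rw [hKcard, Nat.pow_mod] at this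
    have h2 : q % 2 = 1 := by omega
    rw [h2] at this
    norm_num at this
  have h20 : (2 : F) ≠ 0 := Ring.two_ne_zero hcharF
  let _ : Invertible (2 : F) := invertibleOfNonzero h20
  by_contra hlt
  let N : Subgroup Kˣ := (powMonoidHom (q - 1) : Kˣ →* Kˣ).ker
  let C : Subgroup Kˣ := (powMonoidHom (c * (q - 1)) : Kˣ →* Kˣ).ker
  let S : Subgroup Kˣ := (powMonoidHom (Fintype.card K / 2) : Kˣ →* Kˣ).ker
  have hN : Nat.card N = q - 1 := by
    rw [IsCyclic.card_powMonoidHom_ker, hKuN]
    exact Nat.gcd_eq_right (Dvd.intro_left _ rfl)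
  have hC : Nat.card C = c * (q - 1) := by
    rw [IsCyclic.card_powMonoidHom_ker, hKuN]
    exact Nat.gcd_eq_right (Nat.mul_dvd_mul_right hcq _)
  have memN : ∀ x : Kˣ, x ∈ N ↔ x ^ (q - 1) = 1 := fun x => by
    rw [MonoidHom.mem_ker]; rfl
  have memC : ∀ x : Kˣ, x ∈ C ↔ x ^ (c * (q - 1)) = 1 := fun x => by
    rw [MonoidHom.mem_ker]; rfl
  have memS : ∀ x : Kˣ, x ∈ S ↔ IsSquare x := fun x => by
    rw [MonoidHom.mem_ker, FiniteField.unit_isSquare_iff hcharK]; rfl
  have hNC : N ≤ C := by
    intro x hx
    rw [memN] at hx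
    rw [memC, mul_comm, pow_mul, hx, one_pow]
  have hCS : C ≤ S := by
    intro x hx
    rw [memC] at hx
    rw [memS, FiniteField.unit_isSquare_iff hcharK, hKhalf]
    obtain ⟨j, hj⟩ := hc'
    have : (q + 1) * m = c * (q - 1) * j := by
      have h1 : q - 1 = 2 * m := by omega
      have h2 : q + 1 = 2 * (m + 1) := by omega
      rw [h1, h2, hj]; ring
    rw [this, pow_mul, hx, one_pow]
  have hSS : ∀ x, x ∉ S → ∀ y, y ∉ S → x * y ∈ S := by
    have key : ∀ x : Kˣ, x ∉ S → x ^ (Fintype.card K / 2) = -1 := by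
      intro x hx
      have h1 := FiniteField.pow_dichotomy hcharK x.ne_zero
      rcases h1 with h1 | h1
      · exfalso
        apply hx
        rw [memS, FiniteField.unit_isSquare_iff hcharK]
        ext
        rw [Units.val_pow_eq_pow_val, h1, Units.val_one]
      · ext
        rw [Units.val_pow_eq_pow_val, h1, Units.val_neg, Units.val_one]
    intro x hx y hy
    rw [memS, FiniteField.unit_isSquare_iff hcharK, mul_pow, key x hx, key y hy]
    simp
  -- the elements of `N` are the elements of `F`
  have hrange : (Units.map (algebraMap F K : F →* K)).range = N := by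
    apply Subgroup.eq_of_le_of_card_ge
    · rintro _ ⟨a, rfl⟩
      rw [memN, ← map_pow]
      have : a ^ (q - 1) = 1 := by
        rw [← Fintype.card_units]
        exact pow_card_eq_one
      rw [this, map_one]
    · rw [hN]
      have hinj : Function.Injective (Units.map (algebraMap F K : F →* K)) :=
        Units.map_injective (algebraMap F K).injective
      rw [← Nat.card_congr (MonoidHom.ofInjective hinj).toEquiv, Nat.card_eq_fintype_card,
        Fintype.card_units]
  have hne : ∀ u : Kˣ, (u : K) ≠ 0 := fun u => u.ne_zero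
  let π : Kˣ → ℙ F V := fun u => pt e (u : K) (hne u)
  have hπ : ∀ u v : Kˣ, π u = π v ↔ u⁻¹ * v ∈ N := by
    intro u v
    change pt e (u : K) (hne u) = pt e (v : K) (hne v) ↔ _
    rw [pt_eq_iff, ← hrange]
    constructor
    · rintro ⟨a, ha⟩
      have ha0 : a ≠ 0 := by
        rintro rfl
        rw [zero_smul] at ha
        exact hne u ha.symm
      refine ⟨(Units.mk0 a ha0)⁻¹, ?_⟩
      rw [map_inv, inv_eq_iff_eq_inv, mul_inv, inv_inv]
      ext
      rw [Units.coe_map, Units.val_mul, Units.val_inv_eq_inv_val, ← ha]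
      simp only [MonoidHom.coe_coe, Units.val_mk0, Algebra.smul_def]
      rw [mul_assoc, mul_inv_cancel₀ (hne v), mul_one]
    · rintro ⟨a, ha⟩
      refine ⟨((a⁻¹ : Fˣ) : F), ?_⟩
      have h1 : v = u * Units.map (algebraMap F K : F →* K) a := by rw [ha]; group
      rw [h1, Algebra.smul_def, Units.val_mul, Units.coe_map]
      simp only [MonoidHom.coe_coe, Units.val_inv_eq_inv_val, map_inv₀]
      have h2 : algebraMap F K (a : F) ≠ 0 := by
        rw [Ne, map_eq_zero]; exact a.ne_zero
      rw [mul_comm (u : K), ← mul_assoc, inv_mul_cancel₀ h2, one_mul]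
  let gμ : Kˣ → (K ≃ₗ[F] K) := fun u => DistribMulAction.toLinearEquiv F K u
  have hgμ : ∀ (u : Kˣ) (x : K), gμ u x = u * x := fun u x => rfl
  let fr : K ≃ₗ[F] K := (FiniteField.Extension.frob F p 2).toLinearEquiv
  have hfr : ∀ x : K, fr x = x ^ q := by
    intro x
    change (FiniteField.Extension.frob F p 2) x = _
    rw [FiniteField.Extension.frob_apply, Nat.card_eq_fintype_card]
  let gφ : Kˣ → (K ≃ₗ[F] K) := fun u => fr.trans (gμ u)
  have hgφ : ∀ (u : Kˣ) (x : K), gφ u x = u * x ^ q := by
    intro u x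
    change gμ u (fr x) = _
    rw [hgμ, hfr]
  -- determinants
  have hdetμ : ∀ u : Kˣ, LinearMap.det (gμ u : K →ₗ[F] K) = Algebra.norm F (u : K) := by
    intro u
    rw [Algebra.norm_apply]
    rfl
  have hdetfr : LinearMap.det (fr : K →ₗ[F] K) = -1 := by
    obtain ⟨x, hx⟩ : ∃ x : K, x ^ q ≠ x := by
      by_contra hcon
      push Not at hcon
      have h1 : ∀ x : Kˣ, x ∈ N := by
        intro x
        rw [memN]
        have h2 := hcon (x : K)
        have h3 : x * x ^ (q - 1) = x := by
          rw [← pow_succ', Nat.sub_add_cancel (by omega)]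
          ext
          rw [Units.val_pow_eq_pow_val, h2]
        exact mul_eq_left.mp h3
      have h2 : N = ⊤ := by rw [eq_top_iff]; intro x _; exact h1 x
      have h3 : Nat.card N = (q + 1) * (q - 1) := by rw [h2, Subgroup.card_top, hKuN]
      rw [hN] at h3
      have h4 : 1 * (q - 1) = (q + 1) * (q - 1) := by rw [one_mul]; exact h3
      have h5 := Nat.eq_of_mul_eq_mul_right (by omega) h4
      omega
    refine det_involution hK (fr : K →ₗ[F] K) ?_ 1 one_ne_zero ?_ x ?_
    · intro y
      change fr (fr y) = y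
      rw [hfr, hfr, ← pow_mul, ← pow_two, ← hKcard, FiniteField.pow_card]
    · change fr 1 = 1
      rw [hfr, one_pow]
    · change fr x ≠ x
      rw [hfr]; exact hx
  have hnormsq : ∀ u : Kˣ, u ∉ S → ¬ IsSquare (Algebra.norm F (u : K)) := by
    rintro u hu ⟨a, ha⟩
    apply hu
    rw [memS, FiniteField.unit_isSquare_iff hcharK, hKhalf]
    have h1 := FiniteField.algebraMap_norm_eq_pow (K := F) (x := (u : K))
    rw [ha] at h1
    have h2 : (Nat.card K - 1) / (Nat.card F - 1) = q + 1 := by
      rw [Nat.card_eq_fintype_card, Nat.card_eq_fintype_card, hKcard, ← hq]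
      have h3 : q ^ 2 - 1 = (q + 1) * (q - 1) := by
        have := Nat.sq_sub_sq q 1
        simpa using this
      rw [h3, Nat.mul_div_cancel _ (by omega)]
    rw [h2] at h1
    ext
    rw [Units.val_pow_eq_pow_val, pow_mul, ← h1, ← map_pow, Units.val_one]
    have ha0 : a ≠ 0 := by
      rintro rfl
      rw [mul_zero, map_zero] at h1
      exact pow_ne_zero _ (hne u) h1.symm
    have h4 : (a * a) ^ m = a ^ (q - 1) := by
      rw [← pow_two, ← pow_mul]
      congr 1
      omega
    rw [h4, FiniteField.pow_card_sub_one_eq_one a ha0, map_one]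
  have hnegsq : ∀ a : F, a ≠ 0 → ¬ IsSquare a → IsSquare (a * (-1)) := by
    intro a ha hns
    rw [FiniteField.isSquare_iff hcharF (by simpa using ha)]
    have h1 := FiniteField.pow_dichotomy hcharF ha
    rw [← FiniteField.isSquare_iff hcharF ha] at h1
    have h2 := h1.resolve_left hns
    rw [mul_pow, h2]
    have h3 : Odd (Fintype.card F / 2) := by
      rw [Nat.odd_iff]; omega
    rw [h3.neg_one_pow]
    ring
  have key := regular (X := ℙ F V) (Q := Kˣ) (k := k) (c := c) (B := B) hB π N C S hNC hCS hπ hSS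
    ∅ (fun u => Finset.notMem_empty _) (by
      intro x
      right
      obtain ⟨w, hw, rfl⟩ := exists_pt e x
      exact ⟨Units.mk0 w hw, rfl⟩) (by rw [hC, hN])
    (fun u x => lft e (gμ u) • x) (fun u x => lft e (gφ u) • x)
    (fun u => MulAction.injective _) (fun u => MulAction.injective _)
    (by
      intro u hu
      apply inv_of_sq hV B hI
      rw [det_lft, hdetμ]
      obtain ⟨w, hw⟩ := (memS u).mp (hCS hu)
      refine ⟨Algebra.norm F (w : K), ?_⟩
      rw [← map_mul, hw, Units.val_mul])
    (by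
      intro u hu
      apply inv_of_sq hV B hI
      rw [det_lft]
      have h1 : (gφ u : K →ₗ[F] K) = (gμ u : K →ₗ[F] K) ∘ₗ (fr : K →ₗ[F] K) := rfl
      rw [h1, LinearMap.det_comp, hdetμ, hdetfr]
      apply hnegsq _ _ (hnormsq u hu)
      rw [← hdetμ, ← LinearEquiv.coe_det]
      exact (LinearEquiv.det (gμ u)).ne_zero)
    (by
      intro u x
      change lft e (gμ u) • pt e (x : K) (hne x) = pt e ((u * x : Kˣ) : K) (hne _)
      rw [lft_pt]
      congr 1) (by
      intro u x
      change lft e (gφ u) • pt e (x : K) (hne x) = _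
      rw [lft_pt]
      have h1 : pt e (gφ u (x : K)) ((gφ u).map_ne_zero_iff.mpr (hne x)) = π (u * x ^ q) := by
        change _ = pt e ((u * x ^ q : Kˣ) : K) (hne _)
        congr 1
        rw [hgφ]
        simp
      rw [h1, hπ, memN]
      have h2 : (u * x ^ q)⁻¹ * (u * x⁻¹) = (x ^ (q + 1))⁻¹ := by
        rw [mul_inv, mul_comm u⁻¹, mul_assoc, ← mul_assoc u⁻¹, inv_mul_cancel, one_mul, pow_succ,
          mul_inv]
      rw [h2, inv_pow, ← pow_mul, ← hKu, pow_card_eq_one, inv_one])
    0 (by simp) (by simpa using hk) (by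
      obtain ⟨a, ha⟩ := FiniteField.exists_nonsquare hcharK
      have ha0 : a ≠ 0 := by
        rintro rfl
        exact ha ⟨0, by simp⟩
      refine ⟨Units.mk0 a ha0, ?_⟩
      rw [memS]
      rintro ⟨w, hw⟩
      apply ha
      refine ⟨(w : K), ?_⟩
      have := congrArg (Units.val) hw
      simpa using this)
  rw [hKu, hN, Nat.sub_zero] at key
  have h3 : (q - 1) * (q + 1) ≤ (q - 1) * k := by rw [mul_comm]; exact key
  exact hlt (Nat.le_of_mul_le_mul_left h3 (by omega))

end

end Pool.Agent.H838P
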