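import Pool.Agent.H838P.Eight
import Pool.Agent.H838P.Main

/-!
# Steiner systems on the projective line invariant under `PSL(2,q)`
-/

set_option autoImplicit false

open scoped LinearAlgebra.Projectivization

namespace Pool.Agent.H838P

section

variable {F V : Type} [Field F] [Fintype F] [AddCommGroup V] [Module F V]

theorem inv_of_even [DecidableEq (ℙ F V)] (hV : Module.finrank F V = 2)
    (hq : Fintype.card F % 2 = 0) (B : Finset (Finset (ℙ F V))) (hI : InvSL B) : Inv B := by
  intro g
  apply inv_of_sq hV B hI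
  exact FiniteField.isSquare_of_char_two (FiniteField.even_card_iff_char_two.mpr hq) _

/-- the split torus, `q = 7` modulo twelve -/
theorem split_reg [DecidableEq (ℙ F V)] (hV : Module.finrank F V = 2) (k : ℕ)
    (hq12 : Fintype.card F % 12 = 7) (hk : 6 < k) (hk8 : k ≠ 8)
    (B : Finset (Finset (ℙ F V)))
    (hB : IsSteiner k (2 * 3) B) (hI : InvSL B) : Fintype.card F + 1 ≤ k := by
  classical
  have : Module.Finite F V := Module.finite_of_finrank_pos (by rw [hV]; norm_num)
  let e : (F × F) ≃ₗ[F] V := LinearEquiv.ofFinrankEq (F × F) V (by rw [hV]; simp)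
  set q := Fintype.card F with hq
  have hcharF : ringChar F ≠ 2 := by
    intro h
    have := FiniteField.even_card_of_char_two h
    omega
  have h20 : (2 : F) ≠ 0 := Ring.two_ne_zero hcharF
  let _ : Invertible (2 : F) := invertibleOfNonzero h20
  have hneg : ¬ IsSquare (-1 : F) := by
    rw [FiniteField.isSquare_neg_one_iff]
    omega
  have hnegsq : ∀ a : F, a ≠ 0 → ¬ IsSquare a → IsSquare (a * (-1)) := by
    intro a ha hns
    rw [FiniteField.isSquare_iff hcharF (by simpa using ha)]
    have h1 := FiniteField.pow_dichotomy hcharF ha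
    rw [← FiniteField.isSquare_iff hcharF ha] at h1
    have h2 := h1.resolve_left hns
    rw [mul_pow, h2]
    have h3 : Odd (Fintype.card F / 2) := by
      rw [Nat.odd_iff]; omega
    rw [h3.neg_one_pow]
    ring
  have hcard : Nat.card Fˣ = q - 1 := by
    rw [Nat.card_eq_fintype_card, Fintype.card_units]
  let C : Subgroup Fˣ := (powMonoidHom 3 : Fˣ →* Fˣ).ker
  have hC : Nat.card C = 3 := by
    rw [IsCyclic.card_powMonoidHom_ker, hcard]
    exact Nat.gcd_eq_right (by omega)
  have hCS : C ≤ sqs F := by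
    intro x hx
    have hx' : x ^ 3 = 1 := by rw [MonoidHom.mem_ker] at hx; exact hx
    rw [mem_sqs hcharF, FiniteField.unit_isSquare_iff hcharF]
    have : Fintype.card F / 2 = 3 * (Fintype.card F / 6) := by omega
    rw [this, pow_mul, hx', one_pow]
  let Z : Finset (ℙ F V) := {P e 0, Pinf e}
  have memZ : ∀ x, x ∈ Z ↔ x = P e 0 ∨ x = Pinf e := fun x => by simp [Z]
  have hZ2 : Z.card = 2 := Finset.card_pair (P_ne_Pinf e 0)
  let π : Fˣ → ℙ F V := fun u => P e (u : F)
  have hπi : Function.Injective π := fun u v h => Units.ext ((P_inj e _ _).mp h)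
  have hπ : ∀ u v, π u = π v ↔ u⁻¹ * v ∈ (⊥ : Subgroup Fˣ) := by
    intro u v
    rw [Subgroup.mem_bot, inv_mul_eq_one]
    exact ⟨fun h => hπi h, fun h => by rw [h]⟩
  have hZ : ∀ u, π u ∉ Z := by
    intro u h
    rw [memZ] at h
    rcases h with h | h
    · exact u.ne_zero ((P_inj e _ _).mp h)
    · exact P_ne_Pinf e _ h
  have hX : ∀ x, x ∈ Z ∨ ∃ u, π u = x := by
    intro x
    rcases cases_P e x with h | ⟨y, h⟩
    · left; rw [h, memZ]; exact Or.inr rfl
    · by_cases hy : y = 0
      · left; rw [h, hy, memZ]; exact Or.inl rfl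
      · right; exact ⟨Units.mk0 y hy, h.symm⟩
  let μ : Fˣ → ℙ F V → ℙ F V := fun u x => lft e (gm u) • x
  let φ : Fˣ → ℙ F V → ℙ F V := fun u x => lft e (gp u) • x
  have hμi : ∀ u, Function.Injective (μ u) := fun u => MulAction.injective _
  have hφi : ∀ u, Function.Injective (φ u) := fun u => MulAction.injective _
  have hμB : ∀ u ∈ C, ∀ b ∈ B, b.image (μ u) ∈ B := by
    intro u hu
    apply inv_of_sq hV B hI
    rw [det_lft, det_gm]
    exact isSquare_val ((mem_sqs hcharF u).mp (hCS hu))
  have hφB : ∀ u, u ∉ sqs F → ∀ b ∈ B, b.image (φ u) ∈ B := by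
    intro u hu
    apply inv_of_sq hV B hI
    rw [det_lft, det_gp]
    apply hnegsq _ u.ne_zero
    rintro ⟨w, hw⟩
    apply hu
    rw [mem_sqs hcharF]
    have hw0 : w ≠ 0 := by
      rintro rfl
      rw [mul_zero] at hw
      exact u.ne_zero hw
    exact ⟨Units.mk0 w hw0, Units.ext hw⟩
  have hμ : ∀ u x, μ u (π x) = π (u * x) := by
    intro u x
    change lft e (gm u) • P e (x : F) = P e ((u * x : Fˣ) : F)
    rw [gm_P, Units.val_mul]
  have hφ : ∀ u x, φ u (π x) = π (u * x⁻¹) := by
    intro u x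
    change lft e (gp u) • P e (x : F) = P e ((u * x⁻¹ : Fˣ) : F)
    rw [gp_P e u x x.ne_zero, Units.val_mul, Units.val_inv_eq_inv_val]
  have hTcard : ∀ a, a ∉ sqs F → ((two C 1 a).image π).card = 2 * 3 := by
    intro a ha
    rw [Finset.card_image_of_injective _ hπi, card_two C 1 a (by
      rw [inv_one, one_mul]
      exact fun h => ha (hCS h)), hC]
  have hdiff : ∀ b : Finset (ℙ F V), (pre π b).card + (b ∩ Z).card = b.card := by
    intro b
    have h1 : (pre π b).card = ((pre π b).image π).card :=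
      (Finset.card_image_of_injective _ hπi).symm
    have h2 : (pre π b).image π = b \ Z := by
      ext y
      rw [Finset.mem_image, Finset.mem_sdiff]
      constructor
      · rintro ⟨x, hx, rfl⟩
        rw [mem_pre] at hx
        exact ⟨hx, hZ x⟩
      · rintro ⟨hy, hy'⟩
        rcases hX y with h | ⟨u, rfl⟩
        · exact absurd h hy'
        · exact ⟨u, by rwa [mem_pre], rfl⟩
    rw [h1, h2, Finset.card_sdiff_add_card_inter]
  have hz : ∀ b ∈ B, ∀ a, a ∉ sqs F → (two C 1 a).image π ⊆ b →
      ((b ∩ Z).card = 0 ∧ 3 ∣ k) ∨ ((b ∩ Z).card = 2 ∧ k % 3 = 2) := by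
    intro b hb a ha hTb
    have h1 : 3 ∣ (pre π b).card := by
      rw [← hC]
      apply dvd_card_of_inv
      intro c' hc' x hx
      rw [mem_pre] at hx ⊢
      rw [← hμ]
      refine block_inv hB (μ c') (hμi c') (hμB c' hc') _ b (hTcard a ha) hb hTb ?_ _ hx
      intro y hy
      obtain ⟨w, hw, rfl⟩ := Finset.mem_image.mp hy
      rw [hμ]
      apply Finset.mem_image_of_mem
      rw [mem_two] at hw ⊢
      rcases hw with hw | hw
      · left
        have e : (1 : Fˣ)⁻¹ * (c' * w) = c' * (1⁻¹ * w) := by group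
        rw [e]; exact C.mul_mem hc' hw
      · right
        have e : a⁻¹ * (c' * w) = c' * (a⁻¹ * w) := by
          rw [← mul_assoc, ← mul_assoc, mul_comm a⁻¹ c']
        rw [e]; exact C.mul_mem hc' hw
    have h2 : ∀ x ∈ b, φ a x ∈ b := by
      refine block_inv hB (φ a) (hφi a) (hφB a ha) _ b (hTcard a ha) hb hTb ?_
      intro y hy
      obtain ⟨w, hw, rfl⟩ := Finset.mem_image.mp hy
      rw [hφ]
      apply Finset.mem_image_of_mem
      rw [mem_two] at hw ⊢
      rcases hw with hw | hw
      · right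
        have e : a⁻¹ * (a * w⁻¹) = (1⁻¹ * w)⁻¹ := by group
        rw [e]; exact C.inv_mem hw
      · left
        have e : (1 : Fˣ)⁻¹ * (a * w⁻¹) = (a⁻¹ * w)⁻¹ := by
          rw [inv_one, one_mul, mul_inv, inv_inv]
        rw [e]; exact C.inv_mem hw
    have h3 := hdiff b
    rw [hB.1 b hb] at h3
    have h4 : P e 0 ∈ b ↔ Pinf e ∈ b := by
      constructor
      · intro h
        have := h2 _ h
        have e1 : φ a (P e 0) = Pinf e := gp_zero e a
        rwa [e1] at this
      · intro h
        have := h2 _ h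
        have e1 : φ a (Pinf e) = P e 0 := gp_Pinf e a
        rwa [e1] at this
    by_cases h5 : P e 0 ∈ b
    · right
      have h6 : b ∩ Z = Z := by
        rw [Finset.inter_eq_right]
        intro x hx
        rw [memZ] at hx
        rcases hx with rfl | rfl
        · exact h5
        · exact h4.mp h5
      rw [h6, hZ2] at h3 ⊢
      omega
    · left
      have h6 : b ∩ Z = ∅ := by
        rw [Finset.eq_empty_iff_forall_notMem]
        intro x hx
        rw [Finset.mem_inter, memZ] at hx
        rcases hx with ⟨h7, rfl | rfl⟩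
        · exact h5 h7
        · exact h5 (h4.mpr h7)
      rw [h6, Finset.card_empty] at h3 ⊢
      omega
  obtain ⟨a0, ha0⟩ := exists_notMem_sqs (F := F) hcharF
  obtain ⟨b0, ⟨hb0, hT0⟩, -⟩ := hB.2 _ (hTcard a0 ha0)
  have hex := hz b0 hb0 a0 ha0 hT0
  by_contra hlt
  have key : ∀ z, (∀ b ∈ B, ∀ a, a ∉ sqs F → (two C 1 a).image π ⊆ b → (b ∩ Z).card = z) →
      2 * 3 + z < k → q - 1 ≤ k - z := by
    intro z hz' hkz
    have := regular (X := ℙ F V) (Q := Fˣ) (k := k) (c := 3) (B := B) hB π ⊥ C (sqs F) bot_le hCS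
      hπ (sqs_index hcharF) Z hZ hX (by rw [hC, Subgroup.card_bot]) μ φ hμi hφi hμB hφB hμ hφ z hz'
      hkz ⟨a0, ha0⟩
    rw [Fintype.card_units, Subgroup.card_bot, one_mul] at this
    exact this
  rcases hex with ⟨-, h3⟩ | ⟨-, h3⟩
  · have h1 := key 0 (by
      intro b hb a ha hTb
      rcases hz b hb a ha hTb with h | h
      · exact h.1
      · omega) (by omega)
    -- two blocks of size `q - 1`
    have hkq : k = q - 1 := by omega
    let A : Finset (ℙ F V) := Z ∪ Finset.univ.image π
    have hA : A.card = q + 1 := by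
      rw [Finset.card_union_of_disjoint, hZ2, Finset.card_image_of_injective _ hπi,
        Finset.card_univ, Fintype.card_units]
      · omega
      · rw [Finset.disjoint_left]
        intro x hx hx'
        obtain ⟨y, -, rfl⟩ := Finset.mem_image.mp hx'
        exact hZ y hx
    have hAall : ∀ x, x ∈ A := by
      intro x
      rw [Finset.mem_union]
      rcases hX x with h | ⟨u, rfl⟩
      · exact Or.inl h
      · exact Or.inr (Finset.mem_image_of_mem _ (Finset.mem_univ _))
    have hb0k := hB.1 b0 hb0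
    obtain ⟨y, -, hy⟩ : ∃ y ∈ A, y ∉ b0 := by
      by_contra hcon
      push Not at hcon
      have := Finset.card_le_card (show A ⊆ b0 from hcon)
      omega
    obtain ⟨T5, hT5, hT5c⟩ := Finset.exists_subset_card_eq (s := b0) (n := 5) (by omega)
    obtain ⟨b1, ⟨hb1, hT1⟩, -⟩ := hB.2 (insert y T5) (by
      rw [Finset.card_insert_of_notMem (fun h => hy (hT5 h)), hT5c])
    have hy1 : y ∈ b1 := hT1 (Finset.mem_insert_self _ _)
    have hb1k := hB.1 b1 hb1
    have hun : (b0 ∪ b1).card ≤ q + 1 := by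
      rw [← hA]
      exact Finset.card_le_card (fun x _ => hAall x)
    have hin := Finset.card_union_add_card_inter b0 b1
    obtain ⟨T6, hT6, hT6c⟩ := Finset.exists_subset_card_eq (s := b0 ∩ b1) (n := 2 * 3) (by omega)
    obtain ⟨b2, -, hu⟩ := hB.2 T6 hT6c
    have e0 := hu b0 ⟨hb0, hT6.trans Finset.inter_subset_left⟩
    have e1 := hu b1 ⟨hb1, hT6.trans Finset.inter_subset_right⟩
    rw [← e0] at e1
    rw [e1] at hy1
    exact hy hy1
  · have h1 := key 2 (by
      intro b hb a ha hTb
      rcases hz b hb a ha hTb with h | h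
      · omega
      · exact h.1) (by omega)
    omega

theorem card_ne_33 : Fintype.card F ≠ 33 := by
  intro h
  obtain ⟨p, hp⟩ := CharP.exists F
  have hp' : p.Prime := CharP.char_is_prime F p
  obtain ⟨n, -, hn⟩ := FiniteField.card F p
  rw [h] at hn
  have h3 : 3 ∣ p ^ (n : ℕ) := by rw [← hn]; norm_num
  have h11 : 11 ∣ p ^ (n : ℕ) := by rw [← hn]; norm_num
  have h3' := (Nat.prime_dvd_prime_iff_eq Nat.prime_three hp').mp (Nat.prime_three.dvd_of_dvd_pow h3)
  have h11' := (Nat.prime_dvd_prime_iff_eq (by norm_num : Nat.Prime 11) hp').mp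
    ((by norm_num : Nat.Prime 11).dvd_of_dvd_pow h11)
  omega

theorem main_psl [DecidableEq (ℙ F V)] (hV : Module.finrank F V = 2) (k t : ℕ) (htk : t < k)
    (hk : k < Fintype.card F + 1)
    (ht : (t = 4 ∧ Fintype.card F ≠ 17) ∨
      (t = 6 ∧ (Fintype.card F % 4 ≠ 3 ∨ Fintype.card F % 12 = 11 ∨
        Fintype.card F % 12 = 7 ∧ (k ≠ 8 ∨ ¬ 7 ∣ Fintype.card F))) ∨
      (Fintype.card F % 4 = 3 ∧ ∃ c, c ∣ (Fintype.card F + 1) / 2 ∧ t = 2 * c) ∨
      (Fintype.card F % 4 = 1 ∧ ∃ c, c ∣ (Fintype.card F - 1) / 2 ∧ t = 2 * c + 2 ∧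
        Fintype.card F ≠ 16 * c + 1))
    (B : Finset (Finset (ℙ F V))) (hB : IsSteiner k t B) (hI : InvSL B) : False := by
  have h3 : ∀ c, Fintype.card F % 4 = 3 → c ∣ (Fintype.card F + 1) / 2 → t = 2 * c → False := by
    intro c h1 h2 h4
    subst h4
    have := nonsplit_psl hV k c h1 h2 htk B hB hI
    omega
  have h1 : ∀ c, Fintype.card F % 4 = 1 → c ∣ (Fintype.card F - 1) / 2 → t = 2 * c + 2 →
      Fintype.card F ≠ 16 * c + 1 → False := by
    intro c h1 h2 h4 h5
    subst h4
    have := split_psl hV k c h1 h2 h5 htk B hB hI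
    omega
  have hpos : 2 ≤ Fintype.card F := Fintype.one_lt_card
  rcases ht with ⟨rfl, h17⟩ | ⟨rfl, h6⟩ | ⟨h4, c, hc, htc⟩ | ⟨h4, c, hc, htc, h16⟩
  · by_cases he : Fintype.card F % 2 = 0
    · exact main hV k 4 htk hk (Or.inl rfl) B hB (inv_of_even hV he B hI)
    · by_cases h4 : Fintype.card F % 4 = 3
      · exact h3 2 h4 (by omega) rfl
      · exact h1 1 (by omega) (by omega) rfl (by omega)
  · by_cases he : Fintype.card F % 2 = 0
    · exact main hV k 6 htk hk (Or.inr (Or.inl rfl)) B hB (inv_of_even hV he B hI)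
    · by_cases h4 : Fintype.card F % 4 = 3
      · rcases h6 with h | h | ⟨h, h8⟩
        · exact h h4
        · exact h3 3 h4 (by omega) rfl
        · by_cases hk8 : k = 8
          · subst hk8
            have h7 := dvd_of_seven (seven hV h B hB hI)
            rcases h8 with h8 | h8
            · exact h8 rfl
            · exact h8 h7
          · have := split_reg hV k h htk hk8 B hB hI
            omega
      · exact h1 2 (by omega) (by omega) rfl (by have := card_ne_33 (F := F); omega)
  · exact h3 c h4 hc htc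
  · exact h1 c h4 hc htc h16

end

end Pool.Agent.H838P
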