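import Pool.Agent.H838P.Torus

/-!
# Steiner systems with a dihedral group having a regular orbit
-/

set_option autoImplicit false

namespace Pool.Agent.H838P

section

variable {X : Type*} [DecidableEq X] {Q : Type*} [CommGroup Q] [DecidableEq Q] [Fintype Q]

omit [DecidableEq Q] in
theorem eq_of_card_eq [IsCyclic Q] (R R' : Subgroup Q) (h : Nat.card R = Nat.card R') : R = R' := by
  classical
  have key : ∀ R : Subgroup Q, (Finset.univ.filter fun x : Q => x ∈ R) =
      Finset.univ.filter fun x : Q => x ^ (Nat.card R) = 1 := by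
    intro R
    apply Finset.eq_of_subset_of_card_le
    · intro x hx
      rw [Finset.mem_filter] at hx ⊢
      refine ⟨hx.1, ?_⟩
      have h1 : (⟨x, hx.2⟩ : R) ^ (Nat.card R) = 1 := pow_card_eq_one'
      have h2 : x ^ (Nat.card R) = (((⟨x, hx.2⟩ : R) ^ (Nat.card R) : R) : Q) := rfl
      rw [h2, h1]
      rfl
    · have h1 := IsCyclic.card_pow_eq_one_le (α := Q) (n := Nat.card R) Nat.card_pos
      refine h1.trans ?_
      rw [Nat.card_eq_fintype_card, Fintype.card_subtype]
  ext x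
  have h1 : x ∈ (Finset.univ.filter fun x : Q => x ∈ R) ↔
      x ∈ (Finset.univ.filter fun x : Q => x ∈ R') := by
    rw [key R, key R', h]
  simpa using h1

/-- **The main argument, regular case.** -/
theorem regular [IsCyclic Q] {k c : ℕ} {B : Finset (Finset X)} (hB : IsSteiner k (2 * c) B)
    (π : Q → X) (N C S : Subgroup Q) (hNC : N ≤ C) (hCS : C ≤ S)
    (hπ : ∀ u v, π u = π v ↔ u⁻¹ * v ∈ N)
    (hS : ∀ x, x ∉ S → ∀ y, y ∉ S → x * y ∈ S)
    (Z : Finset X) (hZ : ∀ u, π u ∉ Z) (hX : ∀ x, x ∈ Z ∨ ∃ u, π u = x)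
    (hc : Nat.card C = c * Nat.card N)
    (μ φ : Q → X → X) (hμi : ∀ u, Function.Injective (μ u)) (hφi : ∀ u, Function.Injective (φ u))
    (hμB : ∀ u ∈ C, ∀ b ∈ B, b.image (μ u) ∈ B) (hφB : ∀ u, u ∉ S → ∀ b ∈ B, b.image (φ u) ∈ B)
    (hμ : ∀ u x, μ u (π x) = π (u * x)) (hφ : ∀ u x, φ u (π x) = π (u * x⁻¹))
    (z : ℕ) (hz : ∀ b ∈ B, ∀ a, a ∉ S → (two C 1 a).image π ⊆ b → (b ∩ Z).card = z)
    (hk : 2 * c + z < k) (hne : ∃ a, a ∉ S) :
    Fintype.card Q ≤ Nat.card N * (k - z) := by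
  classical
  have hNpos : 0 < Nat.card N := Nat.card_pos
  have hSC : ∀ a, a ∉ S → a ∉ C := fun a ha h => ha (hCS h)
  have hTcard : ∀ a, a ∉ S → ((two C 1 a).image π).card = 2 * c := by
    intro a ha
    have h1 := card_fibre π N hπ (two C 1 a) (by
      intro x hx n hn
      rw [mem_two] at hx ⊢
      rcases hx with hx | hx
      · left; rw [← mul_assoc]; exact C.mul_mem hx (hNC hn)
      · right; rw [← mul_assoc]; exact C.mul_mem hx (hNC hn))
    rw [card_two C 1 a (by simpa using hSC a ha), hc] at h1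
    have h2 : Nat.card N * (2 * c) = Nat.card N * ((two C 1 a).image π).card := by
      rw [← h1]; ring
    exact (Nat.eq_of_mul_eq_mul_left hNpos h2).symm
  have hblock : ∀ a, a ∉ S → ∃ b, b ∈ B ∧ (two C 1 a).image π ⊆ b := by
    intro a ha
    obtain ⟨b, hb, -⟩ := hB.2 _ (hTcard a ha)
    exact ⟨b, hb⟩
  choose! bl hbl1 hbl2 using hblock
  have hCinv : ∀ a, a ∉ S → ∀ c' ∈ C, ∀ x ∈ pre π (bl a), c' * x ∈ pre π (bl a) := by
    intro a ha c' hc' x hx
    rw [mem_pre] at hx ⊢
    rw [← hμ]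
    refine block_inv hB (μ c') (hμi c') (hμB c' hc') _ (bl a) (hTcard a ha)
      (hbl1 a ha) (hbl2 a ha) ?_ _ hx
    intro y hy
    obtain ⟨w, hw, rfl⟩ := Finset.mem_image.mp hy
    rw [hμ]
    apply Finset.mem_image_of_mem
    rw [mem_two] at hw ⊢
    rcases hw with hw | hw
    · left
      have e : (1 : Q)⁻¹ * (c' * w) = c' * (1⁻¹ * w) := by group
      rw [e]; exact C.mul_mem hc' hw
    · right
      have e : a⁻¹ * (c' * w) = c' * (a⁻¹ * w) := by
        rw [← mul_assoc, ← mul_assoc, mul_comm a⁻¹ c']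
      rw [e]; exact C.mul_mem hc' hw
  have h1mem : ∀ a, a ∉ S → ∀ c' ∈ C, c' ∈ pre π (bl a) := by
    intro a ha c' hc'
    rw [mem_pre]
    apply hbl2 a ha
    apply Finset.mem_image_of_mem
    rw [mem_two]
    left
    simpa using hc'
  have hamem : ∀ a, a ∉ S → a ∈ pre π (bl a) := by
    intro a ha
    rw [mem_pre]
    apply hbl2 a ha
    apply Finset.mem_image_of_mem
    rw [mem_two]
    right
    simp
  have huniq : ∀ a, a ∉ S → ∀ d, d ∉ S → d ∈ pre π (bl a) → bl d = bl a := by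
    intro a ha d hd hda
    obtain ⟨b0, -, hu⟩ := hB.2 _ (hTcard d hd)
    have h1 := hu (bl d) ⟨hbl1 d hd, hbl2 d hd⟩
    have h2 := hu (bl a) ⟨hbl1 a ha, by
      intro y hy
      obtain ⟨w, hw, rfl⟩ := Finset.mem_image.mp hy
      rw [mem_two] at hw
      rw [← mem_pre]
      rcases hw with hw | hw
      · exact h1mem a ha w (by simpa using hw)
      · have h3 := hCinv a ha _ hw d hda
        have e : d⁻¹ * w * d = w := by rw [mul_comm, ← mul_assoc, mul_inv_cancel, one_mul]
        rwa [e] at h3⟩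
    rw [h1, h2]
  have hrefl : ∀ a, a ∉ S → ∀ x ∈ pre π (bl a), a * x⁻¹ ∈ pre π (bl a) := by
    intro a ha x hx
    rw [mem_pre] at hx ⊢
    rw [← hφ]
    refine block_inv hB (φ a) (hφi a) (hφB a ha) _ (bl a) (hTcard a ha)
      (hbl1 a ha) (hbl2 a ha) ?_ _ hx
    intro y hy
    obtain ⟨w, hw, rfl⟩ := Finset.mem_image.mp hy
    rw [hφ]
    apply Finset.mem_image_of_mem
    rw [mem_two] at hw ⊢
    rcases hw with hw | hw
    · right
      have e : a⁻¹ * (a * w⁻¹) = (1⁻¹ * w)⁻¹ := by group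
      rw [e]; exact C.inv_mem hw
    · left
      have e : (1 : Q)⁻¹ * (a * w⁻¹) = (a⁻¹ * w)⁻¹ := by
        rw [inv_one, one_mul, mul_inv, inv_inv]
      rw [e]; exact C.inv_mem hw
  have hdiv : ∀ a, a ∉ S → ∀ y ∈ S, y ∈ pre π (bl a) → ∀ x ∈ pre π (bl a),
      y⁻¹ * x ∈ pre π (bl a) := by
    intro a ha y hyS hy x hx
    have hd := hrefl a ha y hy
    have hdS : a * y⁻¹ ∉ S := fun h => ha (by
      have := S.mul_mem h hyS
      rwa [inv_mul_cancel_right] at this)
    have h1 := hrefl a ha x hx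
    have h2 := hrefl (a * y⁻¹) hdS (a * x⁻¹) (by rw [huniq a ha _ hdS hd]; exact h1)
    rw [huniq a ha _ hdS hd] at h2
    have e : a * y⁻¹ * (a * x⁻¹)⁻¹ = y⁻¹ * x := by
      rw [mul_inv, inv_inv, mul_comm a y⁻¹, mul_assoc, ← mul_assoc a, mul_inv_cancel, one_mul]
    rwa [e] at h2
  have hinv : ∀ a, a ∉ S → ∀ y ∈ S, y ∈ pre π (bl a) → y⁻¹ ∈ pre π (bl a) := by
    intro a ha y hyS hy
    have := hdiv a ha y hyS hy 1 (h1mem a ha 1 C.one_mem)
    rwa [mul_one] at this
  -- the subgroup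
  have hR : ∀ a, a ∉ S → ∃ R : Subgroup Q, ∀ x, x ∈ R ↔ x ∈ S ∧ x ∈ pre π (bl a) := by
    intro a ha
    refine ⟨{ carrier := {x | x ∈ S ∧ x ∈ pre π (bl a)}
              mul_mem' := ?_
              one_mem' := ⟨S.one_mem, h1mem a ha 1 C.one_mem⟩
              inv_mem' := ?_ }, fun x => Iff.rfl⟩
    · rintro x y ⟨hx, hx'⟩ ⟨hy, hy'⟩
      refine ⟨S.mul_mem hx hy, ?_⟩
      have := hdiv a ha x⁻¹ (S.inv_mem hx) (hinv a ha x hx hx') y hy'
      rwa [inv_inv] at this
    · rintro x ⟨hx, hx'⟩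
      exact ⟨S.inv_mem hx, hinv a ha x hx hx'⟩
  choose! R hRmem using hR
  have hsize : ∀ a, a ∉ S → (pre π (bl a)).card = Nat.card N * (k - z) := by
    intro a ha
    have h1 := card_fibre π N hπ (pre π (bl a)) (by
      intro x hx n hn
      rw [mem_pre] at hx ⊢
      have : π (x * n) = π x := by
        rw [eq_comm, hπ]; simpa using hn
      rwa [this])
    rw [h1]
    congr 1
    have h2 : (pre π (bl a)).image π = bl a \ (bl a ∩ Z) := by
      ext y
      rw [Finset.mem_image, Finset.mem_sdiff, Finset.mem_inter]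
      constructor
      · rintro ⟨x, hx, rfl⟩
        rw [mem_pre] at hx
        exact ⟨hx, fun h => hZ x h.2⟩
      · rintro ⟨hy, hy'⟩
        rcases hX y with h | ⟨u, rfl⟩
        · exact absurd ⟨hy, h⟩ hy'
        · exact ⟨u, by rwa [mem_pre], rfl⟩
    rw [h2, Finset.card_sdiff_of_subset Finset.inter_subset_left, hB.1 _ (hbl1 a ha),
      hz _ (hbl1 a ha) a ha (hbl2 a ha)]
  have htwo : ∀ a, a ∉ S → pre π (bl a) = two (R a) 1 a := by
    intro a ha
    ext x
    rw [mem_two, hRmem a ha, hRmem a ha]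
    constructor
    · intro hx
      by_cases hxS : x ∈ S
      · left; simpa using ⟨hxS, hx⟩
      · right
        have h1 : x⁻¹ ∉ S := fun h => hxS (by simpa using S.inv_mem h)
        have h2 := hrefl a ha x hx
        have h3 := hS a ha x⁻¹ h1
        have h4 := hinv a ha _ h3 h2
        have e : (a * x⁻¹)⁻¹ = a⁻¹ * x := by rw [mul_inv, inv_inv]
        rw [e] at h4
        refine ⟨?_, h4⟩
        rw [← e]
        exact S.inv_mem h3
    · rintro (⟨-, h⟩ | ⟨h1, h2⟩)
      · simpa using h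
      · have h3 := hrefl a ha _ (hinv a ha _ h1 h2)
        have e : a * (a⁻¹ * x)⁻¹⁻¹ = x := by group
        rwa [e] at h3
  have hcardR : ∀ a, a ∉ S → 2 * Nat.card (R a) = Nat.card N * (k - z) := by
    intro a ha
    rw [← hsize a ha, htwo a ha, card_two (R a) 1 a]
    rw [inv_one, one_mul, hRmem a ha]
    exact fun h => ha h.1
  obtain ⟨a0, ha0⟩ := hne
  have hReq : ∀ a, a ∉ S → R a = R a0 := by
    intro a ha
    apply eq_of_card_eq
    have h1 := hcardR a ha
    have h2 := hcardR a0 ha0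
    omega
  have hCR : C ≤ R a0 := by
    intro x hx
    rw [hRmem a0 ha0]
    exact ⟨hCS hx, h1mem a0 ha0 x hx⟩
  have hRbig : 2 * (c * Nat.card N) ≤ Nat.card (R a0) := by
    have h1 := Subgroup.card_dvd_of_le hCR
    rw [hc] at h1
    obtain ⟨j, hj⟩ := h1
    have h2 := hcardR a0 ha0
    have h3 : Nat.card N * (2 * c) < Nat.card N * (k - z) :=
      Nat.mul_lt_mul_of_pos_left (by omega) hNpos
    have hj2 : 2 ≤ j := by
      by_contra hlt
      push Not at hlt
      interval_cases j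
      · rw [mul_zero] at hj
        have : 0 < Nat.card (R a0) := Nat.card_pos
        omega
      · rw [mul_one] at hj
        rw [hj] at h2
        have : 2 * (c * Nat.card N) = Nat.card N * (2 * c) := by ring
        omega
    rw [hj]
    calc 2 * (c * Nat.card N) = (c * Nat.card N) * 2 := by ring
      _ ≤ (c * Nat.card N) * j := Nat.mul_le_mul_left _ hj2
  -- all blocks are equal
  have hall : ∀ a, a ∉ S → bl a = bl a0 := by
    intro a ha
    let RF : Finset Q := Finset.univ.filter (fun x => x ∈ R a0)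
    have hRF : RF.card = Nat.card (R a0) := by
      rw [Nat.card_eq_fintype_card, Fintype.card_subtype]
    have h1 := card_fibre π N hπ RF (by
      intro x hx n hn
      rw [Finset.mem_filter] at hx ⊢
      exact ⟨Finset.mem_univ _, (R a0).mul_mem hx.2 (hCR (hNC hn))⟩)
    have h2 : 2 * c ≤ (RF.image π).card := by
      have h3 : Nat.card N * (2 * c) ≤ Nat.card N * (RF.image π).card := by
        rw [← h1, hRF]
        calc Nat.card N * (2 * c) = 2 * (c * Nat.card N) := by ring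
          _ ≤ _ := hRbig
      exact Nat.le_of_mul_le_mul_left h3 hNpos
    obtain ⟨T, hT, hTc⟩ := Finset.exists_subset_card_eq h2
    obtain ⟨b0, -, hu⟩ := hB.2 T hTc
    have h4 : ∀ d, d ∉ S → T ⊆ bl d := by
      intro d hd y hy
      obtain ⟨w, hw, rfl⟩ := Finset.mem_image.mp (hT hy)
      rw [Finset.mem_filter] at hw
      rw [← mem_pre]
      have h5 := hw.2
      rw [← hReq d hd, hRmem d hd] at h5
      exact h5.2
    rw [hu _ ⟨hbl1 a ha, h4 a ha⟩, hu _ ⟨hbl1 a0 ha0, h4 a0 ha0⟩]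
  have hL : pre π (bl a0) = Finset.univ := by
    rw [Finset.eq_univ_iff_forall]
    have h1 : ∀ x, x ∉ S → x ∈ pre π (bl a0) := by
      intro x hx
      rw [← hall x hx]
      exact hamem x hx
    intro s
    by_cases hs : s ∈ S
    · have h2 : a0 * s⁻¹ ∉ S := fun h => ha0 (by
        have := S.mul_mem h hs
        rwa [inv_mul_cancel_right] at this)
      have h3 := hrefl a0 ha0 _ (h1 _ h2)
      have e : a0 * (a0 * s⁻¹)⁻¹ = s := by
        rw [mul_inv, inv_inv, ← mul_assoc, mul_inv_cancel, one_mul]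
      rwa [e] at h3
    · exact h1 s hs
  have h1 := hsize a0 ha0
  rw [hL, Finset.card_univ] at h1
  exact h1.le

end

end Pool.Agent.H838P
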