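import Pool.Agent.H838P.Line

/-!
# Strength six over the fields with `4 ^ m` elements
-/

set_option autoImplicit false

open scoped LinearAlgebra.Projectivization

namespace Pool.Agent.H838P

variable {F V : Type} [Field F] [Fintype F] [AddCommGroup V] [Module F V]

/-- the linear map `(x, y) ↦ (x + y, y)` -/
def gt : (F × F) ≃ₗ[F] (F × F) where
  toFun v := (v.1 + v.2, v.2)
  map_add' v w := by ext <;> simp; ring
  map_smul' a v := by ext <;> simp; ring
  invFun v := (v.1 - v.2, v.2)
  left_inv v := by ext <;> simp
  right_inv v := by ext <;> simp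

omit [Fintype F] in
theorem gt_P (e : (F × F) ≃ₗ[F] V) (x : F) : lft e gt • P e x = P e (x + 1) := by
  unfold P
  rw [lft_pt]
  rfl

omit [Fintype F] in
theorem gt_Pinf (e : (F × F) ≃ₗ[F] V) : lft e (gt : (F × F) ≃ₗ[F] (F × F)) • Pinf e = Pinf e := by
  unfold Pinf
  rw [lft_pt]
  congr 1
  change ((1 : F) + 0, (0 : F)) = (1, 0)
  rw [add_zero]

omit [Fintype F] in
theorem P_injective (e : (F × F) ≃ₗ[F] V) : Function.Injective (P e) :=
  fun x y h => (P_inj e x y).mp h

theorem unique_block {X : Type*} {k t : ℕ} {B : Finset (Finset X)} (hB : IsSteiner k t B)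
    (T b b' : Finset X) (hT : T.card = t) (hb : b ∈ B) (hb' : b' ∈ B) (h : T ⊆ b) (h' : T ⊆ b') :
    b = b' := by
  obtain ⟨b0, -, hu⟩ := hB.2 T hT
  rw [hu b ⟨hb, h⟩, hu b' ⟨hb', h'⟩]

theorem six_even [DecidableEq (ℙ F V)] (hV : Module.finrank F V = 2) (k : ℕ)
    (h2F : (2 : F) = 0) (h3 : 3 ∣ Fintype.card F - 1) (hk : 6 < k) (hkq : k < Fintype.card F + 1)
    (B : Finset (Finset (ℙ F V))) (hB : IsSteiner k 6 B) (hI : Inv B) : False := by
  classical
  have : Module.Finite F V := Module.finite_of_finrank_pos (by rw [hV]; norm_num)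
  let e : (F × F) ≃ₗ[F] V := LinearEquiv.ofFinrankEq (F × F) V (by rw [hV]; simp)
  have hcard : Nat.card Fˣ = Fintype.card F - 1 := by
    rw [Nat.card_eq_fintype_card, Fintype.card_units]
  let C : Subgroup Fˣ := (powMonoidHom 3 : Fˣ →* Fˣ).ker
  have memC : ∀ x : Fˣ, x ∈ C ↔ x ^ 3 = 1 := fun x => by
    rw [MonoidHom.mem_ker]; rfl
  have hC : Nat.card C = 3 := by
    rw [IsCyclic.card_powMonoidHom_ker, hcard]
    exact Nat.gcd_eq_right h3
  have hne : ∃ a : Fˣ, a ∉ C := by
    by_contra hcon
    push Not at hcon
    have h1 : C = ⊤ := by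
      rw [eq_top_iff]; intro x _; exact hcon x
    have h2 : Nat.card C = Fintype.card F - 1 := by
      rw [h1, Subgroup.card_top, hcard]
    omega
  let π : Fˣ → ℙ F V := fun u => P e (u : F)
  have hπi : Function.Injective π := fun u v h => Units.ext (P_injective e h)
  have hZ2 : ({P e 0, Pinf e} : Finset (ℙ F V)).card = 2 := Finset.card_pair (P_ne_Pinf e 0)
  have hT6 : ∀ a : Fˣ, a ∉ C → ((two C 1 a).image π).card = 6 := by
    intro a ha
    rw [Finset.card_image_of_injective _ hπi, card_two C 1 a (by simpa using ha), hC]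
  have hbl : ∀ a : Fˣ, a ∉ C → ∃ b ∈ B, (two C 1 a).image π ⊆ b := by
    intro a ha
    obtain ⟨b, hb, -⟩ := hB.2 _ (hT6 a ha)
    exact ⟨b, hb⟩
  -- the blocks contain both or none of the two fixed points
  have hswap : ∀ b ∈ B, ∀ a : Fˣ, a ∉ C → (two C 1 a).image π ⊆ b → (P e 0 ∈ b ↔ Pinf e ∈ b) := by
    intro b hb a ha hsub
    have hinv := block_inv hB (fun x => lft e (gp a) • x) (MulAction.injective _) (hI _)
      ((two C 1 a).image π) b (hT6 a ha) hb hsub (by
        intro y hy
        obtain ⟨w, hw, rfl⟩ := Finset.mem_image.mp hy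
        change lft e (gp a) • P e (w : F) ∈ _
        rw [gp_P e a w w.ne_zero]
        have e1 : P e ((a : F) * (w : F)⁻¹) = π (a * w⁻¹) := by
          change _ = P e ((a * w⁻¹ : Fˣ) : F)
          rw [Units.val_mul, Units.val_inv_eq_inv_val]
        rw [e1]
        apply Finset.mem_image_of_mem
        rw [mem_two] at hw ⊢
        rcases hw with hw | hw
        · right
          have e2 : a⁻¹ * (a * w⁻¹) = (1⁻¹ * w)⁻¹ := by group
          rw [e2]; exact C.inv_mem hw
        · left
          have e2 : (1 : Fˣ)⁻¹ * (a * w⁻¹) = (a⁻¹ * w)⁻¹ := by rw [mul_inv, inv_inv]; group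
          rw [e2]; exact C.inv_mem hw)
    constructor
    · intro h
      have := hinv _ h
      change lft e (gp a) • P e 0 ∈ b at this
      rwa [gp_zero] at this
    · intro h
      have := hinv _ h
      change lft e (gp a) • Pinf e ∈ b at this
      rwa [gp_Pinf] at this
  -- three divides the number of the other points
  have hthree : ∀ b ∈ B, ∀ a : Fˣ, a ∉ C → (two C 1 a).image π ⊆ b →
      3 ∣ k - (b ∩ {P e 0, Pinf e}).card := by
    intro b hb a ha hsub
    have h1 : (pre π b).card = k - (b ∩ {P e 0, Pinf e}).card := by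
      rw [← hB.1 b hb, ← Finset.card_sdiff_of_subset (Finset.inter_subset_left :
        b ∩ {P e 0, Pinf e} ⊆ b), ← Finset.card_image_of_injective (pre π b) hπi]
      congr 1
      ext y
      rw [Finset.mem_image, Finset.mem_sdiff, Finset.mem_inter, Finset.mem_insert,
        Finset.mem_singleton]
      constructor
      · rintro ⟨x, hx, rfl⟩
        rw [mem_pre] at hx
        refine ⟨hx, fun h => ?_⟩
        rcases h.2 with h | h
        · exact x.ne_zero ((P_inj e _ _).mp h)
        · exact P_ne_Pinf e _ h
      · rintro ⟨hy, hy'⟩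
        rcases cases_P e y with h | ⟨x, rfl⟩
        · exact absurd ⟨hy, Or.inr h⟩ hy'
        · have hx : x ≠ 0 := by
            rintro rfl
            exact hy' ⟨hy, Or.inl rfl⟩
          exact ⟨Units.mk0 x hx, by rw [mem_pre]; exact hy, rfl⟩
    have h2 := card_fibre (QuotientGroup.mk : Fˣ → Fˣ ⧸ C) C (fun u v => QuotientGroup.eq)
      (pre π b) (by
      intro x hx n hn
      rw [mem_pre] at hx ⊢
      have hinv := block_inv hB (fun x => lft e (gm n) • x) (MulAction.injective _) (hI _)
        ((two C 1 a).image π) b (hT6 a ha) hb hsub (by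
          intro y hy
          obtain ⟨w, hw, rfl⟩ := Finset.mem_image.mp hy
          change lft e (gm n) • P e (w : F) ∈ _
          rw [gm_P e n w]
          have e1 : P e ((n : F) * (w : F)) = π (n * w) := by
            change _ = P e ((n * w : Fˣ) : F)
            rw [Units.val_mul]
          rw [e1]
          apply Finset.mem_image_of_mem
          rw [mem_two] at hw ⊢
          rcases hw with hw | hw
          · left
            have e2 : (1 : Fˣ)⁻¹ * (n * w) = n * (1⁻¹ * w) := by group
            rw [e2]; exact C.mul_mem hn hw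
          · right
            have e2 : a⁻¹ * (n * w) = n * (a⁻¹ * w) := by
              rw [← mul_assoc, ← mul_assoc, mul_comm a⁻¹ n]
            rw [e2]; exact C.mul_mem hn hw)
      have h3 := hinv _ hx
      change lft e (gm n) • P e (x : F) ∈ b at h3
      rw [gm_P] at h3
      change P e ((x * n : Fˣ) : F) ∈ b
      rwa [Units.val_mul, mul_comm])
    rw [← h1, h2, hC]
    exact dvd_mul_right _ _
  have hcases : ∀ b ∈ B, ∀ a : Fˣ, a ∉ C → (two C 1 a).image π ⊆ b →
      ((b ∩ {P e 0, Pinf e}).card = 0 ∨ (b ∩ {P e 0, Pinf e}).card = 2) := by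
    intro b hb a ha hsub
    have h := hswap b hb a ha hsub
    by_cases h0 : P e 0 ∈ b
    · right
      have h1 := h.mp h0
      rw [Finset.inter_eq_right.mpr, hZ2]
      intro y hy
      rw [Finset.mem_insert, Finset.mem_singleton] at hy
      rcases hy with rfl | rfl
      · exact h0
      · exact h1
    · left
      have h1 : Pinf e ∉ b := fun h' => h0 (h.mpr h')
      rw [Finset.card_eq_zero, Finset.eq_empty_iff_forall_notMem]
      intro y hy
      rw [Finset.mem_inter, Finset.mem_insert, Finset.mem_singleton] at hy
      rcases hy.2 with rfl | rfl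
      · exact h0 hy.1
      · exact h1 hy.1
  by_cases h3k : 3 ∣ k
  · -- no fixed points in the blocks
    have hz : ∀ b ∈ B, ∀ a : Fˣ, a ∉ C → (∅ : Finset (ℙ F V)) ∪ (two C 1 a).image π ⊆ b →
        (b ∩ {P e 0, Pinf e}).card = 0 := by
      intro b hb a ha hsub
      rw [Finset.empty_union] at hsub
      rcases hcases b hb a ha hsub with h | h
      · exact h
      · have h4 := hthree b hb a ha hsub
        rw [h] at h4
        omega
    have key := split_gen e k 6 3 0 C hC B hB hI ∅ (Or.inl rfl) (by simp) hz (by omega) hne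
    have hkq1 : k = Fintype.card F - 1 := by omega
    obtain ⟨a, ha⟩ := hne
    obtain ⟨b1, hb1, hsub1⟩ := hbl a ha
    have h0 := hz b1 hb1 a ha (by rw [Finset.empty_union]; exact hsub1)
    have hP0 : P e 0 ∉ b1 := by
      intro h
      rw [Finset.card_eq_zero, Finset.eq_empty_iff_forall_notMem] at h0
      exact h0 (P e 0) (by simp [h])
    -- a block through `P 0`
    obtain ⟨T, hT1, hT2⟩ : ∃ T : Finset (ℙ F V), T.card = 6 ∧ P e 0 ∈ T := by
      obtain ⟨T', hT', hT'c⟩ := Finset.exists_subset_card_eq (s := b1) (n := 5)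
        (by rw [hB.1 b1 hb1]; omega)
      refine ⟨insert (P e 0) T', ?_, Finset.mem_insert_self _ _⟩
      rw [Finset.card_insert_of_notMem (fun h => hP0 (hT' h)), hT'c]
    obtain ⟨b2, ⟨hb2, hTb2⟩, -⟩ := hB.2 T hT1
    have hU : b1 ∪ b2 ⊆ insert (Pinf e) (Finset.univ.image (P e)) := by
      intro y _
      rw [Finset.mem_insert, Finset.mem_image]
      rcases cases_P e y with h | ⟨x, rfl⟩
      · exact Or.inl h
      · exact Or.inr ⟨x, Finset.mem_univ _, rfl⟩
    have hUc := (Finset.card_le_card hU).trans (Finset.card_insert_le _ _)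
    have h5 : (Finset.univ.image (P e)).card ≤ Fintype.card F := by
      rw [← Finset.card_univ]
      exact Finset.card_image_le
    have h6 := Finset.card_union_add_card_inter b1 b2
    rw [hB.1 b1 hb1, hB.1 b2 hb2] at h6
    have h7 : 6 ≤ (b1 ∩ b2).card := by omega
    obtain ⟨S, hS, hSc⟩ := Finset.exists_subset_card_eq h7
    have h8 := unique_block hB S b1 b2 hSc hb1 hb2 (hS.trans Finset.inter_subset_left)
      (hS.trans Finset.inter_subset_right)
    exact hP0 (h8 ▸ hTb2 hT2)
  · have hz : ∀ b ∈ B, ∀ a : Fˣ, a ∉ C → (∅ : Finset (ℙ F V)) ∪ (two C 1 a).image π ⊆ b →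
        (b ∩ {P e 0, Pinf e}).card = 2 := by
      intro b hb a ha hsub
      rw [Finset.empty_union] at hsub
      rcases hcases b hb a ha hsub with h | h
      · have h4 := hthree b hb a ha hsub
        rw [h] at h4
        exact absurd (by simpa using h4) h3k
      · exact h
    have hk8 : k = 8 := by
      by_contra hk8
      obtain ⟨a, ha⟩ := id hne
      obtain ⟨b1, hb1, hsub1⟩ := hbl a ha
      have h4 := hthree b1 hb1 a ha hsub1
      rw [hz b1 hb1 a ha (by rw [Finset.empty_union]; exact hsub1)] at h4
      have key := split_gen e k 6 3 2 C hC B hB hI ∅ (Or.inl rfl) (by simp) hz (by omega) hne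
      omega
    subst hk8
    -- a primitive cube root of unity
    obtain ⟨ω, hωC, hω1⟩ : ∃ ω ∈ C, ω ≠ 1 := by
      by_contra hcon
      push Not at hcon
      have h1 : C = ⊥ := by
        rw [eq_bot_iff]; intro x hx; exact Subgroup.mem_bot.mpr (hcon x hx)
      rw [h1, Subgroup.card_bot] at hC
      omega
    rw [memC] at hωC
    have hw3 : (ω : F) ^ 3 = 1 := by
      have := congrArg (fun u : Fˣ => (u : F)) hωC
      simpa using this
    have hw1 : (ω : F) ≠ 1 := fun h => hω1 (Units.ext h)
    obtain ⟨w, hwdef⟩ : ∃ w : F, w = (ω : F) := ⟨_, rfl⟩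
    have hw : w ^ 2 + w + 1 = 0 := by
      rw [hwdef]
      have h1 : ((ω : F) - 1) * ((ω : F) ^ 2 + ω + 1) = 0 := by linear_combination hw3
      rcases mul_eq_zero.mp h1 with h | h
      · exact absurd (sub_eq_zero.mp h) hw1
      · exact h
    have hww1 : w ≠ 1 := by rw [hwdef]; exact hw1
    have hww0 : w ≠ 0 := by rw [hwdef]; exact ω.ne_zero
    have hw3' : w ^ 3 = 1 := by rw [hwdef]; exact hw3
    have cube : ∀ y : F, y ^ 3 = 1 → y = 1 ∨ y = w ∨ y = w ^ 2 := by
      intro y hy
      have h2 : (y - 1) * ((y - w) * (y - w ^ 2)) = 0 := by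
        linear_combination hy + (y - y ^ 2 + (y - 1) * (w - 1)) * hw
      rcases mul_eq_zero.mp h2 with h | h
      · exact Or.inl (sub_eq_zero.mp h)
      · rcases mul_eq_zero.mp h with h | h
        · exact Or.inr (Or.inl (sub_eq_zero.mp h))
        · exact Or.inr (Or.inr (sub_eq_zero.mp h))
    have cubeU : ∀ u : Fˣ, u ∈ C → (u : F) = 1 ∨ (u : F) = w ∨ (u : F) = w ^ 2 := by
      intro u hu
      rw [memC] at hu
      apply cube
      have := congrArg (fun u : Fˣ => (u : F)) hu
      simpa using this
    have hωC' : ω ∈ C := (memC ω).mpr hωC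
    -- the blocks
    have hblock : ∀ a : F, a ≠ 0 → a ≠ 1 → a ≠ w → a ≠ w ^ 2 → ∃ b ∈ B,
        Pinf e ∈ b ∧ ∀ x : F, P e x ∈ b ↔ (x = 0 ∨ x = 1 ∨ x = w ∨ x = w ^ 2 ∨ x = a ∨ x = a * w ∨
          x = a * w ^ 2) := by
      intro a ha0 ha1 haw haw2
      have haC : Units.mk0 a ha0 ∉ C := by
        intro h
        rcases cubeU _ h with h | h | h
        · exact ha1 h
        · exact haw h
        · exact haw2 h
      obtain ⟨b, hb, hsub⟩ := hbl _ haC
      have h2 := hz b hb _ haC (by rw [Finset.empty_union]; exact hsub)
      have hZb : ({P e 0, Pinf e} : Finset (ℙ F V)) ⊆ b := by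
        rw [← Finset.inter_eq_right]
        apply Finset.eq_of_subset_of_card_le Finset.inter_subset_right
        rw [hZ2, h2]
      have hDb : ({P e 0, Pinf e} : Finset (ℙ F V)) ∪ (two C 1 (Units.mk0 a ha0)).image π ⊆ b :=
        Finset.union_subset hZb hsub
      have hD : ({P e 0, Pinf e} : Finset (ℙ F V)) ∪ (two C 1 (Units.mk0 a ha0)).image π = b := by
        apply Finset.eq_of_subset_of_card_le hDb
        rw [Finset.card_union_of_disjoint, hZ2, hT6 _ haC, hB.1 b hb]
        rw [Finset.disjoint_left]
        intro y hy hy'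
        obtain ⟨u, -, rfl⟩ := Finset.mem_image.mp hy'
        rw [Finset.mem_insert, Finset.mem_singleton] at hy
        rcases hy with hy | hy
        · exact u.ne_zero ((P_inj e _ _).mp hy)
        · exact P_ne_Pinf e _ hy
      refine ⟨b, hb, hZb (by simp), fun x => ⟨fun hx => ?_, fun hx => ?_⟩⟩
      · rw [← hD, Finset.mem_union, Finset.mem_insert, Finset.mem_singleton] at hx
        rcases hx with (hx | hx) | hx
        · exact Or.inl ((P_inj e _ _).mp hx)
        · exact absurd hx (P_ne_Pinf e _)
        · obtain ⟨u, hu, hux⟩ := Finset.mem_image.mp hx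
          have hux' : (u : F) = x := (P_inj e _ _).mp hux
          rw [mem_two] at hu
          rcases hu with hu | hu
          · rw [inv_one, one_mul] at hu
            rw [← hux']
            rcases cubeU u hu with h | h | h
            · exact Or.inr (Or.inl h)
            · exact Or.inr (Or.inr (Or.inl h))
            · exact Or.inr (Or.inr (Or.inr (Or.inl h)))
          · have h5 : (u : F) = a * (((Units.mk0 a ha0)⁻¹ * u : Fˣ) : F) := by
              rw [Units.val_mul, Units.val_inv_eq_inv_val, Units.val_mk0, ← mul_assoc,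
                mul_inv_cancel₀ ha0, one_mul]
            rw [← hux', h5]
            rcases cubeU _ hu with h | h | h
            · rw [h]; simp
            · rw [h]; simp
            · rw [h]; simp
      · rcases hx with hx | hx | hx | hx | hx | hx | hx
        · rw [hx]; exact hZb (by simp)
        · rw [hx]
          apply hsub
          have : P e (1 : F) = π 1 := by change _ = P e ((1 : Fˣ) : F); rw [Units.val_one]
          rw [this]
          apply Finset.mem_image_of_mem
          rw [mem_two]; left; simp
        · rw [hx]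
          apply hsub
          have : P e w = π ω := by change _ = P e (ω : F); rw [hwdef]
          rw [this]
          apply Finset.mem_image_of_mem
          rw [mem_two]; left; simpa using hωC'
        · rw [hx]
          apply hsub
          have : P e (w ^ 2) = π (ω ^ 2) := by
            change _ = P e ((ω ^ 2 : Fˣ) : F); rw [hwdef, Units.val_pow_eq_pow_val]
          rw [this]
          apply Finset.mem_image_of_mem
          rw [mem_two]; left; simpa using C.pow_mem hωC' 2
        · rw [hx]
          apply hsub
          have : P e a = π (Units.mk0 a ha0) := rfl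
          rw [this]
          apply Finset.mem_image_of_mem
          rw [mem_two]; right; rw [inv_mul_cancel]; exact C.one_mem
        · rw [hx]
          apply hsub
          have : P e (a * w) = π (Units.mk0 a ha0 * ω) := by
            change _ = P e ((Units.mk0 a ha0 * ω : Fˣ) : F); rw [hwdef, Units.val_mul, Units.val_mk0]
          rw [this]
          apply Finset.mem_image_of_mem
          rw [mem_two]; right; rw [← mul_assoc, inv_mul_cancel, one_mul]; exact hωC'
        · rw [hx]
          apply hsub
          have : P e (a * w ^ 2) = π (Units.mk0 a ha0 * ω ^ 2) := by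
            change _ = P e ((Units.mk0 a ha0 * ω ^ 2 : Fˣ) : F)
            rw [hwdef, Units.val_mul, Units.val_mk0, Units.val_pow_eq_pow_val]
          rw [this]
          apply Finset.mem_image_of_mem
          rw [mem_two]; right; rw [← mul_assoc, inv_mul_cancel, one_mul]; exact C.pow_mem hωC' 2
    obtain ⟨u, hu⟩ := hne
    obtain ⟨a, hadef⟩ : ∃ a : F, a = (u : F) := ⟨_, rfl⟩
    have ha0 : a ≠ 0 := by rw [hadef]; exact u.ne_zero
    have ha3 : a ^ 3 ≠ 1 := by
      intro h
      apply hu
      rw [memC]
      ext
      rw [Units.val_pow_eq_pow_val, ← hadef, h, Units.val_one]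
    have ha1 : a ≠ 1 := fun h => ha3 (by rw [h, one_pow])
    have haw : a ≠ w := fun h => ha3 (by rw [h, hw3'])
    have haw2 : a ≠ w ^ 2 := fun h => ha3 (by rw [h, ← pow_mul, mul_comm, pow_mul, hw3', one_pow])
    have hc0 : a + 1 ≠ 0 := fun h => ha1 (by linear_combination h - h2F)
    have hc1 : a + 1 ≠ 1 := fun h => ha0 (by linear_combination h)
    have hcw : a + 1 ≠ w := fun h => haw2 (by linear_combination h - hw + w * h2F)
    have hcw2 : a + 1 ≠ w ^ 2 := fun h => haw (by linear_combination h + hw - (w + 1) * h2F)
    obtain ⟨b1, hb1, hi1, hm1⟩ := hblock a ha0 ha1 haw haw2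
    obtain ⟨b2, hb2, hi2, hm2⟩ := hblock (a + 1) hc0 hc1 hcw hcw2
    have hb3 := hI (lft e gt) b1 hb1
    have hmem3 : ∀ x : F, P e x ∈ b1 → P e (x + 1) ∈ b1.image (fun x => lft e gt • x) := by
      intro x hx
      rw [← gt_P]
      exact Finset.mem_image_of_mem _ hx
    have hw01 : w ^ 2 ≠ 0 := pow_ne_zero 2 hww0
    have hw11 : w ^ 2 ≠ 1 := fun h => hww0 (by linear_combination hw - h - h2F)
    have hw21 : w ^ 2 ≠ w := by
      intro h
      have h1 : w * (w - 1) = 0 := by linear_combination h
      rcases mul_eq_zero.mp h1 with h | h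
      · exact hww0 h
      · exact hww1 (sub_eq_zero.mp h)
    have hTc : (insert (Pinf e) (({0, 1, w, w ^ 2, a + 1} : Finset F).image (P e))).card = 6 := by
      rw [Finset.card_insert_of_notMem, Finset.card_image_of_injective _ (P_injective e)]
      · rw [Finset.card_insert_of_notMem, Finset.card_insert_of_notMem,
          Finset.card_insert_of_notMem, Finset.card_pair]
        · exact fun h => hcw2 h.symm
        · simp only [Finset.mem_insert, Finset.mem_singleton, not_or]
          exact ⟨fun h => hw21 h.symm, fun h => hcw h.symm⟩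
        · simp only [Finset.mem_insert, Finset.mem_singleton, not_or]
          exact ⟨fun h => hww1 h.symm, fun h => hw11 h.symm, fun h => hc1 h.symm⟩
        · simp only [Finset.mem_insert, Finset.mem_singleton, not_or]
          exact ⟨zero_ne_one, fun h => hww0 h.symm, fun h => hw01 h.symm, fun h => hc0 h.symm⟩
      · intro h
        obtain ⟨x, -, hx⟩ := Finset.mem_image.mp h
        exact P_ne_Pinf e x hx
    have h32 : b1.image (fun x => lft e gt • x) = b2 := by
      refine unique_block hB _ _ _ hTc hb3 hb2 ?_ ?_
      · intro y hy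
        rw [Finset.mem_insert, Finset.mem_image] at hy
        rcases hy with rfl | ⟨x, hx, rfl⟩
        · rw [← gt_Pinf]
          exact Finset.mem_image_of_mem _ hi1
        · simp only [Finset.mem_insert, Finset.mem_singleton] at hx
          rcases hx with rfl | rfl | rfl | rfl | rfl
          · have := hmem3 1 ((hm1 1).mpr (by simp))
            have e1 : (1 : F) + 1 = 0 := by linear_combination h2F
            rwa [e1] at this
          · have := hmem3 0 ((hm1 0).mpr (by simp))
            rwa [zero_add] at this
          · have := hmem3 (x ^ 2) ((hm1 (x ^ 2)).mpr (by simp))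
            have e1 : x ^ 2 + 1 = x := by linear_combination hw - x * h2F
            rwa [e1] at this
          · have := hmem3 w ((hm1 w).mpr (by simp))
            have e1 : w + 1 = w ^ 2 := by linear_combination hw - w ^ 2 * h2F
            rwa [e1] at this
          · exact hmem3 a ((hm1 a).mpr (by simp))
      · intro y hy
        rw [Finset.mem_insert, Finset.mem_image] at hy
        rcases hy with rfl | ⟨x, hx, rfl⟩
        · exact hi2
        · simp only [Finset.mem_insert, Finset.mem_singleton] at hx
          rw [hm2]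
          rcases hx with h | h | h | h | h
          · exact Or.inl h
          · exact Or.inr (Or.inl h)
          · exact Or.inr (Or.inr (Or.inl h))
          · exact Or.inr (Or.inr (Or.inr (Or.inl h)))
          · exact Or.inr (Or.inr (Or.inr (Or.inr (Or.inl h))))
    have hfin := hmem3 (a * w) ((hm1 (a * w)).mpr (by simp))
    rw [h32, hm2] at hfin
    rcases hfin with h | h | h | h | h | h | h
    · exact haw2 (by linear_combination w ^ 2 * h - a * (w - 1) * hw - w ^ 2 * h2F)
    · have : a * w = 0 := by linear_combination h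
      rcases mul_eq_zero.mp this with h | h
      · exact ha0 h
      · exact hww0 h
    · exact haw (by linear_combination w ^ 2 * h - a * (w - 1) * hw + (w - 1) * hw - hw + h2F)
    · exact ha1 (by linear_combination w ^ 2 * h - a * (w - 1) * hw + w * (w - 1) * hw - hw + w * h2F)
    · have : a * (w - 1) = 0 := by linear_combination h
      rcases mul_eq_zero.mp this with h | h
      · exact ha0 h
      · exact hww1 (sub_eq_zero.mp h)
    · exact hww1 (by linear_combination -h)
    · exact haw (by linear_combination h - (a * w) * h2F + a * hw - hw + w ^ 2 * h2F)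

end Pool.Agent.H838P
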