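import Pool.Agent.H838P.Half
import Pool.Agent.H838P.Psl

/-!
# The split torus of `PSL(2,q)`, `q = 1` modulo four
-/

set_option autoImplicit false

open scoped LinearAlgebra.Projectivization

namespace Pool.Agent.H838P

section

variable {X : Type*} [DecidableEq X] {Q : Type*} [CommGroup Q] [DecidableEq Q] [Fintype Q]

theorem half [IsCyclic Q] {k c : ℕ} {B : Finset (Finset X)} (hB : IsSteiner k (2 * c + 2) B)
    (π : Q → X) (hπ : Function.Injective π) (C S : Subgroup Q) (hCS : C ≤ S)
    (hS : ∀ x, x ∉ S → ∀ y, y ∉ S → x * y ∈ S) (hne : ∃ a, a ∉ S)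
    (Z : Finset X) (hZ2 : Z.card = 2) (hZ : ∀ u, π u ∉ Z) (hX : ∀ x, x ∈ Z ∨ ∃ u, π u = x)
    (hc : Nat.card C = c)
    (μ φ : Q → X → X) (hμi : ∀ u, Function.Injective (μ u)) (hφi : ∀ u, Function.Injective (φ u))
    (hμB : ∀ u ∈ C, ∀ b ∈ B, b.image (μ u) ∈ B) (hφB : ∀ u ∈ S, ∀ b ∈ B, b.image (φ u) ∈ B)
    (hμ : ∀ u x, μ u (π x) = π (u * x)) (hφ : ∀ u x, φ u (π x) = π (u * x⁻¹))
    (hμZ : ∀ u, ∀ z ∈ Z, μ u z ∈ Z) (hφZ : ∀ u, ∀ z ∈ Z, φ u z ∈ Z)
    (hk : 2 * c + 2 < k) (h16 : Fintype.card Q ≠ 16 * c) :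
    Fintype.card Q + 2 ≤ k := by
  classical
  have hTcard : ∀ b d, b⁻¹ * d ∉ C → (Z ∪ (two C b d).image π).card = 2 * c + 2 := by
    intro b d hbd
    rw [Finset.card_union_of_disjoint, hZ2, Finset.card_image_of_injective _ hπ,
      card_two C b d hbd, hc]
    · omega
    · rw [Finset.disjoint_left]
      intro x hx hx'
      obtain ⟨y, -, rfl⟩ := Finset.mem_image.mp hx'
      exact hZ y hx
  have hblock : ∀ a, a ∉ C → ∃ b, b ∈ B ∧ Z ∪ (two C 1 a).image π ⊆ b := by
    intro a ha
    obtain ⟨b, hb, -⟩ := hB.2 _ (hTcard 1 a (by simpa using ha))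
    exact ⟨b, hb⟩
  choose! bl hbl1 hbl2 using hblock
  have hCinv : ∀ a, a ∉ C → ∀ c' ∈ C, ∀ x ∈ pre π (bl a), c' * x ∈ pre π (bl a) := by
    intro a ha c' hc' x hx
    rw [mem_pre] at hx ⊢
    rw [← hμ]
    refine block_inv hB (μ c') (hμi c') (hμB c' hc') _ (bl a) (hTcard 1 a (by simpa using ha))
      (hbl1 a ha) (hbl2 a ha) ?_ _ hx
    intro y hy
    rw [Finset.mem_union] at hy ⊢
    rcases hy with hy | hy
    · exact Or.inl (hμZ _ _ hy)
    · right
      obtain ⟨w, hw, rfl⟩ := Finset.mem_image.mp hy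
      rw [hμ]
      apply Finset.mem_image_of_mem
      rw [mem_two] at hw ⊢
      rcases hw with hw | hw
      · left
        have e : (1 : Q)⁻¹ * (c' * w) = c' * (1⁻¹ * w) := by group
        rw [e]; exact C.mul_mem hc' hw
      · right
        have e : a⁻¹ * (c' * w) = c' * (a⁻¹ * w) := by
          rw [← mul_assoc, ← mul_assoc, mul_comm a⁻¹ c']
        rw [e]; exact C.mul_mem hc' hw
  have h1mem : ∀ a, a ∉ C → ∀ c' ∈ C, c' ∈ pre π (bl a) := by
    intro a ha c' hc'
    rw [mem_pre]
    apply hbl2 a ha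
    rw [Finset.mem_union]
    right
    apply Finset.mem_image_of_mem
    rw [mem_two]
    left
    simpa using hc'
  have hamem : ∀ a, a ∉ C → a ∈ pre π (bl a) := by
    intro a ha
    rw [mem_pre]
    apply hbl2 a ha
    rw [Finset.mem_union]
    right
    apply Finset.mem_image_of_mem
    rw [mem_two]
    right
    simp
  have hsub : ∀ a, a ∉ C → ∀ b ∈ pre π (bl a), ∀ d ∈ pre π (bl a),
      Z ∪ (two C b d).image π ⊆ bl a := by
    intro a ha b hb d hd y hy
    rw [Finset.mem_union] at hy
    rcases hy with hy | hy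
    · exact hbl2 a ha (Finset.mem_union_left _ hy)
    · obtain ⟨w, hw, rfl⟩ := Finset.mem_image.mp hy
      rw [mem_two] at hw
      rcases hw with hw | hw
      · have h3 := hCinv a ha _ hw b hb
        rw [mem_pre] at h3
        have e : b⁻¹ * w * b = w := by rw [mul_comm, ← mul_assoc, mul_inv_cancel, one_mul]
        rwa [e] at h3
      · have h3 := hCinv a ha _ hw d hd
        rw [mem_pre] at h3
        have e : d⁻¹ * w * d = w := by rw [mul_comm, ← mul_assoc, mul_inv_cancel, one_mul]
        rwa [e] at h3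
  have key := core C S hCS hS hne (fun d => pre π (bl d)) (k - 2) h1mem hamem hCinv
    (by
      intro d hd e he heC
      obtain ⟨b0, -, hu⟩ := hB.2 _ (hTcard 1 e (by simpa using heC))
      have h1 := hu (bl e) ⟨hbl1 e heC, hbl2 e heC⟩
      have h2 := hu (bl d) ⟨hbl1 d hd, hsub d hd 1 (h1mem d hd 1 C.one_mem) e he⟩
      change pre π (bl e) = pre π (bl d)
      rw [h1, h2])
    (by
      intro a ha b hb d hd hbd hbdS x hx
      rw [mem_pre] at hx ⊢
      rw [← hφ]
      refine block_inv hB (φ (b * d)) (hφi _) (hφB _ hbdS) _ (bl a) (hTcard b d hbd)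
        (hbl1 a ha) (hsub a ha b hb d hd) ?_ _ hx
      intro y hy
      rw [Finset.mem_union] at hy ⊢
      rcases hy with hy | hy
      · exact Or.inl (hφZ _ _ hy)
      · right
        obtain ⟨w, hw, rfl⟩ := Finset.mem_image.mp hy
        rw [hφ]
        apply Finset.mem_image_of_mem
        rw [mem_two] at hw ⊢
        rcases hw with hw | hw
        · right
          have e : d⁻¹ * (b * d * w⁻¹) = (b⁻¹ * w)⁻¹ := by
            rw [mul_inv, inv_inv, mul_comm b d, mul_assoc, ← mul_assoc d⁻¹ d, inv_mul_cancel,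
              one_mul]
          rw [e]; exact C.inv_mem hw
        · left
          have e : b⁻¹ * (b * d * w⁻¹) = (d⁻¹ * w)⁻¹ := by
            rw [mul_inv, inv_inv, mul_assoc, ← mul_assoc b⁻¹ b, inv_mul_cancel, one_mul]
          rw [e]; exact C.inv_mem hw)
    (by
      intro a ha
      have h1 : (pre π (bl a)).card = ((pre π (bl a)).image π).card :=
        (Finset.card_image_of_injective _ hπ).symm
      have h2 : (pre π (bl a)).image π = bl a \ Z := by
        ext y
        rw [Finset.mem_image, Finset.mem_sdiff]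
        constructor
        · rintro ⟨x, hx, rfl⟩
          rw [mem_pre] at hx
          exact ⟨hx, hZ x⟩
        · rintro ⟨hy, hy'⟩
          rcases hX y with h | ⟨u, rfl⟩
          · exact absurd h hy'
          · exact ⟨u, by rwa [mem_pre], rfl⟩
      rw [h1, h2, Finset.card_sdiff_of_subset (fun y hy => hbl2 a ha (Finset.mem_union_left _ hy)),
        hB.1 _ (hbl1 a ha), hZ2])
    (by rw [hc]; omega) (by rw [hc]; exact h16)
  omega

end

section

variable {F V : Type} [Field F] [Fintype F] [AddCommGroup V] [Module F V]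

omit [Fintype F] in
theorem det_gm (u : Fˣ) : LinearMap.det (gm u : (F × F) →ₗ[F] (F × F)) = u := by
  have h : (gm u : (F × F) →ₗ[F] (F × F)) =
      LinearMap.prodMap ((u : F) • (LinearMap.id : F →ₗ[F] F)) (LinearMap.id : F →ₗ[F] F) := by
    ext <;> simp [gm_apply]
  rw [h, LinearMap.det_prodMap, LinearMap.det_smul, LinearMap.det_id]
  simp

omit [Fintype F] in
theorem det_gp [Invertible (2 : F)] (u : Fˣ) :
    LinearMap.det (gp u : (F × F) →ₗ[F] (F × F)) = u * (-1) := by
  have h : (gp u : (F × F) →ₗ[F] (F × F)) = (gm u : (F × F) →ₗ[F] (F × F)) ∘ₗ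
      (LinearEquiv.prodComm F F F : (F × F) →ₗ[F] (F × F)) := rfl
  rw [h, LinearMap.det_comp, det_gm]
  congr 1
  refine det_involution (by simp) _ (fun x => rfl) ((1, 1) : F × F) (by simp) rfl ((1, 0) : F × F) ?_
  intro h
  have := congrArg Prod.fst h
  exact zero_ne_one this

/-- the subgroup of the squares -/
def sqs (F : Type) [Field F] [Fintype F] : Subgroup Fˣ :=
  (powMonoidHom (Fintype.card F / 2) : Fˣ →* Fˣ).ker

theorem mem_sqs (hF : ringChar F ≠ 2) (x : Fˣ) : x ∈ sqs F ↔ IsSquare x := by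
  rw [FiniteField.unit_isSquare_iff hF]
  exact MonoidHom.mem_ker

theorem sqs_index (hF : ringChar F ≠ 2) : ∀ x, x ∉ sqs F → ∀ y, y ∉ sqs F → x * y ∈ sqs F := by
  have key : ∀ x : Fˣ, x ∉ sqs F → x ^ (Fintype.card F / 2) = -1 := by
    intro x hx
    rcases FiniteField.pow_dichotomy hF x.ne_zero with h1 | h1
    · exfalso
      apply hx
      rw [mem_sqs hF, FiniteField.unit_isSquare_iff hF]
      ext
      rw [Units.val_pow_eq_pow_val, h1, Units.val_one]
    · ext
      rw [Units.val_pow_eq_pow_val, h1, Units.val_neg, Units.val_one]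
  intro x hx y hy
  rw [mem_sqs hF, FiniteField.unit_isSquare_iff hF, mul_pow, key x hx, key y hy]
  simp

theorem exists_notMem_sqs (hF : ringChar F ≠ 2) : ∃ a : Fˣ, a ∉ sqs F := by
  obtain ⟨a, ha⟩ := FiniteField.exists_nonsquare hF
  have ha0 : a ≠ 0 := by
    rintro rfl
    exact ha ⟨0, by simp⟩
  refine ⟨Units.mk0 a ha0, ?_⟩
  rw [mem_sqs hF]
  rintro ⟨w, hw⟩
  apply ha
  refine ⟨(w : F), ?_⟩
  have := congrArg (Units.val) hw
  simpa using this

omit [Fintype F] in
theorem isSquare_val {x : Fˣ} (h : IsSquare x) : IsSquare (x : F) := by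
  obtain ⟨w, rfl⟩ := h
  exact ⟨(w : F), Units.val_mul _ _⟩

theorem split_psl [DecidableEq (ℙ F V)] (hV : Module.finrank F V = 2) (k c : ℕ)
    (hq4 : Fintype.card F % 4 = 1)
    (hc : c ∣ (Fintype.card F - 1) / 2) (h16 : Fintype.card F ≠ 16 * c + 1) (hk : 2 * c + 2 < k)
    (B : Finset (Finset (ℙ F V)))
    (hB : IsSteiner k (2 * c + 2) B) (hI : InvSL B) : Fintype.card F + 1 ≤ k := by
  classical
  have : Module.Finite F V := Module.finite_of_finrank_pos (by rw [hV]; norm_num)
  let e : (F × F) ≃ₗ[F] V := LinearEquiv.ofFinrankEq (F × F) V (by rw [hV]; simp)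
  set q := Fintype.card F with hq
  have hq2 : 2 ≤ q := Fintype.one_lt_card
  have hcharF : ringChar F ≠ 2 := by
    intro h
    have := FiniteField.even_card_of_char_two h
    omega
  have h20 : (2 : F) ≠ 0 := Ring.two_ne_zero hcharF
  let _ : Invertible (2 : F) := invertibleOfNonzero h20
  have hneg : IsSquare (-1 : F) := by
    rw [FiniteField.isSquare_neg_one_iff]
    omega
  have hcard : Nat.card Fˣ = q - 1 := by
    rw [Nat.card_eq_fintype_card, Fintype.card_units]
  have hcq : c ∣ q - 1 := by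
    have : q - 1 = (q - 1) / 2 * 2 := by omega
    rw [this]; exact Dvd.dvd.mul_right hc 2
  let C : Subgroup Fˣ := (powMonoidHom c : Fˣ →* Fˣ).ker
  have hC : Nat.card C = c := by
    rw [IsCyclic.card_powMonoidHom_ker, hcard]
    exact Nat.gcd_eq_right hcq
  have hCS : C ≤ sqs F := by
    intro x hx
    have hx' : x ^ c = 1 := by rw [MonoidHom.mem_ker] at hx; exact hx
    rw [mem_sqs hcharF, FiniteField.unit_isSquare_iff hcharF]
    obtain ⟨j, hj⟩ := hc
    have : Fintype.card F / 2 = c * j := by omega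
    rw [this, pow_mul, hx', one_pow]
  have hP0 : ∀ u : Fˣ, P e (u : F) ∉ ({P e 0, Pinf e} : Finset (ℙ F V)) := by
    intro u h
    rw [Finset.mem_insert, Finset.mem_singleton] at h
    rcases h with h | h
    · rw [P_inj] at h; exact u.ne_zero h
    · exact P_ne_Pinf e _ h
  have key := half (X := ℙ F V) (Q := Fˣ) (k := k) (c := c) (B := B) hB
    (fun u : Fˣ => P e (u : F)) (by
      intro u v h
      exact Units.ext ((P_inj e _ _).mp h))
    C (sqs F) hCS (sqs_index hcharF) (exists_notMem_sqs hcharF)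
    {P e 0, Pinf e} (Finset.card_pair (P_ne_Pinf e 0)) hP0 (by
      intro x
      rcases cases_P e x with h | ⟨y, h⟩
      · left; rw [h]; simp
      · by_cases hy : y = 0
        · left; rw [h, hy]; simp
        · right; exact ⟨Units.mk0 y hy, h.symm⟩) hC
    (fun u x => lft e (gm u) • x) (fun u x => lft e (gp u) • x)
    (fun u => MulAction.injective _) (fun u => MulAction.injective _)
    (by
      intro u hu
      apply inv_of_sq hV B hI
      rw [det_lft, det_gm]
      exact isSquare_val ((mem_sqs hcharF u).mp (hCS hu)))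
    (by
      intro u hu
      apply inv_of_sq hV B hI
      rw [det_lft, det_gp]
      exact (isSquare_val ((mem_sqs hcharF u).mp hu)).mul hneg)
    (by
      intro u x
      change lft e (gm u) • P e (x : F) = P e ((u * x : Fˣ) : F)
      rw [gm_P, Units.val_mul]) (by
      intro u x
      change lft e (gp u) • P e (x : F) = P e ((u * x⁻¹ : Fˣ) : F)
      rw [gp_P e u x x.ne_zero, Units.val_mul, Units.val_inv_eq_inv_val])
    (by
      intro u x hx
      rw [Finset.mem_insert, Finset.mem_singleton] at hx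
      rcases hx with rfl | rfl
      · rw [gm_P, mul_zero]; simp
      · rw [gm_Pinf]; simp)
    (by
      intro u x hx
      rw [Finset.mem_insert, Finset.mem_singleton] at hx
      rcases hx with rfl | rfl
      · rw [gp_zero]; simp
      · rw [gp_Pinf]; simp)
    hk (by rw [Fintype.card_units]; omega)
  rw [Fintype.card_units] at key
  omega

end

end Pool.Agent.H838P
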