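import Pool.Agent.H838P.Cyc

/-!
# Steiner systems with a cyclic group and all its reflections
-/

set_option autoImplicit false

namespace Pool.Agent.H838P

/-- blocks have `k` elements, every `t`-element set is in exactly one block -/
def IsSteiner {X : Type*} (k t : ℕ) (B : Finset (Finset X)) : Prop :=
  (∀ b ∈ B, b.card = k) ∧ ∀ T : Finset X, T.card = t → ∃! b, b ∈ B ∧ T ⊆ b

section

variable {X : Type*} [DecidableEq X]

theorem image_eq_of_inv (T : Finset X) (f : X → X) (hf : Function.Injective f)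
    (h : ∀ x ∈ T, f x ∈ T) : T.image f = T := by
  apply Finset.eq_of_subset_of_card_le
  · intro y hy
    obtain ⟨x, hx, rfl⟩ := Finset.mem_image.mp hy
    exact h x hx
  · rw [Finset.card_image_of_injective _ hf]

theorem block_inv {k t : ℕ} {B : Finset (Finset X)} (hB : IsSteiner k t B) (f : X → X)
    (hf : Function.Injective f) (hP : ∀ b ∈ B, b.image f ∈ B) (T b : Finset X) (hT : T.card = t)
    (hb : b ∈ B) (hTb : T ⊆ b) (h : ∀ x ∈ T, f x ∈ T) : ∀ x ∈ b, f x ∈ b := by
  have h1 : T ⊆ b.image f := by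
    rw [← image_eq_of_inv T f hf h]
    exact Finset.image_subset_image hTb
  obtain ⟨b0, -, hu⟩ := hB.2 T hT
  have h2 := hu b ⟨hb, hTb⟩
  have h3 := hu (b.image f) ⟨hP b hb, h1⟩
  intro x hx
  have h4 : b.image f = b := by rw [h3, h2]
  rw [← h4]
  exact Finset.mem_image_of_mem f hx

variable {Q : Type*} [CommGroup Q] [DecidableEq Q] [Fintype Q]

/-- the preimage -/
def pre (π : Q → X) (b : Finset X) : Finset Q := Finset.univ.filter (fun x => π x ∈ b)

omit [CommGroup Q] [DecidableEq Q] in
theorem mem_pre (π : Q → X) (b : Finset X) (x : Q) : x ∈ pre π b ↔ π x ∈ b := by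
  unfold pre
  simp

/-- sets which are unions of fibres -/
theorem card_fibre (π : Q → X) (N : Subgroup Q) (hπ : ∀ u v, π u = π v ↔ u⁻¹ * v ∈ N)
    (S : Finset Q) (hS : ∀ x ∈ S, ∀ n ∈ N, x * n ∈ S) :
    S.card = Nat.card N * (S.image π).card := by
  classical
  rw [Finset.card_eq_sum_card_image π S]
  have h1 : ∀ b ∈ S.image π, (S.filter (fun a => π a = b)).card = Nat.card N := by
    intro b hb
    obtain ⟨a, ha, rfl⟩ := Finset.mem_image.mp hb
    have h2 : S.filter (fun x => π x = π a) =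
        (Finset.univ.filter (fun x => x ∈ N)).image (fun x => a * x) := by
      ext x
      rw [Finset.mem_filter, Finset.mem_image]
      constructor
      · rintro ⟨hx, hxa⟩
        refine ⟨a⁻¹ * x, ?_, by group⟩
        rw [Finset.mem_filter]
        exact ⟨Finset.mem_univ _, (hπ a x).mp hxa.symm⟩
      · rintro ⟨n, hn, rfl⟩
        rw [Finset.mem_filter] at hn
        refine ⟨hS a ha n hn.2, ?_⟩
        rw [eq_comm, hπ]
        simpa using hn.2
    rw [h2, Finset.card_image_of_injective _ (mul_right_injective a), Nat.card_eq_fintype_card,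
      Fintype.card_subtype]
  rw [Finset.sum_congr rfl h1, Finset.sum_const, smul_eq_mul, mul_comm]

open Classical in
/-- the union of two cosets -/
noncomputable def two (C : Subgroup Q) (b d : Q) : Finset Q :=
  Finset.univ.filter (fun x => b⁻¹ * x ∈ C ∨ d⁻¹ * x ∈ C)

omit [DecidableEq Q] in
theorem mem_two (C : Subgroup Q) (b d x : Q) :
    x ∈ two C b d ↔ (b⁻¹ * x ∈ C ∨ d⁻¹ * x ∈ C) := by
  unfold two
  simp

theorem card_two (C : Subgroup Q) (b d : Q) (h : b⁻¹ * d ∉ C) :
    (two C b d).card = 2 * Nat.card C := by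
  classical
  have h0 : (Finset.univ.filter (fun x => x ∈ C)).card = Nat.card C := by
    rw [Nat.card_eq_fintype_card, Fintype.card_subtype]
  have h1 : two C b d = (Finset.univ.filter (fun x => x ∈ C)).image (fun x => b * x) ∪
      (Finset.univ.filter (fun x => x ∈ C)).image (fun x => d * x) := by
    ext x
    rw [mem_two, Finset.mem_union, Finset.mem_image, Finset.mem_image]
    constructor
    · rintro (hx | hx)
      · exact Or.inl ⟨b⁻¹ * x, by simpa using hx, by group⟩
      · exact Or.inr ⟨d⁻¹ * x, by simpa using hx, by group⟩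
    · rintro (⟨y, hy, rfl⟩ | ⟨y, hy, rfl⟩)
      · left; simpa using hy
      · right; simpa using hy
  rw [h1, Finset.card_union_of_disjoint, Finset.card_image_of_injective _ (mul_right_injective b),
    Finset.card_image_of_injective _ (mul_right_injective d), h0]
  · ring
  · rw [Finset.disjoint_left]
    intro x hx hx'
    obtain ⟨y, hy, rfl⟩ := Finset.mem_image.mp hx
    obtain ⟨z, hz, hzy⟩ := Finset.mem_image.mp hx'
    rw [Finset.mem_filter] at hy hz
    apply h
    have e : b⁻¹ * d = y * z⁻¹ := by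
      have : d = b * y * z⁻¹ := by rw [← hzy]; group
      rw [this]; group
    rw [e]
    exact C.mul_mem hy.2 (C.inv_mem hz.2)

/-- **The main argument.** -/
theorem torus [IsCyclic Q] {k t c : ℕ} {B : Finset (Finset X)} (hB : IsSteiner k t B)
    (π : Q → X) (N C : Subgroup Q) (hNC : N ≤ C) (hπ : ∀ u v, π u = π v ↔ u⁻¹ * v ∈ N)
    (Z Z0 : Finset X) (hZ0 : Z0 ⊆ Z) (hZ : ∀ u, π u ∉ Z) (hX : ∀ x, x ∈ Z ∨ ∃ u, π u = x)
    (hc : Nat.card C = c * Nat.card N) (ht : t = 2 * c + Z0.card)
    (μ φ : Q → X → X) (hμi : ∀ u, Function.Injective (μ u)) (hφi : ∀ u, Function.Injective (φ u))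
    (hμB : ∀ u, ∀ b ∈ B, b.image (μ u) ∈ B) (hφB : ∀ u, ∀ b ∈ B, b.image (φ u) ∈ B)
    (hμ : ∀ u x, μ u (π x) = π (u * x)) (hφ : ∀ u x, φ u (π x) = π (u * x⁻¹))
    (hμZ : ∀ u, ∀ z ∈ Z0, μ u z ∈ Z0) (hφZ : ∀ u, ∀ z ∈ Z0, φ u z ∈ Z0)
    (z : ℕ) (hz : ∀ b ∈ B, ∀ a, a ∉ C → Z0 ∪ (two C 1 a).image π ⊆ b → (b ∩ Z).card = z)
    (hk : 2 * c + z < k) (hne : ∃ a, a ∉ C) :
    Fintype.card Q ≤ Nat.card N * (k - z) := by
  classical
  have hNpos : 0 < Nat.card N := Nat.card_pos
  -- the sets `T b d`
  have hTcard : ∀ b d, b⁻¹ * d ∉ C → (Z0 ∪ (two C b d).image π).card = t := by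
    intro b d hbd
    rw [Finset.card_union_of_disjoint, ht]
    · have h1 := card_fibre π N hπ (two C b d) (by
        intro x hx n hn
        rw [mem_two] at hx ⊢
        rcases hx with hx | hx
        · left; rw [← mul_assoc]; exact C.mul_mem hx (hNC hn)
        · right; rw [← mul_assoc]; exact C.mul_mem hx (hNC hn))
      rw [card_two C b d hbd, hc] at h1
      have h2 : Nat.card N * (2 * c) = Nat.card N * ((two C b d).image π).card := by
        rw [← h1]; ring
      have h3 := Nat.eq_of_mul_eq_mul_left hNpos h2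
      omega
    · rw [Finset.disjoint_left]
      intro x hx hx'
      obtain ⟨y, -, rfl⟩ := Finset.mem_image.mp hx'
      exact hZ y (hZ0 hx)
  -- the blocks
  have hblock : ∀ a, a ∉ C → ∃ b, b ∈ B ∧ Z0 ∪ (two C 1 a).image π ⊆ b := by
    intro a ha
    obtain ⟨b, hb, -⟩ := hB.2 _ (hTcard 1 a (by simpa using ha))
    exact ⟨b, hb⟩
  choose! bl hbl1 hbl2 using hblock
  have hCinv : ∀ a, a ∉ C → ∀ c' ∈ C, ∀ x ∈ pre π (bl a), c' * x ∈ pre π (bl a) := by
    intro a ha c' hc' x hx
    rw [mem_pre] at hx ⊢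
    rw [← hμ]
    refine block_inv hB (μ c') (hμi c') (hμB c') _ (bl a) (hTcard 1 a (by simpa using ha))
      (hbl1 a ha) (hbl2 a ha) ?_ _ hx
    intro y hy
    rw [Finset.mem_union] at hy ⊢
    rcases hy with hy | hy
    · exact Or.inl (hμZ _ _ hy)
    · right
      obtain ⟨w, hw, rfl⟩ := Finset.mem_image.mp hy
      rw [hμ]
      apply Finset.mem_image_of_mem
      rw [mem_two] at hw ⊢
      rcases hw with hw | hw
      · left
        have e : (1 : Q)⁻¹ * (c' * w) = c' * (1⁻¹ * w) := by group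
        rw [e]; exact C.mul_mem hc' hw
      · right
        have e : a⁻¹ * (c' * w) = c' * (a⁻¹ * w) := by
          rw [← mul_assoc, ← mul_assoc, mul_comm a⁻¹ c']
        rw [e]; exact C.mul_mem hc' hw
  have h1mem : ∀ a, a ∉ C → ∀ c' ∈ C, c' ∈ pre π (bl a) := by
    intro a ha c' hc'
    rw [mem_pre]
    apply hbl2 a ha
    rw [Finset.mem_union]
    right
    apply Finset.mem_image_of_mem
    rw [mem_two]
    left
    simpa using hc'
  have hamem : ∀ a, a ∉ C → a ∈ pre π (bl a) := by
    intro a ha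
    rw [mem_pre]
    apply hbl2 a ha
    rw [Finset.mem_union]
    right
    apply Finset.mem_image_of_mem
    rw [mem_two]
    right
    simp
  have hswap : ∀ a, a ∉ C → ∀ b ∈ pre π (bl a), ∀ d ∈ pre π (bl a), b⁻¹ * d ∉ C →
      ∀ x ∈ pre π (bl a), b * d * x⁻¹ ∈ pre π (bl a) := by
    intro a ha b hb d hd hbd x hx
    rw [mem_pre] at hx ⊢
    rw [← hφ]
    have hsub : Z0 ∪ (two C b d).image π ⊆ bl a := by
      intro y hy
      rw [Finset.mem_union] at hy
      rcases hy with hy | hy
      · exact hbl2 a ha (Finset.mem_union_left _ hy)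
      · obtain ⟨w, hw, rfl⟩ := Finset.mem_image.mp hy
        rw [mem_two] at hw
        rcases hw with hw | hw
        · have h3 := hCinv a ha _ hw b hb
          rw [mem_pre] at h3
          have e : b⁻¹ * w * b = w := by rw [mul_comm, ← mul_assoc, mul_inv_cancel, one_mul]
          rwa [e] at h3
        · have h3 := hCinv a ha _ hw d hd
          rw [mem_pre] at h3
          have e : d⁻¹ * w * d = w := by rw [mul_comm, ← mul_assoc, mul_inv_cancel, one_mul]
          rwa [e] at h3
    refine block_inv hB (φ (b * d)) (hφi _) (hφB _) _ (bl a) (hTcard b d hbd)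
      (hbl1 a ha) hsub ?_ _ hx
    intro y hy
    rw [Finset.mem_union] at hy ⊢
    rcases hy with hy | hy
    · exact Or.inl (hφZ _ _ hy)
    · right
      obtain ⟨w, hw, rfl⟩ := Finset.mem_image.mp hy
      rw [hφ]
      apply Finset.mem_image_of_mem
      rw [mem_two] at hw ⊢
      rcases hw with hw | hw
      · right
        have e : d⁻¹ * (b * d * w⁻¹) = (b⁻¹ * w)⁻¹ := by
          rw [mul_inv, inv_inv, mul_comm b d, mul_assoc, ← mul_assoc d⁻¹ d, inv_mul_cancel, one_mul]
        rw [e]; exact C.inv_mem hw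
      · left
        have e : b⁻¹ * (b * d * w⁻¹) = (d⁻¹ * w)⁻¹ := by
          rw [mul_inv, inv_inv, mul_assoc, ← mul_assoc b⁻¹ b, inv_mul_cancel, one_mul]
        rw [e]; exact C.inv_mem hw
  have hsize : ∀ a, a ∉ C → (pre π (bl a)).card = Nat.card N * (k - z) := by
    intro a ha
    have h1 := card_fibre π N hπ (pre π (bl a)) (by
      intro x hx n hn
      rw [mem_pre] at hx ⊢
      have : π (x * n) = π x := by
        rw [eq_comm, hπ]; simpa using hn
      rwa [this])
    rw [h1]
    congr 1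
    have h2 : (pre π (bl a)).image π = bl a \ (bl a ∩ Z) := by
      ext y
      rw [Finset.mem_image, Finset.mem_sdiff, Finset.mem_inter]
      constructor
      · rintro ⟨x, hx, rfl⟩
        rw [mem_pre] at hx
        exact ⟨hx, fun h => hZ x h.2⟩
      · rintro ⟨hy, hy'⟩
        rcases hX y with h | ⟨u, rfl⟩
        · exact absurd ⟨hy, h⟩ hy'
        · exact ⟨u, by rwa [mem_pre], rfl⟩
    rw [h2, Finset.card_sdiff_of_subset Finset.inter_subset_left, hB.1 _ (hbl1 a ha),
      hz _ (hbl1 a ha) a ha (hbl2 a ha)]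
  refine card_le_of_swap C (Nat.card N * (k - z)) (fun a => pre π (bl a)) h1mem hamem hCinv hswap
    hsize ?_ hne
  rw [hc]
  have : 2 * c < k - z := by omega
  calc 2 * (c * Nat.card N) = Nat.card N * (2 * c) := by ring
    _ < Nat.card N * (k - z) := Nat.mul_lt_mul_of_pos_left this hNpos

end

end Pool.Agent.H838P
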